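import Pool.Agent.W_MP_7610c5_al.Defs

universe u

namespace Pool.Agent.W_MP_7610c5_al

/-- `G` is nilpotent of class exactly `n` (for `n ≥ 1`): `γ_{n+1}(G) = 1` and `γ_n(G) ≠ 1`.
In Mathlib `(⊤ : Subgroup G).lowerCentralSeries k` is `γ_{k+1}(G)`, starting from
`(⊤ : Subgroup G).lowerCentralSeries 0 = ⊤ = γ_1(G)`. -/
def ClassExactly (G : Type u) [Group G] (n : ℕ) : Prop :=
  (⊤ : Subgroup G).lowerCentralSeries n = ⊥ ∧ (⊤ : Subgroup G).lowerCentralSeries (n - 1) ≠ ⊥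

/-- Plotkin's number `f(n)`: the supremum (an extended natural number) of all `m ≥ 1` such that
`D_m(G) ≠ 1` for some group `G` which is nilpotent of class exactly `n`. -/
noncomputable def plotkinF (n : ℕ) : ℕ∞ :=
  sSup {x : ℕ∞ | ∃ m : ℕ, x = m ∧ 1 ≤ m ∧
    ∃ (G : Type u) (_ : Group G), ClassExactly G n ∧ dimSet G m ≠ {1}}

end Pool.Agent.W_MP_7610c5_al
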