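import Pool.Agent.W_MP_7610c5_al.Defs

open MonoidAlgebra

namespace Pool.Agent.W_MP_7610c5_al

section aug

variable {k G : Type*} [CommRing k] [Group G]

@[simp] lemma augHom_of (g : G) : augHom k G (of k G g) = 1 := by simp [augHom]

lemma of_sub_one_mem (g : G) : of k G g - 1 ∈ augIdeal k G := by
  rw [augIdeal, RingHom.mem_ker, map_sub, augHom_of, map_one, sub_self]

instance augIdeal_two : (augIdeal k G).IsTwoSided := by unfold augIdeal; infer_instance

variable (k)

/-- the product `(u₁ - 1) ⋯ (u_m - 1)` -/
noncomputable def pl (l : List G) : MonoidAlgebra k G := (l.map fun g => of k G g - 1).prod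

lemma pl_nil : pl k ([] : List G) = 1 := rfl

lemma pl_cons (u : G) (l : List G) : pl k (u :: l) = (of k G u - 1) * pl k l := by
  simp [pl]

lemma pl_append (l l' : List G) : pl k (l ++ l') = pl k l * pl k l' := by
  simp [pl]

variable {k}

lemma pl_mem (l : List G) : pl k l ∈ augIdeal k G ^ l.length := by
  induction l with
  | nil => rw [List.length_nil, Submodule.pow_zero, Ideal.one_eq_top]; trivial
  | cons u l ih =>
    rw [pl_cons, List.length_cons, Ideal.IsTwoSided.pow_succ]
    exact Ideal.mul_mem_mul (of_sub_one_mem u) ih

lemma mem_span_of (x : MonoidAlgebra k G) : x ∈ Submodule.span k (Set.range (of k G)) := by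
  induction x using MonoidAlgebra.induction_linear with
  | zero => exact zero_mem _
  | add x y hx hy => exact add_mem hx hy
  | single g r =>
    rw [← smul_of]
    exact Submodule.smul_mem _ _ (Submodule.subset_span ⟨g, rfl⟩)

lemma augIdeal_span {x : MonoidAlgebra k G} (hx : x ∈ augIdeal k G) :
    x ∈ Submodule.span k (Set.range fun g : G => of k G g - 1) := by
  have key : ∀ y : MonoidAlgebra k G, y - algebraMap k _ (augHom k G y) ∈
      Submodule.span k (Set.range fun g : G => of k G g - 1) := by
    intro y
    induction y using MonoidAlgebra.induction_linear with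
    | zero => simp
    | add x y hx hy =>
      have := add_mem hx hy
      rw [map_add, map_add]
      convert this using 1
      abel
    | single g r =>
      rw [← smul_of, map_smul, augHom_of, smul_eq_mul, mul_one, Algebra.algebraMap_eq_smul_one,
        ← smul_sub]
      exact Submodule.smul_mem _ _ (Submodule.subset_span ⟨g, rfl⟩)
  have := key x
  rw [augIdeal, RingHom.mem_ker] at hx
  rwa [hx, map_zero, sub_zero] at this

/-- the powers of the augmentation ideal are spanned by the products `g (u₁ - 1) ⋯ (u_m - 1)` -/
lemma augIdeal_pow_span (m : ℕ) {x : MonoidAlgebra k G} (hx : x ∈ augIdeal k G ^ m) :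
    x ∈ Submodule.span k {y | ∃ (g : G) (l : List G), l.length = m ∧ y = of k G g * pl k l} := by
  induction m generalizing x with
  | zero =>
    refine Submodule.span_mono ?_ (mem_span_of x)
    rintro _ ⟨g, rfl⟩
    exact ⟨g, [], rfl, by rw [pl_nil, mul_one]⟩
  | succ m ih =>
    rw [Ideal.IsTwoSided.pow_succ] at hx
    refine Submodule.mul_induction_on hx ?_ ?_
    · intro a ha b hb
      have ha' := augIdeal_span ha
      have hb' := ih hb
      clear ha hb hx ih
      induction hb' using Submodule.span_induction with
      | zero => rw [mul_zero]; exact zero_mem _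
      | add b c _ _ hb hc => rw [mul_add]; exact add_mem hb hc
      | smul r b _ hb => rw [mul_smul_comm]; exact Submodule.smul_mem _ _ hb
      | mem b hb =>
        obtain ⟨g, l, hl, rfl⟩ := hb
        induction ha' using Submodule.span_induction with
        | zero => rw [zero_mul]; exact zero_mem _
        | add b c _ _ hb hc => rw [add_mul]; exact add_mem hb hc
        | smul r b _ hb => rw [smul_mul_assoc]; exact Submodule.smul_mem _ _ hb
        | mem a ha =>
          obtain ⟨u, rfl⟩ := ha
          refine Submodule.subset_span ⟨g, (g⁻¹ * u * g) :: l, by simp [hl], ?_⟩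
          have e : g * (g⁻¹ * u * g) = u * g := by group
          rw [pl_cons, ← mul_assoc, ← mul_assoc, mul_sub, sub_mul, ← map_mul, ← map_mul, e,
            one_mul, mul_one]
    · intro x y hx hy; exact add_mem hx hy

end aug

section diff

variable {G A : Type*} [Group G] [AddCommGroup A]

/-- the difference operator -/
def diff (u : G) (f : G → A) : G → A := fun x => f (x * u) - f x

/-- iterated differences -/
def diffs (l : List G) (f : G → A) : G → A := l.foldr diff f

@[simp] lemma diffs_nil (f : G → A) : diffs [] f = f := rfl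

lemma diffs_cons (u : G) (l : List G) (f : G → A) : diffs (u :: l) f = diff u (diffs l f) := rfl

lemma diffs_append (l l' : List G) (f : G → A) : diffs (l ++ l') f = diffs l (diffs l' f) := by
  simp [diffs, List.foldr_append]

lemma diff_apply (u : G) (f : G → A) (x : G) : diff u f x = f (x * u) - f x := rfl

lemma diff_add (u : G) (f g : G → A) : diff u (f + g) = diff u f + diff u g := by
  funext x; simp only [diff, Pi.add_apply]; abel

lemma diff_zero (u : G) : diff u (0 : G → A) = 0 := by
  funext x; simp [diff]

lemma diff_neg (u : G) (f : G → A) : diff u (-f) = - diff u f := by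
  funext x; simp only [diff, Pi.neg_apply]; abel

lemma diffs_add (l : List G) (f g : G → A) : diffs l (f + g) = diffs l f + diffs l g := by
  induction l with
  | nil => rfl
  | cons u l ih => rw [diffs_cons, diffs_cons, diffs_cons, ih, diff_add]

lemma diffs_zero (l : List G) : diffs l (0 : G → A) = 0 := by
  induction l with
  | nil => rfl
  | cons u l ih => rw [diffs_cons, ih, diff_zero]

lemma diffs_neg (l : List G) (f : G → A) : diffs l (-f) = - diffs l f := by
  induction l with
  | nil => rfl
  | cons u l ih => rw [diffs_cons, diffs_cons, ih, diff_neg]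

lemma diffs_sub (l : List G) (f g : G → A) : diffs l (f - g) = diffs l f - diffs l g := by
  rw [sub_eq_add_neg, diffs_add, diffs_neg, ← sub_eq_add_neg]

lemma diff_const (u : G) (c : A) : diff u (fun _ => c) = 0 := by
  funext x; simp [diff]

lemma diff_comp {B : Type*} [AddCommGroup B] (φ : A →+ B) (u : G) (f : G → A) :
    diff u (fun x => φ (f x)) = fun x => φ (diff u f x) := by
  funext x; simp [diff]

lemma diffs_comp {B : Type*} [AddCommGroup B] (φ : A →+ B) (l : List G) (f : G → A) :
    diffs l (fun x => φ (f x)) = fun x => φ (diffs l f x) := by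
  induction l with
  | nil => rfl
  | cons u l ih => rw [diffs_cons, ih, diff_comp]; rfl

lemma diff_pull {H : Type*} [Group H] (π : H →* G) (u : H) (f : G → A) :
    diff u (fun x => f (π x)) = fun x => diff (π u) f (π x) := by
  funext x; simp [diff]

lemma diffs_pull {H : Type*} [Group H] (π : H →* G) (l : List H) (f : G → A) :
    diffs l (fun x => f (π x)) = fun x => diffs (l.map π) f (π x) := by
  induction l with
  | nil => rfl
  | cons u l ih => rw [diffs_cons, ih, diff_pull]; rfl

/-- degree at most `d` -/
def Deg (d : ℕ) (f : G → A) : Prop := ∀ l : List G, d < l.length → diffs l f = 0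

lemma Deg.mono {d e : ℕ} {f : G → A} (h : Deg d f) (hde : d ≤ e) : Deg e f :=
  fun l hl => h l (lt_of_le_of_lt hde hl)

lemma Deg.of_length {d : ℕ} {f : G → A} (h : ∀ l : List G, l.length = d + 1 → diffs l f = 0) :
    Deg d f := by
  intro l hl
  have e : l = l.take (l.length - (d + 1)) ++ l.drop (l.length - (d + 1)) :=
    (List.take_append_drop _ _).symm
  rw [e, diffs_append, h _ (by rw [List.length_drop]; omega), diffs_zero]

lemma Deg.add {d : ℕ} {f g : G → A} (hf : Deg d f) (hg : Deg d g) : Deg d (f + g) := by
  intro l hl; rw [diffs_add, hf l hl, hg l hl, add_zero]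

lemma Deg.neg {d : ℕ} {f : G → A} (hf : Deg d f) : Deg d (-f) := by
  intro l hl; rw [diffs_neg, hf l hl, neg_zero]

lemma Deg.sub {d : ℕ} {f g : G → A} (hf : Deg d f) (hg : Deg d g) : Deg d (f - g) := by
  intro l hl; rw [diffs_sub, hf l hl, hg l hl, sub_zero]

lemma Deg.zero (d : ℕ) : Deg d (0 : G → A) := fun l _ => diffs_zero l

lemma Deg.sum {ι : Type*} (s : Finset ι) {d : ℕ} {f : ι → G → A} (hf : ∀ i ∈ s, Deg d (f i)) :
    Deg d (∑ i ∈ s, f i) := by
  classical
  induction s using Finset.induction_on with
  | empty => rw [Finset.sum_empty]; exact Deg.zero d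
  | insert a s ha ih =>
    rw [Finset.sum_insert ha]
    exact (hf a (Finset.mem_insert_self _ _)).add
      (ih fun i hi => hf i (Finset.mem_insert_of_mem hi))

lemma Deg.const (c : A) : Deg 0 (fun _ : G => c) := by
  intro l hl
  obtain ⟨l', u, rfl⟩ : ∃ l' u, l = l' ++ [u] := by
    rcases List.eq_nil_or_concat l with h | ⟨l', u, h⟩
    · rw [h] at hl; simp at hl
    · exact ⟨l', u, by rw [h, List.concat_eq_append]⟩
  rw [diffs_append, diffs_cons, diffs_nil, diff_const]
  exact diffs_zero l'

lemma Deg.comp {B : Type*} [AddCommGroup B] (φ : A →+ B) {d : ℕ} {f : G → A} (hf : Deg d f) :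
    Deg d (fun x => φ (f x)) := by
  intro l hl; rw [diffs_comp, hf l hl]; funext x; simp

lemma Deg.diff {d : ℕ} {f : G → A} (hf : Deg (d + 1) f) (u : G) : Deg d (diff u f) := by
  intro l hl
  have : diffs l (Pool.Agent.W_MP_7610c5_al.diff u f) = diffs (l ++ [u]) f := by
    rw [diffs_append]; rfl
  rw [this]
  exact hf _ (by rw [List.length_append]; simp; omega)

lemma Deg.pull {H : Type*} [Group H] (π : H →* G) {d : ℕ} {f : G → A} (hf : Deg d f) :
    Deg d (fun x => f (π x)) := by
  intro l hl; rw [diffs_pull, hf _ (by rw [List.length_map]; exact hl)]; rfl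

lemma Deg.of_pull {H : Type*} [Group H] {π : H →* G} (hπ : Function.Surjective π) {d : ℕ}
    {f : G → A} (hf : Deg d (fun x => f (π x))) : Deg d f := by
  intro l hl
  obtain ⟨l', rfl⟩ : ∃ l', List.map π l' = l := List.map_surjective_iff.2 hπ l
  have h := hf l' (by rw [List.length_map] at hl; exact hl)
  rw [diffs_pull] at h
  funext y
  obtain ⟨x, rfl⟩ := hπ y
  exact congrFun h x

end diff

section ext

variable {k G A : Type*} [CommRing k] [Group G] [AddCommGroup A] [Module k A]

/-- linear extension of a function to the group ring -/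
noncomputable def lext (k : Type*) {G A : Type*} [CommRing k] [Group G] [AddCommGroup A]
    [Module k A] (f : G → A) : MonoidAlgebra k G →ₗ[k] A :=
  (Finsupp.linearCombination k f).comp (MonoidAlgebra.coeffLinearEquiv k).toLinearMap

@[simp] lemma lext_of (f : G → A) (g : G) : lext k f (of k G g) = f g := by
  simp [lext, MonoidAlgebra.coeffLinearEquiv, MonoidAlgebra.of]

lemma lext_pl (f : G → A) (g : G) (l : List G) :
    lext k f (of k G g * pl k l) = diffs l f g := by
  induction l generalizing g with
  | nil => rw [pl_nil, mul_one, lext_of]; rfl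
  | cons u l ih =>
    rw [pl_cons, diffs_cons, diff_apply, ← mul_assoc, mul_sub, mul_one, sub_mul, ← map_mul,
      map_sub, ih, ih]

/-- functions of degree less than `m` kill the `m`-th power of the augmentation ideal -/
lemma lext_eq_zero {m : ℕ} {f : G → A} (hf : ∀ l : List G, l.length = m → diffs l f = 0)
    {x : MonoidAlgebra k G} (hx : x ∈ augIdeal k G ^ m) : lext k f x = 0 := by
  have := augIdeal_pow_span m hx
  clear hx
  induction this using Submodule.span_induction with
  | zero => simp
  | add b c _ _ hb hc => rw [map_add, hb, hc, add_zero]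
  | smul r b _ hb => rw [map_smul, hb, smul_zero]
  | mem b hb =>
    obtain ⟨g, l, hl, rfl⟩ := hb
    rw [lext_pl, hf l hl]; rfl

/-- the basic detection principle -/
lemma eq_of_mem_dimSet {m : ℕ} {B : Type*} [AddCommGroup B] {f : G → B}
    (hf : ∀ l : List G, l.length = m → diffs l f = 0) {g : G} (hg : g ∈ dimSet G m) :
    f g = f 1 := by
  have h := lext_eq_zero (k := ℤ) hf hg
  rw [map_sub, lext_of] at h
  have h1 : lext ℤ f (1 : MonoidAlgebra ℤ G) = f 1 := by
    rw [← map_one (of ℤ G), lext_of]
  rw [h1] at h
  exact sub_eq_zero.1 h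

end ext

section map

variable {G H : Type*} [Group G] [Group H]

lemma map_aug_pow (k : Type*) [CommRing k] (φ : G →* H) (m : ℕ) {x : MonoidAlgebra k G}
    (hx : x ∈ augIdeal k G ^ m) : mapDomainAlgHom k k φ x ∈ augIdeal k H ^ m := by
  have := augIdeal_pow_span m hx
  clear hx
  induction this using Submodule.span_induction with
  | zero => simp
  | add b c _ _ hb hc => rw [map_add]; exact add_mem hb hc
  | smul r b _ hb =>
    rw [map_smul, Algebra.smul_def]
    exact Ideal.mul_mem_left _ _ hb
  | mem b hb =>
    obtain ⟨g, l, hl, rfl⟩ := hb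
    have e : mapDomainAlgHom k k φ (of k G g * pl k l) = of k H (φ g) * pl k (l.map φ) := by
      rw [map_mul]
      congr 1
      · simp
      · clear hl
        induction l with
        | nil => simp [pl]
        | cons u l ih =>
          rw [pl_cons, map_mul, ih, List.map_cons, pl_cons, map_sub, map_one]
          congr 2
          simp
    rw [e]
    apply Ideal.mul_mem_left
    have := pl_mem (k := k) (l.map φ)
    rwa [List.length_map, hl] at this

lemma dimSet_map (φ : G →* H) {m : ℕ} {g : G} (hg : g ∈ dimSet G m) : φ g ∈ dimSet H m := by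
  have := map_aug_pow ℤ φ m hg
  rw [map_sub, map_one] at this
  have e : mapDomainAlgHom ℤ ℤ φ (of ℤ G g) = of ℤ H (φ g) := by simp
  rw [e] at this
  exact this

lemma aug_pow_anti {k : Type*} [CommRing k] {m n : ℕ} (h : m ≤ n) :
    augIdeal k G ^ n ≤ augIdeal k G ^ m := by
  intro x hx
  have := augIdeal_pow_span n hx
  clear hx
  induction this using Submodule.span_induction with
  | zero => exact zero_mem _
  | add b c _ _ hb hc => exact add_mem hb hc
  | smul r b _ hb => rw [Algebra.smul_def]; exact Ideal.mul_mem_left _ _ hb
  | mem b hb =>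
    obtain ⟨g, l, hl, rfl⟩ := hb
    have e : l = l.take (l.length - m) ++ l.drop (l.length - m) :=
      (List.take_append_drop _ _).symm
    have hlen : (l.drop (l.length - m)).length = m := by rw [List.length_drop]; omega
    rw [e, pl_append, ← mul_assoc]
    apply Ideal.mul_mem_left
    have := pl_mem (k := k) (l.drop (l.length - m))
    rwa [hlen] at this

lemma dimSet_anti {m n : ℕ} (h : m ≤ n) : dimSet G n ⊆ dimSet G m :=
  fun _ hg => aug_pow_anti h hg

end map

end Pool.Agent.W_MP_7610c5_al
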