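import Mathlib

open Polynomial

namespace Pool.Agent.W_MP_7610c5_al

/-- the integer valued function `(t - t ^ p ^ a) / p` -/
def phiQ (p a : ℕ) (t : ℤ) : ℤ := (t - t ^ p ^ a) / p

lemma phiQ_mul (p a : ℕ) (hp : p.Prime) (t : ℤ) : (p : ℤ) * phiQ p a t = t - t ^ p ^ a := by
  have : (p : ℤ) ∣ t - t ^ p ^ a := by
    have := Fact.mk hp
    rw [← ZMod.intCast_zmod_eq_zero_iff_dvd]
    push_cast
    rw [ZMod.pow_card_pow, sub_self]
  exact Int.mul_ediv_cancel' this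

lemma pow_p_sub (p k : ℕ) (hk : 1 ≤ k) (x y : ℤ) (h : (p : ℤ) ^ k ∣ x - y) :
    (p : ℤ) ^ (k + 1) ∣ x ^ p - y ^ p := by
  obtain ⟨z, hz⟩ := h
  have hx : x = y + (p : ℤ) ^ k * z := by linarith
  obtain ⟨c, hc⟩ := Polynomial.powAddExpansion y ((p : ℤ) ^ k * z) p
  rw [hx, hc]
  obtain ⟨m, rfl⟩ : ∃ m, k = m + 1 := ⟨k - 1, by omega⟩
  refine ⟨y ^ (p - 1) * z + c * (p : ℤ) ^ m * z ^ 2, ?_⟩
  ring

lemma pow_pow_sub (p k : ℕ) (hk : 1 ≤ k) (x y : ℤ) (h : (p : ℤ) ^ k ∣ x - y) (a : ℕ) :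
    (p : ℤ) ^ (k + a) ∣ x ^ p ^ a - y ^ p ^ a := by
  induction a with
  | zero => simpa using h
  | succ a ih =>
    rw [pow_succ p a, pow_mul, pow_mul]
    exact pow_p_sub p (k + a) (by omega) _ _ ih

lemma phiQ_step (p a k : ℕ) (hp : p.Prime) (s u : ℤ) :
    (p : ℤ) ^ (k + a) ∣ phiQ p a (s + (p : ℤ) ^ (k + 1) * u) - (phiQ p a s + (p : ℤ) ^ k * u) := by
  have h1 := pow_pow_sub p (k + 1) (by omega) (s + (p : ℤ) ^ (k + 1) * u) s
    ⟨u, by ring⟩ a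
  obtain ⟨w, hw⟩ := h1
  refine ⟨-w, ?_⟩
  have hp0 : (p : ℤ) ≠ 0 := by exact_mod_cast hp.ne_zero
  apply mul_left_cancel₀ hp0
  rw [mul_sub, mul_add, phiQ_mul p a hp, phiQ_mul p a hp]
  have : (p : ℤ) ^ (k + 1 + a) = p * (p : ℤ) ^ (k + a) := by ring
  rw [this] at hw
  have h2 : (p : ℤ) ^ (k + 1) = p * (p : ℤ) ^ k := by ring
  rw [h2] at hw ⊢
  linear_combination -hw

lemma phiQ_iter (p a : ℕ) (hp : p.Prime) (t u : ℤ) (k : ℕ) (hk : a ≤ k) (i : ℕ) (hi : i ≤ a) :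
    (p : ℤ) ^ (k - i + a) ∣
      (phiQ p a)^[i] (t + (p : ℤ) ^ k * u) - ((phiQ p a)^[i] t + (p : ℤ) ^ (k - i) * u) := by
  induction i with
  | zero => simp
  | succ i ih =>
    obtain ⟨w, hw⟩ := ih (by omega)
    rw [Function.iterate_succ_apply', Function.iterate_succ_apply']
    obtain ⟨m, hm⟩ : ∃ m, k - i = m + 1 := ⟨k - i - 1, by omega⟩
    have hm' : k - (i + 1) = m := by omega
    rw [hm] at hw
    rw [hm']
    have h1 : (phiQ p a)^[i] (t + (p : ℤ) ^ k * u) =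
        (phiQ p a)^[i] t + (p : ℤ) ^ (m + 1) * (u + (p : ℤ) ^ a * w) := by
      have : (p : ℤ) ^ (m + 1 + a) = (p : ℤ) ^ (m + 1) * (p : ℤ) ^ a := by ring
      rw [this] at hw
      linear_combination hw
    rw [h1]
    obtain ⟨v, hv⟩ := phiQ_step p a m hp ((phiQ p a)^[i] t) (u + (p : ℤ) ^ a * w)
    refine ⟨v + w, ?_⟩
    have h3 : (p : ℤ) ^ (m + a) = (p : ℤ) ^ m * (p : ℤ) ^ a := by ring
    rw [h3] at hv ⊢
    linear_combination hv

theorem exists_Q (p a : ℕ) (hp : p.Prime) : ∃ (Q : Polynomial ℚ) (q : ℤ → ℤ),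
    (∀ t : ℤ, ((q t : ℤ) : ℚ) = Q.eval (t : ℚ)) ∧ q 0 = 0 ∧ (∀ t, (p : ℤ) ^ a ∣ q t - t) ∧
    ∀ (t u : ℤ) (k : ℕ), a ≤ k → (p : ℤ) ^ (k + a) ∣ q (t + p ^ k * u) - q t := by
  have hp0 : (p : ℚ) ≠ 0 := by exact_mod_cast hp.ne_zero
  set Φ : Polynomial ℚ := C (1 / (p : ℚ)) * (X - X ^ p ^ a) with hΦ
  have hev : ∀ t : ℤ, ((phiQ p a t : ℤ) : ℚ) = Φ.eval (t : ℚ) := by
    intro t
    have h := phiQ_mul p a hp t
    have h' : (p : ℚ) * (phiQ p a t : ℚ) = (t : ℚ) - (t : ℚ) ^ p ^ a := by exact_mod_cast h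
    rw [hΦ]
    simp only [eval_mul, eval_C, eval_sub, eval_X, eval_pow]
    rw [← h']
    field_simp
  have hiter : ∀ (i : ℕ) (t : ℤ), (((phiQ p a)^[i] t : ℤ) : ℚ) =
      (((fun g : Polynomial ℚ => Φ.comp g)^[i]) X).eval (t : ℚ) := by
    intro i t
    induction i with
    | zero => simp
    | succ i ih =>
      rw [Function.iterate_succ_apply', Function.iterate_succ_apply', hev, eval_comp, ih]
  refine ⟨X - C ((p : ℚ) ^ a) * ((fun g : Polynomial ℚ => Φ.comp g)^[a]) X,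
    fun t => t - (p : ℤ) ^ a * (phiQ p a)^[a] t, ?_, ?_, ?_, ?_⟩
  · intro t
    simp only [eval_sub, eval_X, eval_mul, eval_C]
    push_cast
    rw [hiter]
  · have h0 : phiQ p a 0 = 0 := by
      have hpa : p ^ a ≠ 0 := pow_ne_zero _ hp.ne_zero
      rw [phiQ, zero_pow hpa, sub_zero, Int.zero_ediv]
    have : ∀ i, (phiQ p a)^[i] 0 = 0 := fun i => by
      induction i with
      | zero => rfl
      | succ i ih => rw [Function.iterate_succ_apply', ih, h0]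
    simp [this]
  · intro t
    exact ⟨-(phiQ p a)^[a] t, by ring⟩
  · intro t u k hk
    obtain ⟨w, hw⟩ := phiQ_iter p a hp t u k hk a le_rfl
    refine ⟨-w, ?_⟩
    have h1 : k - a + a = k := by omega
    rw [h1] at hw
    have h2 : (p : ℤ) ^ a * (p : ℤ) ^ (k - a) = (p : ℤ) ^ k := by
      rw [← pow_add]; congr 1; omega
    have h3 : (p : ℤ) ^ (k + a) = (p : ℤ) ^ a * (p : ℤ) ^ k := by ring
    rw [h3]
    linear_combination (-(p : ℤ) ^ a) * hw - u * h2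

end Pool.Agent.W_MP_7610c5_al
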