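import Mathlib

namespace Pool.Agent.W_MP_7610c5_al

theorem adapted {M : Type*} [AddCommGroup M] [Module.Finite ℤ M] [Module.Free ℤ M]
    (J : AddSubgroup M) (p a K : ℕ) (hp : p.Prime) (h1 : ∀ z ∈ J, ∃ y, z = p ^ a • y)
    (h2 : ∀ y : M, p ^ K • y ∈ J) :
    ∃ (ι : Type) (_ : Fintype ι) (e : Module.Basis ι ℤ M) (k : ι → ℕ), (∀ i, a ≤ k i) ∧
      ∀ z, z ∈ J ↔ ∀ i, (p : ℤ) ^ k i ∣ e.repr z i := by
  classical
  obtain ⟨n, snf⟩ := Submodule.smithNormalForm (Module.finBasis ℤ M) (AddSubgroup.toIntSubmodule J)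
  have mem2 : ∀ y : M, ((p : ℤ) ^ K) • y ∈ AddSubgroup.toIntSubmodule J := by
    intro y
    have := h2 y
    rw [← natCast_zsmul] at this
    push_cast at this
    exact this
  -- the embedding is onto
  have hsurj : ∀ i, ∃ j, snf.f j = i := by
    intro i
    by_contra hi
    have hi' : i ∉ Set.range snf.f := by
      rintro ⟨j, hj⟩
      exact hi ⟨j, hj⟩
    have := snf.repr_eq_zero_of_notMem_range ⟨_, mem2 (snf.bM i)⟩ hi'
    simp [hp.ne_zero] at this
  have hrep : ∀ (z : M) (hz : z ∈ AddSubgroup.toIntSubmodule J) (j : Fin n),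
      snf.bM.repr z (snf.f j) = snf.a j * snf.bN.repr ⟨z, hz⟩ j := by
    intro z hz j
    have := snf.repr_apply_embedding_eq_repr_smul ⟨z, hz⟩ (i := j)
    rw [map_smul] at this
    simpa using this
  -- each coefficient is a power of p up to sign
  have hak : ∀ j, ∃ k : ℕ, (snf.a j).natAbs = p ^ k := by
    intro j
    have h := hrep _ (mem2 (snf.bM (snf.f j))) j
    rw [map_smul, Finsupp.smul_apply, Module.Basis.repr_self, Finsupp.single_eq_same,
      smul_eq_mul, mul_one] at h
    have hd : snf.a j ∣ (p : ℤ) ^ K := ⟨_, h⟩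
    have hd' : (snf.a j).natAbs ∣ p ^ K := by
      have := Int.natAbs_dvd_natAbs.mpr hd
      simpa [Int.natAbs_pow] using this
    obtain ⟨k, -, hk⟩ := (Nat.dvd_prime_pow hp).1 hd'
    exact ⟨k, hk⟩
  choose k hk using hak
  have hle : ∀ j, a ≤ k j := by
    intro j
    obtain ⟨y, hy⟩ := h1 (snf.bN j : M) (snf.bN j).2
    have h := congrArg (fun z => snf.bM.repr z (snf.f j)) hy
    simp only [snf.snf] at h
    rw [← natCast_zsmul, map_smul, map_smul, Finsupp.smul_apply, Finsupp.smul_apply,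
      Module.Basis.repr_self, Finsupp.single_eq_same, smul_eq_mul, smul_eq_mul, mul_one] at h
    have hd : (p : ℤ) ^ a ∣ snf.a j := ⟨_, by rw [h]; push_cast; rfl⟩
    have hd' : p ^ a ∣ (snf.a j).natAbs := by
      have := Int.natAbs_dvd_natAbs.mpr hd
      simpa [Int.natAbs_pow] using this
    rw [hk j] at hd'
    exact (Nat.pow_dvd_pow_iff_le_right hp.one_lt).1 hd'
  choose g hg using hsurj
  refine ⟨Fin (Module.finrank ℤ M), inferInstance, snf.bM, fun i => k (g i),
    fun i => hle _, fun z => ⟨fun hz i => ?_, fun hz => ?_⟩⟩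
  · have h := hrep z hz (g i)
    rw [hg i] at h
    rw [h]
    have : ((p : ℤ) ^ k (g i)) ∣ snf.a (g i) := by
      rw [← Int.dvd_natAbs, hk (g i)]
      push_cast
      exact dvd_rfl
    exact this.mul_right _
  · have hz' : z ∈ AddSubgroup.toIntSubmodule J := by
      rw [← snf.bM.sum_repr z]
      refine Submodule.sum_mem _ fun i _ => ?_
      have h3 : snf.a (g i) ∣ snf.bM.repr z i := by
        refine dvd_trans ?_ (hz i)
        rw [← Int.natAbs_dvd, hk (g i)]
        push_cast
        exact dvd_rfl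
      obtain ⟨c, hc⟩ := h3
      rw [hc, mul_comm, mul_smul]
      refine Submodule.smul_mem _ _ ?_
      have h4 := snf.snf (g i)
      rw [hg i] at h4
      rw [← h4]
      exact (snf.bN (g i)).2
    exact hz'

end Pool.Agent.W_MP_7610c5_al
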