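import Pool.Agent.W_MP_7610c5_al.Setup
import Pool.Agent.W_MP_7610c5_al.QPoly
import Pool.Agent.W_MP_7610c5_al.Smith

open MonoidAlgebra

namespace Pool.Agent.W_MP_7610c5_al

section general

variable {G A : Type*} [Group G] [AddCommGroup A]

lemma Deg.of_inj {B : Type*} [AddCommGroup B] (φ : A →+ B) (hφ : Function.Injective φ) {d : ℕ}
    {f : G → A} (hf : Deg d (fun x => φ (f x))) : Deg d f := by
  intro l hl
  have h := hf l hl
  rw [diffs_comp] at h
  funext x
  have := congrFun h x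
  simp only [Pi.zero_apply] at this ⊢
  exact hφ (by rw [this, map_zero])

lemma deg_eval (Q : Polynomial ℚ) {d : ℕ} {f : G → ℚ} (hf : Deg d f) :
    Deg (Q.natDegree * d) (fun x => Q.eval (f x)) := by
  have e : (fun x => Q.eval (f x)) =
      ∑ i ∈ Finset.range (Q.natDegree + 1), fun x => Q.coeff i * (f ^ i) x := by
    funext x
    rw [Polynomial.eval_eq_sum_range, Finset.sum_apply]
    rfl
  rw [e]
  refine Deg.sum _ fun i hi => ?_
  have h1 : Deg (i * d) (f ^ i) := hf.pow i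
  have h2 := (h1.comp (AddMonoidHom.mulLeft (Q.coeff i)))
  exact h2.mono (Nat.mul_le_mul_right d (Nat.lt_succ_iff.1 (Finset.mem_range.1 hi)))

end general

section inv

variable {T : Type*} [Ring T]

/-- the inverse of an element `b` with `(1 - b) ^ (n + 1) = 0` -/
def ginv (n : ℕ) (b : T) : T := ∑ k ∈ Finset.range (n + 1), (1 - b) ^ k

lemma ginv_mul {n : ℕ} {b : T} (h : (1 - b) ^ (n + 1) = 0) : ginv n b * b = 1 := by
  have h1 := geom_sum_mul (1 - b) (n + 1)
  rw [h, sub_sub_cancel_left, mul_neg, zero_sub, neg_inj] at h1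
  exact h1

lemma mul_ginv {n : ℕ} {b : T} (h : (1 - b) ^ (n + 1) = 0) : b * ginv n b = 1 := by
  have h1 := mul_geom_sum (1 - b) (n + 1)
  rw [h, sub_sub_cancel_left, neg_mul, zero_sub, neg_inj] at h1
  exact h1

lemma ginv_sub {n : ℕ} {b b' : T} (h : (1 - b) ^ (n + 1) = 0) (h' : (1 - b') ^ (n + 1) = 0) :
    ginv n b - ginv n b' = ginv n b * (b' - b) * ginv n b' := by
  rw [mul_sub, sub_mul, mul_assoc, mul_ginv h', mul_one, ginv_mul h, one_mul]

lemma ginv_one (n : ℕ) : ginv n (1 : T) = 1 := by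
  unfold ginv
  rw [Finset.sum_range_succ']
  simp

lemma one_add_pow_exists (u : T) (N : ℕ) : ∃ r : T, (1 + u) ^ N = 1 + N • u + u ^ 2 * r := by
  induction N with
  | zero => exact ⟨0, by simp⟩
  | succ N ih =>
    obtain ⟨r, hr⟩ := ih
    refine ⟨N • 1 + r * (1 + u), ?_⟩
    have e1 : u ^ 2 * (N • 1 + r * (1 + u)) = N • (u * u) + u ^ 2 * r * (1 + u) := by
      rw [mul_add, mul_smul_comm, mul_one, pow_two, mul_assoc (u * u)]
    rw [pow_succ, hr, e1, add_mul, add_mul, one_mul, smul_mul_assoc, mul_add u, mul_one, smul_add,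
      succ_nsmul]
    abel

end inv

section deep

variable {n : ℕ} {Γ T : Type*} [Group Γ] [Ring T]

lemma Setup.pow_eq_zero (s : Setup n Γ T) {u : T} (hu : u ∈ s.P) : u ^ (n + 1) = 0 := by
  have : ∀ k, u ^ k ∈ s.P ^ k := by
    intro k
    induction k with
    | zero => rw [pow_zero, Submodule.pow_zero, Ideal.one_eq_top]; trivial
    | succ k ih =>
      rw [pow_succ', Ideal.IsTwoSided.pow_succ]
      exact Ideal.mul_mem_mul hu ih
  have h := this (n + 1)
  rw [s.nil] at h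
  exact h

/-- the multiples `p ^ a • w` with `w ∈ J` -/
def Setup.pJ (s : Setup n Γ T) (S : Subgroup Γ) (c : ℕ) : AddSubgroup T :=
  (s.J S).map (nsmulAddMonoidHom c)

lemma Setup.mem_pJ (s : Setup n Γ T) (S : Subgroup Γ) (c : ℕ) {z : T} :
    z ∈ s.pJ S c ↔ ∃ w ∈ s.J S, c • w = z := by
  unfold Setup.pJ
  rw [AddSubgroup.mem_map]
  rfl

lemma Setup.mul_mem_pJ (s : Setup n Γ T) {S : Subgroup Γ} {c : ℕ} (t : T) {z : T}
    (hz : z ∈ s.pJ S c) : t * z ∈ s.pJ S c := by
  rw [s.mem_pJ] at hz ⊢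
  obtain ⟨w, hw, rfl⟩ := hz
  exact ⟨t * w, s.mul_mem_J t hw, by rw [mul_smul_comm]⟩

lemma Setup.pJ_mul_mem (s : Setup n Γ T) {S : Subgroup Γ} [S.Normal] {c : ℕ} (t : T) {z : T}
    (hz : z ∈ s.pJ S c) : z * t ∈ s.pJ S c := by
  rw [s.mem_pJ] at hz ⊢
  obtain ⟨w, hw, rfl⟩ := hz
  exact ⟨w * t, s.J_mul_mem t hw, by rw [smul_mul_assoc]⟩

lemma Setup.J_sub_pP (s : Setup n Γ T) (S : Subgroup Γ) (c : ℕ)
    (h : ∀ x ∈ S, ∃ y ∈ s.P, s.κ x - 1 = c • y) {z : T} (hz : z ∈ s.J S) :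
    ∃ y ∈ s.P, z = c • y := by
  unfold Setup.J at hz
  induction hz using AddSubgroup.closure_induction with
  | zero => exact ⟨0, zero_mem _, by rw [smul_zero]⟩
  | add a b _ _ ha hb =>
    obtain ⟨y, hy, rfl⟩ := ha
    obtain ⟨y', hy', rfl⟩ := hb
    exact ⟨y + y', add_mem hy hy', by rw [smul_add]⟩
  | neg a _ ha =>
    obtain ⟨y, hy, rfl⟩ := ha
    exact ⟨-y, neg_mem hy, by rw [smul_neg]⟩
  | mem b hb =>
    obtain ⟨x', y, hy, rfl⟩ := hb
    obtain ⟨y', hy', e⟩ := h y hy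
    exact ⟨s.κ x' * y', Ideal.mul_mem_left _ _ hy', by rw [e, mul_smul_comm]⟩

lemma Setup.smul_mem_J (s : Setup n Γ T) (S : Subgroup Γ) [S.Normal] (N : ℕ)
    (h : ∀ x : Γ, x ^ N ∈ S) {z : T} (hz : z ∈ s.P) : N ^ n • z ∈ s.J S := by
  have hz' := s.spanP z hz
  induction hz' using AddSubgroup.closure_induction with
  | zero => rw [smul_zero]; exact zero_mem _
  | add a b ha hb iha ihb =>
    rw [smul_add]
    refine add_mem (iha ?_) (ihb ?_)
    · have hle : AddSubgroup.closure (Set.range fun x => s.κ x - 1) ≤ s.P.toAddSubgroup := by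
        rw [AddSubgroup.closure_le]
        rintro _ ⟨x, rfl⟩
        exact s.memP x
      exact hle ha
    · have hle : AddSubgroup.closure (Set.range fun x => s.κ x - 1) ≤ s.P.toAddSubgroup := by
        rw [AddSubgroup.closure_le]
        rintro _ ⟨x, rfl⟩
        exact s.memP x
      exact hle hb
  | neg a ha iha =>
    rw [smul_neg]
    refine neg_mem (iha ?_)
    have := neg_mem hz
    rwa [neg_neg] at this
  | mem b hb =>
    obtain ⟨x, rfl⟩ := hb
    show N ^ n • (s.κ x - 1) ∈ s.J S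
    set u := s.κ x - 1 with hu
    have key : ∀ i, i ≤ n → N ^ i • u ^ (n + 1 - i) ∈ s.J S := by
      intro i
      induction i with
      | zero =>
        intro _
        rw [Nat.sub_zero, s.pow_eq_zero (s.memP x), smul_zero]
        exact zero_mem _
      | succ i ih =>
        intro hi
        have ih' := ih (by omega)
        obtain ⟨r, hr⟩ := one_add_pow_exists u N
        have h1 : (1 + u) ^ N - 1 ∈ s.J S := by
          have e : (1 + u) ^ N = s.κ (x ^ N) := by
            rw [hu, add_sub_cancel, map_pow]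
          rw [e]
          exact s.sub_one_mem_J (h x)
        rw [hr] at h1
        have h2 := s.mul_mem_J (u ^ (n - (i + 1))) h1
        have e1 : u ^ (n - (i + 1)) * (1 + N • u + u ^ 2 * r - 1) =
            N • u ^ (n + 1 - (i + 1)) + u ^ (n + 1 - i) * r := by
          have e2 : u ^ (n + 1 - (i + 1)) = u ^ (n - (i + 1)) * u := by
            rw [← pow_succ]; congr 1; omega
          have e3 : u ^ (n + 1 - i) = u ^ (n - (i + 1)) * u ^ 2 := by
            rw [← pow_add]; congr 1; omega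
          rw [e2, e3]
          noncomm_ring
        rw [e1] at h2
        have h3 := AddSubgroup.nsmul_mem _ h2 (N ^ i)
        have h4 := s.J_mul_mem r ih'
        have h5 := sub_mem h3 h4
        have e4 : N ^ i • (N • u ^ (n + 1 - (i + 1)) + u ^ (n + 1 - i) * r) -
            (N ^ i • u ^ (n + 1 - i)) * r = N ^ (i + 1) • u ^ (n + 1 - (i + 1)) := by
          rw [smul_add, smul_mul_assoc, add_sub_cancel_right, ← mul_smul, pow_succ]
        rwa [e4] at h5
    have := key n le_rfl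
    rwa [show n + 1 - n = 1 by omega, pow_one] at this

/-- the polynomial approximation of `κ` -/
lemma Setup.exists_approx [Module.Finite ℤ T] [Module.Free ℤ T] (s : Setup n Γ T)
    (p a : ℕ) (hp : p.Prime) (Q : Polynomial ℚ) (q : ℤ → ℤ)
    (hQ : ∀ t : ℤ, ((q t : ℤ) : ℚ) = Q.eval (t : ℚ)) (hq0 : q 0 = 0)
    (hqt : ∀ t, (p : ℤ) ^ a ∣ q t - t)
    (hqk : ∀ (t u : ℤ) (k : ℕ), a ≤ k → (p : ℤ) ^ (k + a) ∣ q (t + p ^ k * u) - q t)
    (S : Subgroup Γ) [S.Normal] (E : ℕ) (hE : ∀ x : Γ, x ^ p ^ E ∈ S)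
    (h2 : ∀ x ∈ S, ∃ y ∈ s.P, s.κ x - 1 = p ^ a • y) :
    ∃ r : Γ → T, (∀ x, r x - 1 ∈ s.P) ∧ (∀ x, ∃ y ∈ s.P, s.κ x - r x = p ^ a • y) ∧
      (∀ x x', s.κ x - s.κ x' ∈ s.J S → r x - r x' ∈ s.pJ S (p ^ a)) ∧ r 1 = 1 ∧
      Deg (Q.natDegree * n) r := by
  classical
  set M : Submodule ℤ T := s.P.restrictScalars ℤ with hM
  have hMfin : Module.Finite ℤ M := inferInstance
  have hMfree : Module.Free ℤ M := inferInstance
  set J' : AddSubgroup M := (s.J S).comap (M.subtype.toAddMonoidHom) with hJ'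
  have memJ' : ∀ z : M, z ∈ J' ↔ (z : T) ∈ s.J S := fun z => Iff.rfl
  obtain ⟨ι, hι, e, k, hk, hJ⟩ := adapted J' p a (E * n) hp
    (by
      intro z hz
      obtain ⟨y, hy, hzy⟩ := s.J_sub_pP S (p ^ a) h2 ((memJ' z).1 hz)
      exact ⟨⟨y, hy⟩, Subtype.ext hzy⟩)
    (by
      intro y
      rw [memJ', pow_mul]
      exact s.smul_mem_J S (p ^ E) hE y.2)
  set F : Γ → M := fun x => ⟨s.κ x - 1, s.memP x⟩ with hF
  have hrep : ∀ z : M, (z : T) = ∑ i, e.repr z i • (e i : T) := by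
    intro z
    have := e.sum_repr z
    have h := congrArg (fun z : M => (z : T)) this
    refine h.symm.trans ?_
    rw [Submodule.coe_sum]
    rfl
  set r : Γ → T := fun x => 1 + ∑ i, q (e.repr (F x) i) • (e i : T) with hr
  refine ⟨r, ?_, ?_, ?_, ?_, ?_⟩
  · intro x
    rw [hr]
    simp only
    rw [add_sub_cancel_left]
    exact Submodule.sum_mem M fun i _ => Submodule.smul_mem M _ (e i).2
  · intro x
    have hd : ∀ i, ∃ c : ℤ, e.repr (F x) i - q (e.repr (F x) i) = (p : ℤ) ^ a * c := by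
      intro i
      obtain ⟨c, hc⟩ := hqt (e.repr (F x) i)
      exact ⟨-c, by rw [mul_neg, ← hc]; ring⟩
    choose c hc using hd
    refine ⟨∑ i, c i • (e i : T), Submodule.sum_mem M fun i _ => Submodule.smul_mem M _ (e i).2,
      ?_⟩
    have h1 : s.κ x = 1 + ∑ i, e.repr (F x) i • (e i : T) := by
      rw [← hrep, hF]; simp
    rw [h1, hr]
    simp only
    rw [add_sub_add_left_eq_sub, ← Finset.sum_sub_distrib, Finset.smul_sum]
    refine Finset.sum_congr rfl fun i _ => ?_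
    rw [← sub_smul, hc, mul_smul, ← natCast_zsmul]
    push_cast
    rfl
  · intro x x' hxx
    have h1 : F x - F x' ∈ J' := by
      rw [memJ']
      have : ((F x - F x' : M) : T) = s.κ x - s.κ x' := by
        rw [hF]; simp
      rwa [this]
    have h2 := (hJ _).1 h1
    have hd : ∀ i, ∃ c : ℤ, q (e.repr (F x) i) - q (e.repr (F x') i) =
        (p : ℤ) ^ (k i + a) * c := by
      intro i
      obtain ⟨u, hu⟩ := h2 i
      rw [map_sub, Finsupp.sub_apply] at hu
      obtain ⟨c, hc⟩ := hqk (e.repr (F x') i) u (k i) (hk i)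
      refine ⟨c, ?_⟩
      rw [← hc, ← hu]
      congr 2
      ring
    choose c hc using hd
    rw [s.mem_pJ]
    refine ⟨((∑ i, ((p : ℤ) ^ k i * c i) • e i : M) : T), ?_, ?_⟩
    · rw [← memJ', hJ]
      intro i
      rw [map_sum, Finsupp.finsetSum_apply]
      refine Finset.dvd_sum fun j _ => ?_
      rw [map_smul, Finsupp.smul_apply, Module.Basis.repr_self, Finsupp.single_apply, smul_eq_mul]
      split_ifs with h
      · subst h
        rw [mul_one]
        exact dvd_mul_right _ _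
      · rw [mul_zero]; exact dvd_zero _
    · rw [hr]
      simp only
      rw [add_sub_add_left_eq_sub, ← Finset.sum_sub_distrib]
      rw [Submodule.coe_sum, Finset.smul_sum]
      refine Finset.sum_congr rfl fun i _ => ?_
      rw [← sub_smul, hc, Submodule.coe_smul, ← natCast_zsmul, ← mul_smul]
      congr 1
      push_cast
      ring
  · rw [hr]
    simp only
    have h0 : F 1 = 0 := by
      rw [hF]
      apply Subtype.ext
      simp
    rw [h0]
    simp [hq0]
  · have hFd : Deg n F := by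
      refine Deg.of_inj (M.subtype.toAddMonoidHom) M.injective_subtype ?_
      have h1 := s.deg_κ.sub ((Deg.const (1 : T)).mono (Nat.zero_le n))
      exact h1
    have hc : ∀ i, Deg (Q.natDegree * n) (fun x => q (e.repr (F x) i) • (e i : T)) := by
      intro i
      have h1 : Deg n (fun x => ((e.repr (F x) i : ℤ) : ℚ)) := by
        have h2 := hFd.comp ((Int.castAddHom ℚ).comp (e.coord i).toAddMonoidHom)
        exact h2
      have h2 := deg_eval Q h1
      have h3 : Deg (Q.natDegree * n) (fun x => q (e.repr (F x) i)) := by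
        refine Deg.of_inj (Int.castAddHom ℚ) (Int.cast_injective) ?_
        have e3 : (fun x => (Int.castAddHom ℚ) (q (e.repr (F x) i))) =
            fun x => Q.eval ((e.repr (F x) i : ℤ) : ℚ) := by
          funext x
          rw [← hQ]; rfl
        rw [e3]
        exact h2
      have h4 := h3.comp (zmultiplesHom T (e i : T))
      have e4 : (fun x => q (e.repr (F x) i) • (e i : T)) =
          fun x => (zmultiplesHom T (e i : T)) (q (e.repr (F x) i)) := by
        funext x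
        rw [zmultiplesHom_apply]
      rw [e4]
      exact h4
    have h5 := ((Deg.const (G := Γ) (1 : T)).mono (Nat.zero_le (Q.natDegree * n))).add
      (Deg.sum Finset.univ fun i _ => hc i)
    have e5 : r = (fun _ => (1 : T)) + ∑ i, fun x => q (e.repr (F x) i) • (e i : T) := by
      funext x
      rw [Pi.add_apply, Finset.sum_apply]
    rw [e5]
    exact h5

lemma Setup.deep_aux [Module.Finite ℤ T] [Module.Free ℤ T] (s : Setup n Γ T)
    (p a : ℕ) (hp : p.Prime) (Q : Polynomial ℚ) (q : ℤ → ℤ)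
    (hQ : ∀ t : ℤ, ((q t : ℤ) : ℚ) = Q.eval (t : ℚ)) (hq0 : q 0 = 0)
    (hqt : ∀ t, (p : ℤ) ^ a ∣ q t - t)
    (hqk : ∀ (t u : ℤ) (k : ℕ), a ≤ k → (p : ℤ) ^ (k + a) ∣ q (t + p ^ k * u) - q t)
    (S : Subgroup Γ) [S.Normal] (E : ℕ) (hE : ∀ x : Γ, x ^ p ^ E ∈ S)
    (h2 : ∀ x ∈ S, ∃ y ∈ s.P, s.κ x - 1 = p ^ a • y)
    (h3 : ∀ h : Γ, (∃ z ∈ s.J S, s.κ h - 1 = p ^ a • z) → h ∈ S)
    (w : Γ) (hw : (w : Γ ⧸ S) ∈ dimSet (Γ ⧸ S) (n * (Q.natDegree * n) + n + 1)) : w ∈ S := by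
  classical
  obtain ⟨r, r1, r2, r3, r4, r5⟩ := s.exists_approx p a hp Q q hQ hq0 hqt hqk S E hE h2
  -- nilpotency
  have hnil : ∀ x, (1 - r x) ^ (n + 1) = 0 := by
    intro x
    refine s.pow_eq_zero ?_
    have := neg_mem (r1 x)
    rwa [neg_sub] at this
  set ν : Γ → T := fun x => ginv n (r x) * s.κ x with hν
  -- degree of ν
  have hνd : Deg (n * (Q.natDegree * n) + n) ν := by
    have h1 : Deg (Q.natDegree * n) (1 - r) :=
      ((Deg.const (G := Γ) (1 : T)).mono (Nat.zero_le _)).sub r5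
    have h2 : Deg (n * (Q.natDegree * n)) (∑ k ∈ Finset.range (n + 1), (1 - r) ^ k) := by
      refine Deg.sum _ fun k hk => (h1.pow k).mono ?_
      exact Nat.mul_le_mul_right _ (Nat.lt_succ_iff.1 (Finset.mem_range.1 hk))
    have h3 := h2.mul s.deg_κ
    have e : ν = (∑ k ∈ Finset.range (n + 1), (1 - r) ^ k) * fun x => s.κ x := by
      funext x
      rw [Pi.mul_apply, Finset.sum_apply]
      rfl
    rw [e]
    exact h3
  -- ν x - 1 is divisible by p ^ a
  have hν1 : ∀ x, ∃ y ∈ s.P, ν x - 1 = p ^ a • y := by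
    intro x
    obtain ⟨y, hy, e⟩ := r2 x
    refine ⟨ginv n (r x) * y, Ideal.mul_mem_left _ _ hy, ?_⟩
    rw [← mul_smul_comm, ← e, mul_sub, ginv_mul (hnil x)]
  have hginv : ∀ x x', s.κ x - s.κ x' ∈ s.J S →
      ginv n (r x) - ginv n (r x') ∈ s.pJ S (p ^ a) := by
    intro x x' hxx
    rw [ginv_sub (hnil x) (hnil x')]
    refine s.pJ_mul_mem _ (s.mul_mem_pJ _ ?_)
    have := neg_mem (r3 x x' hxx)
    rwa [neg_sub] at this
  -- products
  have hmul : ∀ y ∈ s.P, ∀ t ∈ S, (p ^ a • y) * (s.κ t - 1) ∈ s.pJ S (p ^ a) := by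
    intro y _ t ht
    rw [s.mem_pJ]
    exact ⟨y * (s.κ t - 1), s.mul_mem_J y (s.sub_one_mem_J ht), by rw [smul_mul_assoc]⟩
  -- the subgroup
  let E' : AddSubgroup T :=
    { carrier := {z | ∃ t ∈ S, z - (s.κ t - 1) ∈ s.pJ S (p ^ a)}
      zero_mem' := ⟨1, S.one_mem, by rw [map_one, sub_self, sub_zero]; exact zero_mem _⟩
      add_mem' := by
        rintro z z' ⟨t, ht, hz⟩ ⟨t', ht', hz'⟩
        refine ⟨t * t', S.mul_mem ht ht', ?_⟩
        obtain ⟨y, hy, e⟩ := h2 t ht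
        have h4 := hmul y hy t' ht'
        rw [← e] at h4
        have h5 := sub_mem (add_mem hz hz') h4
        convert h5 using 1
        rw [map_mul]
        noncomm_ring
      neg_mem' := by
        rintro z ⟨t, ht, hz⟩
        refine ⟨t⁻¹, S.inv_mem ht, ?_⟩
        obtain ⟨y, hy, e⟩ := h2 t ht
        have h4 := hmul y hy t⁻¹ (S.inv_mem ht)
        rw [← e] at h4
        have h5 := add_mem (neg_mem hz) h4
        have e6 : s.κ t * s.κ t⁻¹ = 1 := s.κ_mul_inv t
        convert h5 using 1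
        rw [sub_mul, mul_sub, e6]
        noncomm_ring }
  have memE : ∀ z, z ∈ E' ↔ ∃ t ∈ S, z - (s.κ t - 1) ∈ s.pJ S (p ^ a) := fun z => Iff.rfl
  -- invariance
  have hinv : ∀ x, ∀ t ∈ S, ν (x * t) - ν x ∈ E' := by
    intro x t ht
    rw [memE]
    refine ⟨t, ht, ?_⟩
    have g1 : s.κ (x * t) - s.κ x ∈ s.J S := by
      have := s.mul_mem_J (s.κ x) (s.sub_one_mem_J ht)
      rwa [mul_sub, mul_one, ← map_mul] at this
    have g2 := s.pJ_mul_mem (s.κ (x * t)) (hginv _ _ g1)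
    obtain ⟨y, hy, e⟩ := hν1 x
    have g3 := hmul y hy t ht
    rw [← e] at g3
    have g4 := add_mem g2 g3
    convert g4 using 1
    rw [hν]
    simp only
    rw [map_mul]
    noncomm_ring
  -- the function on the quotient
  set ψ : Γ → T ⧸ E' := fun x => QuotientAddGroup.mk' E' (ν x) with hψ
  have hψd : Deg (n * (Q.natDegree * n) + n) ψ := hνd.comp (QuotientAddGroup.mk' E')
  have hψi : ∀ x y : Γ, (QuotientGroup.leftRel S) x y → ψ x = ψ y := by
    intro x y hxy
    rw [QuotientGroup.leftRel_apply] at hxy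
    have h4 := hinv x _ hxy
    rw [mul_inv_cancel_left] at h4
    rw [hψ]
    simp only [QuotientAddGroup.mk'_apply]
    rw [eq_comm, QuotientAddGroup.eq_iff_sub_mem]
    exact h4
  set ψ' : Γ ⧸ S → T ⧸ E' := Quotient.lift ψ hψi with hψ'
  have hψ'd : Deg (n * (Q.natDegree * n) + n) ψ' := by
    refine Deg.of_pull (QuotientGroup.mk'_surjective S) ?_
    exact hψd
  have key1 : ψ' (w : Γ ⧸ S) = ψ' 1 :=
    eq_of_mem_dimSet (fun l hl => hψ'd l (by omega)) hw
  -- the function modulo J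
  set φ : Γ → T ⧸ s.J S := fun x => QuotientAddGroup.mk' (s.J S) (s.κ x) with hφ
  have hφd : Deg n φ := s.deg_κ.comp (QuotientAddGroup.mk' (s.J S))
  have hφi : ∀ x y : Γ, (QuotientGroup.leftRel S) x y → φ x = φ y := by
    intro x y hxy
    rw [QuotientGroup.leftRel_apply] at hxy
    have h4 := s.mul_mem_J (s.κ x) (s.sub_one_mem_J hxy)
    rw [mul_sub, mul_one, ← map_mul, mul_inv_cancel_left] at h4
    rw [hφ]
    simp only [QuotientAddGroup.mk'_apply]
    rw [eq_comm, QuotientAddGroup.eq_iff_sub_mem]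
    exact h4
  set φ' : Γ ⧸ S → T ⧸ s.J S := Quotient.lift φ hφi with hφ'
  have hφ'd : Deg n φ' := by
    refine Deg.of_pull (QuotientGroup.mk'_surjective S) ?_
    exact hφd
  have key2 : φ' (w : Γ ⧸ S) = φ' 1 :=
    eq_of_mem_dimSet (fun l hl => hφ'd l (by omega)) hw
  have key3 : s.κ w - s.κ 1 ∈ s.J S := by
    have : φ w = φ 1 := key2
    rw [hφ] at this
    simp only [QuotientAddGroup.mk'_apply] at this
    rwa [QuotientAddGroup.eq_iff_sub_mem] at this
  have key4 : ν w - ν 1 ∈ E' := by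
    have : ψ w = ψ 1 := key1
    rw [hψ] at this
    simp only [QuotientAddGroup.mk'_apply] at this
    rwa [QuotientAddGroup.eq_iff_sub_mem] at this
  have hν_one : ν 1 = 1 := by
    rw [hν]
    simp only
    rw [r4, ginv_one, map_one, one_mul]
  rw [hν_one, memE] at key4
  obtain ⟨t, ht, g5⟩ := key4
  have g6 := s.pJ_mul_mem (s.κ w) (hginv _ _ key3)
  rw [r4, ginv_one, sub_mul, one_mul] at g6
  have g7 := sub_mem g5 g6
  have e7 : ν w - 1 - (s.κ t - 1) - (ginv n (r w) * s.κ w - s.κ w) = s.κ w - s.κ t := by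
    rw [hν]
    simp only
    abel
  rw [e7] at g7
  have g8 := s.mul_mem_pJ (s.κ t⁻¹) g7
  rw [mul_sub, s.κ_inv_mul, ← map_mul, s.mem_pJ] at g8
  obtain ⟨z, hz, e8⟩ := g8
  have g9 := h3 (t⁻¹ * w) ⟨z, hz, e8.symm⟩
  have := S.mul_mem ht g9
  rwa [mul_inv_cancel_left] at this

end deep

theorem deep (n p a : ℕ) (hp : p.Prime) : ∃ m₀ : ℕ, ∀ {Γ T : Type} [Group Γ] [Ring T]
    [Module.Finite ℤ T] [Module.Free ℤ T] (s : Setup n Γ T) (S : Subgroup Γ) [S.Normal] (E : ℕ),
    (∀ x : Γ, x ^ p ^ E ∈ S) → (∀ x ∈ S, ∃ y ∈ s.P, s.κ x - 1 = p ^ a • y) →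
    (∀ h : Γ, (∃ z ∈ s.J S, s.κ h - 1 = p ^ a • z) → h ∈ S) →
    ∀ w : Γ, (w : Γ ⧸ S) ∈ dimSet (Γ ⧸ S) m₀ → w ∈ S := by
  obtain ⟨Q, q, hQ, hq0, hqt, hqk⟩ := exists_Q p a hp
  refine ⟨n * (Q.natDegree * n) + n + 1, ?_⟩
  intro Γ T _ _ _ _ s S _ E hE h2 h3 w hw
  exact s.deep_aux p a hp Q q hQ hq0 hqt hqk S E hE h2 h3 w hw

end Pool.Agent.W_MP_7610c5_al
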