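import Pool.Agent.W_MP_7610c5_al.Aug

open MonoidAlgebra

namespace Pool.Agent.W_MP_7610c5_al

/-- On a cyclic `p`-group of order dividing `p ^ a` every function with values in an elementary
abelian `p`-group has degree less than `p ^ a`. -/
lemma deg_cyc (p a N : ℕ) (hp : p.Prime) (hN : N ∣ p ^ a) {A : Type*} [AddCommGroup A]
    (hA : ∀ x : A, p • x = 0) (f : Multiplicative (ZMod N) → A) : Deg (p ^ a) f := by
  have : Fact p.Prime := ⟨hp⟩
  have hN0 : N ≠ 0 := by
    rintro rfl
    exact (pow_ne_zero a hp.ne_zero) (zero_dvd_iff.1 hN)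
  have : NeZero N := ⟨hN0⟩
  letI : Module (ZMod p) A := AddCommGroup.zmodModule hA
  set g0 : Multiplicative (ZMod N) := Multiplicative.ofAdd 1 with hg0
  have hpow : ∀ u : Multiplicative (ZMod N), ∃ n : ℕ, u = g0 ^ n := by
    intro u
    refine ⟨(Multiplicative.toAdd u).val, ?_⟩
    rw [hg0, ← ofAdd_nsmul]
    simp
  have hg0N : g0 ^ (p ^ a) = 1 := by
    rw [hg0, ← ofAdd_nsmul]
    have : (p ^ a) • (1 : ZMod N) = 0 := by
      rw [nsmul_eq_mul, mul_one]
      exact (ZMod.natCast_eq_zero_iff _ _).2 hN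
    rw [this]; rfl
  have hdvd : ∀ l : List (Multiplicative (ZMod N)),
      (of (ZMod p) (Multiplicative (ZMod N)) g0 - 1) ^ l.length ∣ pl (ZMod p) l := by
    intro l
    induction l with
    | nil => simp [pl]
    | cons u l ih =>
      rw [pl_cons, List.length_cons, pow_succ']
      refine mul_dvd_mul ?_ ih
      obtain ⟨n, rfl⟩ := hpow u
      rw [map_pow]
      have := sub_dvd_pow_sub_pow (of (ZMod p) (Multiplicative (ZMod N)) g0) 1 n
      rwa [one_pow] at this
  have : CharP (MonoidAlgebra (ZMod p) (Multiplicative (ZMod N))) p :=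
    charP_of_injective_algebraMap (R := ZMod p)
      (FaithfulSMul.algebraMap_injective (ZMod p) _) p
  have hzero : (of (ZMod p) (Multiplicative (ZMod N)) g0 - 1) ^ (p ^ a) = 0 := by
    rw [sub_pow_char_pow, one_pow, ← map_pow, hg0N, map_one, sub_self]
  intro l hl
  funext g
  rw [← lext_pl (k := ZMod p)]
  have : pl (ZMod p) l = 0 := by
    obtain ⟨c, hc⟩ := hdvd l
    obtain ⟨d, hd⟩ := Nat.exists_eq_add_of_le hl.le
    rw [hc, hd, pow_add, hzero, zero_mul, zero_mul]
  rw [this, mul_zero]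
  exact LinearMap.map_zero _

/-- a translation equivariant projection on the `p`-torsion -/
lemma exists_sect (C : Type*) [AddCommGroup C] (p : ℕ) :
    ∃ t : C → C, (∀ y, p • t y = 0) ∧ (∀ y w, p • w = 0 → t (y + w) = t y + w) := by
  set T : AddSubgroup C := AddMonoidHom.ker (nsmulAddMonoidHom p : C →+ C) with hT
  refine ⟨fun y => y - (Quotient.out (QuotientAddGroup.mk y : C ⧸ T)), ?_, ?_⟩
  · intro y
    have h : (QuotientAddGroup.mk (Quotient.out (QuotientAddGroup.mk y : C ⧸ T)) : C ⧸ T) =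
        QuotientAddGroup.mk y := Quotient.out_eq' _
    have h2 := QuotientAddGroup.eq.1 h
    rw [hT, AddMonoidHom.mem_ker] at h2
    have h3 : p • (-(Quotient.out (QuotientAddGroup.mk y : C ⧸ T)) + y) = 0 := h2
    change p • (y - Quotient.out (QuotientAddGroup.mk y : C ⧸ T)) = 0
    rw [sub_eq_neg_add]
    exact h3
  · intro y w hw
    have hwT : w ∈ T := by rw [hT, AddMonoidHom.mem_ker]; exact hw
    have h : (QuotientAddGroup.mk (y + w) : C ⧸ T) = QuotientAddGroup.mk y := by
      rw [eq_comm, QuotientAddGroup.eq]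
      simpa using hwT
    simp only [h]
    abel

/-- elementary abelian subgroups split off -/
lemma exists_proj {V W : Type*} [AddCommGroup V] [AddCommGroup W] (p : ℕ) (hp : p.Prime)
    (hV0 : ∀ x : V, p • x = 0) (hW0 : ∀ x : W, p • x = 0) (φ : W →+ V)
    (hφ : Function.Injective φ) : ∃ g : V →+ W, ∀ w, g (φ w) = w := by
  have : Fact p.Prime := ⟨hp⟩
  letI : Module (ZMod p) V := AddCommGroup.zmodModule hV0
  letI : Module (ZMod p) W := AddCommGroup.zmodModule hW0
  obtain ⟨g, hg⟩ := LinearMap.exists_leftInverse_of_injective (AddMonoidHom.toZModLinearMap p φ)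
    (LinearMap.ker_eq_bot.2 hφ)
  exact ⟨g.toAddMonoidHom, fun w => LinearMap.congr_fun hg w⟩

theorem topDigit {M : Type*} [AddCommGroup M] [Finite M] (p a : ℕ) (hp : p.Prime)
    (hM : ∀ m : M, p ^ a • m = 0) (W : AddSubgroup M) (hW : ∀ w ∈ W, p • w = 0) :
    ∃ β : M → M, (∀ m, β m ∈ W) ∧ (∀ m, ∀ w ∈ W, β (m + w) = β m + w) ∧
      Deg (p ^ a) (fun x : Multiplicative M => β (Multiplicative.toAdd x)) := by
  classical
  have : Fact p.Prime := ⟨hp⟩
  obtain ⟨ι, hι, q, hq, e, ⟨E⟩⟩ := AddCommGroup.equiv_directSum_zmod_of_finite M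
  -- the coordinates
  let pr : ∀ i, M →+ ZMod (q i ^ e i) := fun i =>
    (DirectSum.component ℤ ι (fun i => ZMod (q i ^ e i)) i).toAddMonoidHom.comp E.toAddMonoidHom
  let inc : ∀ i, ZMod (q i ^ e i) →+ M := fun i =>
    E.symm.toAddMonoidHom.comp (DirectSum.of (fun i => ZMod (q i ^ e i)) i)
  have hsum : ∀ m, ∑ i, inc i (pr i m) = m := by
    intro m
    apply E.injective
    rw [map_sum]
    simp only [inc, pr, AddMonoidHom.comp_apply, AddEquiv.coe_toAddMonoidHom,
      AddEquiv.apply_symm_apply]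
    exact DirectSum.sum_univ_of _
  have hinj : ∀ i, Function.Injective (inc i) := by
    intro i
    exact E.symm.injective.comp (DirectSum.of_injective _)
  have hdiv : ∀ i, q i ^ e i ∣ p ^ a := by
    intro i
    rw [← ZMod.natCast_eq_zero_iff]
    apply hinj i
    have := hM (inc i 1)
    rw [← map_nsmul, nsmul_eq_mul, mul_one] at this
    rw [this, map_zero]
  choose t ht0 ht1 using fun i => exists_sect (ZMod (q i ^ e i)) p
  -- the `p`-torsion of `M`
  let V : AddSubgroup M := AddMonoidHom.ker (nsmulAddMonoidHom p : M →+ M)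
  have hV : ∀ x : M, x ∈ V ↔ p • x = 0 := fun x => AddMonoidHom.mem_ker
  have hV0 : ∀ x : V, p • x = 0 := fun x => Subtype.ext ((hV _).1 x.2)
  have hW0 : ∀ x : W, p • x = 0 := fun x => Subtype.ext (hW _ x.2)
  let β' : M → V := fun m => ⟨∑ i, inc i (t i (pr i m)), by
    rw [hV, Finset.smul_sum]
    refine Finset.sum_eq_zero fun i _ => ?_
    rw [← map_nsmul, ht0, map_zero]⟩
  have hβ' : ∀ m (w : V), β' (m + w) = β' m + w := by
    intro m w
    apply Subtype.ext
    change ∑ i, inc i (t i (pr i (m + w))) = ∑ i, inc i (t i (pr i m)) + w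
    conv_rhs => rw [← hsum (w : M), ← Finset.sum_add_distrib]
    refine Finset.sum_congr rfl fun i _ => ?_
    rw [map_add, ht1, map_add]
    rw [← map_nsmul, (hV _).1 w.2, map_zero]
  have hdegβ' : Deg (p ^ a) (fun x : Multiplicative M => β' (Multiplicative.toAdd x)) := by
    have e1 : (fun x : Multiplicative M => β' (Multiplicative.toAdd x)) =
        ∑ i, fun x : Multiplicative M => (⟨inc i (t i (pr i (Multiplicative.toAdd x))), by
          rw [hV, ← map_nsmul, ht0, map_zero]⟩ : V) := by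
      funext x
      apply Subtype.ext
      rw [Finset.sum_apply, AddSubgroup.val_finsetSum]
    rw [e1]
    refine Deg.sum _ fun i _ => ?_
    exact Deg.pull (AddMonoidHom.toMultiplicative (pr i)) (f := fun y =>
      (⟨inc i (t i (Multiplicative.toAdd y)), by
          rw [hV, ← map_nsmul, ht0, map_zero]⟩ : V))
      (deg_cyc p a _ hp (hdiv i) hV0 _)
  -- projection
  let φ : W →+ V := AddSubgroup.inclusion (fun w hw => (hV w).2 (hW w hw))
  obtain ⟨g, hg'⟩ := exists_proj p hp hV0 hW0 φ (AddSubgroup.inclusion_injective _)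
  refine ⟨fun m => ((g (β' m) : W) : M), fun m => (g (β' m)).2, ?_, ?_⟩
  · intro m w hw
    have h1 := hβ' m ⟨w, (hV w).2 (hW w hw)⟩
    have h2 := hg' ⟨w, hw⟩
    change ((g (β' (m + w)) : W) : M) = g (β' m) + w
    have h1' : β' (m + w) = β' m + ⟨w, (hV w).2 (hW w hw)⟩ := h1
    rw [h1', map_add, AddSubgroup.coe_add]
    congr 1
    exact congrArg Subtype.val h2
  · exact Deg.comp (W.subtype.comp g) hdegβ'

end Pool.Agent.W_MP_7610c5_al
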