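import Pool.Agent.W_MP_7610c5_al.Setup
import Pool.Agent.W_MP_7610c5_al.TopDigit

open MonoidAlgebra

namespace Pool.Agent.W_MP_7610c5_al

/-- degree can be tested after an injective additive map -/
lemma Deg.of_injective {G A B : Type*} [Group G] [AddCommGroup A] [AddCommGroup B] (φ : A →+ B)
    (hφ : Function.Injective φ) {d : ℕ} {f : G → A} (h : Deg d (fun x => φ (f x))) : Deg d f := by
  intro l hl
  have h' := h l hl
  rw [diffs_comp] at h'
  funext x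
  apply hφ
  rw [congrFun h' x]
  simp

theorem section_step (n p a : ℕ) (hp : p.Prime) {Γ T : Type} [Group Γ] [Ring T]
    [Module.Finite ℤ T] (s : Setup n Γ T) (S S' : Subgroup Γ) [S.Normal] [S'.Normal]
    (K : AddSubgroup T) (hK : ∀ y ∈ s.P, p ^ a • y ∈ K)
    (h1 : ∀ x : Γ, ∀ y ∈ S, (s.κ x - 1) * (s.κ y - 1) ∈ K)
    (h2 : ∀ y ∈ S, p • (s.κ y - 1) ∈ K)
    (hS' : ∀ y, y ∈ S' ↔ y ∈ S ∧ s.κ y - 1 ∈ K) (m : ℕ)
    (hm : ∀ w : Γ, (w : Γ ⧸ S') ∈ dimSet (Γ ⧸ S') m → w ∈ S') :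
    ∀ w : Γ, (w : Γ ⧸ S) ∈ dimSet (Γ ⧸ S) (((n + 1) * p ^ a) * m) → w ∈ S := by
  classical
  -- the module `M = P / (P ∩ K)`
  let PA : AddSubgroup T := s.P.toAddSubgroup
  let N : AddSubgroup PA := K.addSubgroupOf PA
  have hPAfin : Module.Finite ℤ PA := by
    have : Module.Finite ℤ (AddSubgroup.toIntSubmodule PA) := inferInstance
    exact this
  have hMfin : Module.Finite ℤ (PA ⧸ N) :=
    Module.Finite.of_surjective (QuotientAddGroup.mk' N).toIntLinearMap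
      (QuotientAddGroup.mk'_surjective N)
  have hpa : ∀ z : PA ⧸ N, p ^ a • z = 0 := by
    intro z
    obtain ⟨y, rfl⟩ := QuotientAddGroup.mk_surjective z
    rw [← QuotientAddGroup.mk_nsmul, QuotientAddGroup.eq_zero_iff]
    exact hK y.1 y.2
  have hfin : Finite (PA ⧸ N) := by
    refine Module.finite_of_fg_torsion (PA ⧸ N) ?_
    intro z
    refine ⟨⟨(p ^ a : ℕ), ?_⟩, ?_⟩
    · rw [mem_nonZeroDivisors_iff_ne_zero]
      exact_mod_cast pow_ne_zero a hp.ne_zero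
    · have := hpa z
      rw [← natCast_zsmul] at this
      exact this
  -- the map `ρ`
  let ρP : Γ → PA := fun x => ⟨s.κ x - 1, s.memP x⟩
  let ρ : Γ → PA ⧸ N := fun x => QuotientAddGroup.mk' N (ρP x)
  have hρdeg : Deg n ρ := by
    refine Deg.comp (QuotientAddGroup.mk' N) ?_
    refine Deg.of_injective PA.subtype (AddSubgroup.subtype_injective PA) ?_
    exact s.deg_κ.sub ((Deg.const (1 : T)).mono (Nat.zero_le n))
  have hρ0 : ∀ x, ρ x = 0 ↔ s.κ x - 1 ∈ K := by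
    intro x
    exact QuotientAddGroup.eq_zero_iff (N := N) (ρP x)
  have hρmul : ∀ x, ∀ y ∈ S, ρ (x * y) = ρ x + ρ y := by
    intro x y hy
    have e : ρP (x * y) = (⟨(s.κ x - 1) * (s.κ y - 1), s.P.mul_mem_left _ (s.memP y)⟩ : PA) +
        (ρP x + ρP y) := by
      apply Subtype.ext
      simp only [ρP, AddSubgroup.coe_add, map_mul]
      noncomm_ring
    simp only [ρ]
    rw [e, map_add, map_add]
    have : QuotientAddGroup.mk' N (⟨(s.κ x - 1) * (s.κ y - 1),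
        s.P.mul_mem_left _ (s.memP y)⟩ : PA) = 0 :=
      (QuotientAddGroup.eq_zero_iff _).2 (h1 x y hy)
    rw [this, zero_add]
  have hρS : ∀ y ∈ S, (ρ y = 0 ↔ y ∈ S') := by
    intro y hy
    rw [hρ0, hS']
    exact ⟨fun h => ⟨hy, h⟩, fun h => h.2⟩
  have hρeq : ∀ y ∈ S, ∀ y' ∈ S, ρ y = ρ y' → (y : Γ ⧸ S') = y' := by
    intro y hy y' hy' h
    rw [QuotientGroup.eq]
    have hmem : y⁻¹ * y' ∈ S := S.mul_mem (S.inv_mem hy) hy'
    rw [← hρS _ hmem]
    have h3 := hρmul y _ hmem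
    rw [mul_inv_cancel_left, ← h] at h3
    simpa using h3
  have hle : S' ≤ S := fun y hy => ((hS' y).1 hy).1
  -- the subgroup `W`
  let W : AddSubgroup (PA ⧸ N) := {
    carrier := {z | ∃ y ∈ S, ρ y = z}
    zero_mem' := ⟨1, S.one_mem, (hρS 1 S.one_mem).2 S'.one_mem⟩
    add_mem' := by
      rintro _ _ ⟨y, hy, rfl⟩ ⟨y', hy', rfl⟩
      exact ⟨y * y', S.mul_mem hy hy', hρmul y y' hy'⟩
    neg_mem' := by
      rintro _ ⟨y, hy, rfl⟩
      refine ⟨y⁻¹, S.inv_mem hy, ?_⟩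
      have h3 := hρmul y y⁻¹ (S.inv_mem hy)
      rw [mul_inv_cancel, (hρS 1 S.one_mem).2 S'.one_mem] at h3
      exact (neg_eq_of_add_eq_zero_right h3.symm).symm }
  have hW : ∀ w ∈ W, p • w = 0 := by
    rintro _ ⟨y, hy, rfl⟩
    simp only [ρ]
    rw [← map_nsmul]
    exact (QuotientAddGroup.eq_zero_iff _).2 (h2 y hy)
  obtain ⟨β, hβW, hβadd, hβdeg⟩ := topDigit p a hp hpa W hW
  -- the maps of the extension
  let π : Γ ⧸ S' →* Γ ⧸ S := QuotientGroup.map S' S (MonoidHom.id Γ) hle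
  have hπmk : ∀ x : Γ, π (x : Γ ⧸ S') = (x : Γ ⧸ S) := fun x => rfl
  have hπ : Function.Surjective π := by
    intro q
    obtain ⟨x, rfl⟩ := QuotientGroup.mk_surjective q
    exact ⟨(x : Γ ⧸ S'), rfl⟩
  choose y hyS hyρ using fun w : W => w.2
  let ι : Multiplicative W →* Γ ⧸ S' := {
    toFun := fun w => ((y (Multiplicative.toAdd w) : Γ) : Γ ⧸ S')
    map_one' := by
      show ((y 0 : Γ) : Γ ⧸ S') = 1
      rw [QuotientGroup.eq_one_iff, ← hρS _ (hyS 0), hyρ]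
      rfl
    map_mul' := by
      intro w w'
      rw [← QuotientGroup.mk_mul]
      refine hρeq _ (hyS _) _ (S.mul_mem (hyS _) (hyS _)) ?_
      rw [hρmul _ _ (hyS _), hyρ, hyρ, hyρ, toAdd_mul, AddSubgroup.coe_add] }
  have hι : ∀ w : W, ι (Multiplicative.ofAdd w) = ((y w : Γ) : Γ ⧸ S') := fun w => rfl
  have hk : ∀ x, π x = 1 ↔ ∃ b, ι b = x := by
    intro x
    obtain ⟨g, rfl⟩ := QuotientGroup.mk_surjective x
    rw [hπmk, QuotientGroup.eq_one_iff]
    constructor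
    · intro hg
      refine ⟨Multiplicative.ofAdd ⟨ρ g, g, hg, rfl⟩, ?_⟩
      rw [hι]
      exact hρeq _ (hyS _) _ hg (hyρ _)
    · rintro ⟨b, hb⟩
      have hb' : ((y (Multiplicative.toAdd b) : Γ) : Γ ⧸ S') = g := hb
      rw [QuotientGroup.eq] at hb'
      have := S.mul_mem (hyS (Multiplicative.toAdd b)) (hle hb')
      rwa [mul_inv_cancel_left] at this
  let Φ : Γ ⧸ S' → W := fun q => ⟨β (ρ (Quotient.out q)), hβW _⟩
  have hΦmk : ∀ x : Γ, (Φ (x : Γ ⧸ S') : PA ⧸ N) = β (ρ x) := by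
    intro x
    show β (ρ (Quotient.out (x : Γ ⧸ S'))) = β (ρ x)
    have h3 : ((Quotient.out (x : Γ ⧸ S') : Γ) : Γ ⧸ S') = x := Quotient.out_eq' _
    have h4 := QuotientGroup.eq.1 h3
    have h5 := hρmul (Quotient.out (x : Γ ⧸ S')) _ (hle h4)
    rw [mul_inv_cancel_left, (hρS _ (hle h4)).2 h4, add_zero] at h5
    rw [h5]
  have hΦdeg : Deg ((n + 1) * p ^ a) Φ := by
    refine Deg.of_pull (π := QuotientGroup.mk' S') (QuotientGroup.mk'_surjective S') ?_
    refine Deg.of_injective W.subtype (AddSubgroup.subtype_injective W) ?_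
    have e : (fun x : Γ => W.subtype (Φ (QuotientGroup.mk' S' x))) = fun x => β (ρ x) := by
      funext x
      exact hΦmk x
    rw [e]
    exact Deg.compose (Nat.succ_pos n) (hρdeg.mono (Nat.le_succ n)) hβdeg
  have hΦι : ∀ x b, Φ (x * ι (Multiplicative.ofAdd b)) = Φ x + b := by
    intro x b
    obtain ⟨g, rfl⟩ := QuotientGroup.mk_surjective x
    apply Subtype.ext
    rw [hι, ← QuotientGroup.mk_mul, hΦmk, AddSubgroup.coe_add, hΦmk, hρmul _ _ (hyS b), hyρ]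
    exact hβadd _ _ b.2
  have hE : ∀ x ∈ dimSet (Γ ⧸ S') m, x = 1 := by
    intro x hx
    obtain ⟨g, rfl⟩ := QuotientGroup.mk_surjective x
    exact (QuotientGroup.eq_one_iff g).2 (hm g hx)
  have hd : 0 < (n + 1) * p ^ a := Nat.mul_pos (Nat.succ_pos n) (pow_pos hp.pos a)
  intro w hw
  have := descent π hπ ι hk Φ hd hΦdeg hΦι m hE (w : Γ ⧸ S) hw
  exact (QuotientGroup.eq_one_iff w).1 this

end Pool.Agent.W_MP_7610c5_al
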