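import Pool.Agent.W_MP_7610c5_al.ChainCore
import Pool.Agent.W_MP_7610c5_al.Deep
import Pool.Agent.W_MP_7610c5_al.Section

/-!
The descending chain argument, assembled from `ChainCore`, `Deep` and `Section`.
-/

namespace Pool.Agent.W_MP_7610c5_al

theorem chain (n p a : ℕ) (hp : p.Prime) : ∃ m₁ : ℕ, ∀ {Γ T : Type} [Group Γ] [Ring T]
    [Module.Finite ℤ T] [Module.Free ℤ T] (s : Setup n Γ T) (S : Subgroup Γ) [S.Normal] (E : ℕ),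
    (∀ x : Γ, x ^ p ^ E ∈ S) → (∀ x : Γ, s.κ x = 1 → x ∈ S) →
    (∀ (R : Subgroup Γ) [R.Normal] (E : ℕ), (∀ x : Γ, x ^ p ^ E ∈ R) →
      (∀ x : Γ, s.κ x = 1 → x ∈ R) →
      ∀ h : Γ, (∃ z ∈ s.J R, s.κ h - 1 = p ^ a • z) → h ∈ R) →
    ∀ w : Γ, (w : Γ ⧸ S) ∈ dimSet (Γ ⧸ S) m₁ → w ∈ S :=
  chain_of n p a (deep n p a hp) fun s S S' _ _ K hK h1 h2 hS' m hm =>
    section_step n p a hp s S S' K hK h1 h2 hS' m hm

end Pool.Agent.W_MP_7610c5_al
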