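import Pool.Agent.W_MP_7610c5_al.Setup

/-!
# The chain of subgroups between `S` and its deep part

`chain_of` derives the chain theorem from the statements of `deep` and `section_step`, which are
taken as hypotheses.
-/

set_option autoImplicit false

namespace Pool.Agent.W_MP_7610c5_al

namespace Chain

variable {n : ℕ} {Γ T : Type} [Group Γ] [Ring T]

/-- the filtration of `P`: generated by the `p ^ b • y`, `y ∈ P ^ j`, `j ≥ 1`, with `i < b + j` or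
`a ≤ b` -/
def K (s : Setup n Γ T) (p a i : ℕ) : AddSubgroup T :=
  AddSubgroup.closure {z | ∃ b j : ℕ, ∃ y : T, 1 ≤ j ∧ (i < b + j ∨ a ≤ b) ∧ y ∈ s.P ^ j ∧
    z = p ^ b • y}

variable (s : Setup n Γ T) (p a : ℕ)

lemma mem_K {i b j : ℕ} {y : T} (hj : 1 ≤ j) (h : i < b + j ∨ a ≤ b) (hy : y ∈ s.P ^ j) :
    p ^ b • y ∈ K s p a i :=
  AddSubgroup.subset_closure ⟨b, j, y, hj, h, hy, rfl⟩

lemma P_le_K_zero {y : T} (hy : y ∈ s.P) : y ∈ K s p a 0 := by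
  have h := mem_K s p a (i := 0) (b := 0) (j := 1) (y := y) le_rfl (Or.inl (by omega))
    (by rwa [Submodule.pow_one])
  rwa [pow_zero, one_smul] at h

lemma pa_P_le {i : ℕ} {y : T} (hy : y ∈ s.P) : p ^ a • y ∈ K s p a i :=
  mem_K s p a (j := 1) le_rfl (Or.inr le_rfl) (by rwa [Submodule.pow_one])

/-- the general induction principle for mapping `K` into an additive subgroup -/
lemma K_map {i : ℕ} (L : AddSubgroup T) (φ : T →+ T)
    (h : ∀ b j : ℕ, ∀ y : T, 1 ≤ j → (i < b + j ∨ a ≤ b) → y ∈ s.P ^ j → φ (p ^ b • y) ∈ L) {z : T}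
    (hz : z ∈ K s p a i) : φ z ∈ L := by
  unfold K at hz
  induction hz using AddSubgroup.closure_induction with
  | zero => rw [map_zero]; exact zero_mem _
  | add u v _ _ hu hv => rw [map_add]; exact add_mem hu hv
  | neg u _ hu => rw [map_neg]; exact neg_mem hu
  | mem u hu =>
    obtain ⟨b, j, y, hj, hb, hy, rfl⟩ := hu
    exact h b j y hj hb hy

lemma mul_left_mem {i : ℕ} (t : T) {z : T} (hz : z ∈ K s p a i) : t * z ∈ K s p a i := by
  refine K_map s p a (K s p a i) (AddMonoidHom.mulLeft t) ?_ hz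
  intro b j y hj hb hy
  rw [AddMonoidHom.coe_mulLeft, mul_smul_comm]
  exact mem_K s p a hj hb (Ideal.mul_mem_left _ _ hy)

lemma mul_right_mem {i : ℕ} (t : T) {z : T} (hz : z ∈ K s p a i) : z * t ∈ K s p a i := by
  refine K_map s p a (K s p a i) (AddMonoidHom.mulRight t) ?_ hz
  intro b j y hj hb hy
  rw [AddMonoidHom.mulRight_apply, smul_mul_assoc]
  exact mem_K s p a hj hb (Ideal.mul_mem_right _ _ hy)

lemma P_mul_mem {i : ℕ} {u z : T} (hu : u ∈ s.P) (hz : z ∈ K s p a i) :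
    u * z ∈ K s p a (i + 1) := by
  refine K_map s p a (K s p a (i + 1)) (AddMonoidHom.mulLeft u) ?_ hz
  intro b j y hj hb hy
  rw [AddMonoidHom.coe_mulLeft, mul_smul_comm]
  refine mem_K s p a (j := j + 1) (by omega) (by omega) ?_
  rw [Ideal.IsTwoSided.pow_succ]
  exact Ideal.mul_mem_mul hu hy

lemma p_smul_mem {i : ℕ} {z : T} (hz : z ∈ K s p a i) : p • z ∈ K s p a (i + 1) := by
  refine K_map s p a (K s p a (i + 1)) (nsmulAddMonoidHom p) ?_ hz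
  intro b j y hj hb hy
  rw [nsmulAddMonoidHom_apply, smul_smul, ← pow_succ']
  exact mem_K s p a hj (by omega) hy

lemma K_succ_le {i : ℕ} {z : T} (hz : z ∈ K s p a (i + 1)) : z ∈ K s p a i := by
  refine K_map s p a (K s p a i) (AddMonoidHom.id T) ?_ hz
  intro b j y hj hb hy
  exact mem_K s p a hj (by omega) hy

lemma K_deep {z : T} (hz : z ∈ K s p a (a + n)) : ∃ y ∈ s.P, z = p ^ a • y := by
  let L : AddSubgroup T :=
    { carrier := {z | ∃ y ∈ s.P, z = p ^ a • y}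
      zero_mem' := ⟨0, zero_mem _, by rw [smul_zero]⟩
      add_mem' := by
        rintro _ _ ⟨y, hy, rfl⟩ ⟨y', hy', rfl⟩
        exact ⟨y + y', add_mem hy hy', by rw [smul_add]⟩
      neg_mem' := by
        rintro _ ⟨y, hy, rfl⟩
        exact ⟨-y, neg_mem hy, by rw [smul_neg]⟩ }
  refine K_map s p a L (AddMonoidHom.id T) ?_ hz
  intro b j y hj hb hy
  change ∃ y' ∈ s.P, p ^ b • y = p ^ a • y'
  by_cases hab : a ≤ b
  · refine ⟨p ^ (b - a) • y, ?_, ?_⟩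
    · have h1 : y ∈ s.P := by
        have := ideal_pow_anti s.P hj hy
        rwa [Submodule.pow_one] at this
      exact nsmul_mem h1 _
    · rw [smul_smul, ← pow_add, Nat.add_sub_cancel' hab]
  · refine ⟨0, zero_mem _, ?_⟩
    have h1 : y ∈ s.P ^ (n + 1) := ideal_pow_anti s.P (show n + 1 ≤ j by omega) hy
    rw [s.nil] at h1
    have h2 : y = 0 := h1
    rw [h2, smul_zero, smul_zero]

variable (S : Subgroup Γ)

/-- the chain of subgroups -/
def Sg (i : ℕ) : Subgroup Γ where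
  carrier := {y | y ∈ S ∧ s.κ y - 1 ∈ K s p a i}
  one_mem' := ⟨one_mem _, by rw [map_one, sub_self]; exact zero_mem _⟩
  mul_mem' := by
    rintro x y ⟨hx, hx'⟩ ⟨hy, hy'⟩
    refine ⟨mul_mem hx hy, ?_⟩
    have h : s.κ (x * y) - 1 = (s.κ x - 1) * s.κ y + (s.κ y - 1) := by
      rw [map_mul]
      noncomm_ring
    rw [h]
    exact add_mem (mul_right_mem s p a _ hx') hy'
  inv_mem' := by
    rintro x ⟨hx, hx'⟩
    refine ⟨inv_mem hx, ?_⟩
    have h : s.κ x⁻¹ - 1 = -(s.κ x⁻¹ * (s.κ x - 1)) := by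
      rw [mul_sub, s.κ_inv_mul, mul_one]
      abel
    rw [h]
    exact neg_mem (mul_left_mem s p a _ hx')

lemma mem_Sg {i : ℕ} {y : Γ} : y ∈ Sg s p a S i ↔ y ∈ S ∧ s.κ y - 1 ∈ K s p a i := Iff.rfl

instance normal_Sg [S.Normal] (i : ℕ) : (Sg s p a S i).Normal where
  conj_mem := by
    rintro y ⟨hy, hy'⟩ x
    refine ⟨‹S.Normal›.conj_mem y hy x, ?_⟩
    have h : s.κ (x * y * x⁻¹) - 1 = s.κ x * (s.κ y - 1) * s.κ x⁻¹ := by
      rw [map_mul, map_mul, mul_sub, sub_mul, mul_one, s.κ_mul_inv]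
    rw [h]
    exact mul_right_mem s p a _ (mul_left_mem s p a _ hy')

lemma Sg_zero : Sg s p a S 0 = S := by
  ext y
  rw [mem_Sg]
  exact ⟨fun h => h.1, fun h => ⟨h, P_le_K_zero s p a (s.memP y)⟩⟩

lemma pow_sub_one_sub {i : ℕ} {u : T} (hu : u ∈ s.P) (hu' : u ∈ K s p a i) (m : ℕ) :
    (1 + u) ^ m - 1 - m • u ∈ K s p a (i + 1) := by
  induction m with
  | zero => simp
  | succ m ih =>
    have h : (1 + u) ^ (m + 1) - 1 - (m + 1) • u =
        ((1 + u) ^ m - 1 - m • u) * (1 + u) + m • (u * u) := by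
      rw [pow_succ, add_smul, one_smul, sub_mul, sub_mul, smul_mul_assoc, mul_add u, mul_one,
        smul_add, one_mul]
      abel
    rw [h]
    exact add_mem (mul_right_mem s p a _ ih) (nsmul_mem (P_mul_mem s p a hu hu') _)

lemma pow_mem_Sg {i : ℕ} {x : Γ} (hx : x ∈ Sg s p a S i) : x ^ p ∈ Sg s p a S (i + 1) := by
  refine ⟨pow_mem hx.1 _, ?_⟩
  have h1 := pow_sub_one_sub s p a (s.memP x) hx.2 p
  have h2 : s.κ (x ^ p) - 1 = ((1 + (s.κ x - 1)) ^ p - 1 - p • (s.κ x - 1)) +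
      p • (s.κ x - 1) := by
    rw [map_pow]
    rw [show 1 + (s.κ x - 1) = s.κ x by abel]
    abel
  rw [h2]
  exact add_mem h1 (p_smul_mem s p a hx.2)

lemma exponent_Sg {E : ℕ} (hE : ∀ x : Γ, x ^ p ^ E ∈ S) (i : ℕ) (x : Γ) :
    x ^ p ^ (E + i) ∈ Sg s p a S i := by
  induction i with
  | zero => rw [Sg_zero]; exact hE x
  | succ i ih =>
    have h := pow_mem_Sg s p a S ih
    rwa [← pow_mul, ← pow_succ] at h

lemma transport {S S' : Subgroup Γ} [S.Normal] [S'.Normal] (h : S = S') (m : ℕ)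
    (H : ∀ w : Γ, (w : Γ ⧸ S) ∈ dimSet (Γ ⧸ S) m → w ∈ S) :
    ∀ w : Γ, (w : Γ ⧸ S') ∈ dimSet (Γ ⧸ S') m → w ∈ S' := by
  subst h
  exact H

end Chain

open Chain

theorem chain_of (n p a : ℕ)
    (hdeep : ∃ m₀ : ℕ, ∀ {Γ T : Type} [Group Γ] [Ring T]
      [Module.Finite ℤ T] [Module.Free ℤ T] (s : Setup n Γ T) (S : Subgroup Γ) [S.Normal] (E : ℕ),
      (∀ x : Γ, x ^ p ^ E ∈ S) → (∀ x ∈ S, ∃ y ∈ s.P, s.κ x - 1 = p ^ a • y) →
      (∀ h : Γ, (∃ z ∈ s.J S, s.κ h - 1 = p ^ a • z) → h ∈ S) →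
      ∀ w : Γ, (w : Γ ⧸ S) ∈ dimSet (Γ ⧸ S) m₀ → w ∈ S)
    (hsec : ∀ {Γ T : Type} [Group Γ] [Ring T]
      [Module.Finite ℤ T] (s : Setup n Γ T) (S S' : Subgroup Γ) [S.Normal] [S'.Normal]
      (K : AddSubgroup T) (_ : ∀ y ∈ s.P, p ^ a • y ∈ K)
      (_ : ∀ x : Γ, ∀ y ∈ S, (s.κ x - 1) * (s.κ y - 1) ∈ K)
      (_ : ∀ y ∈ S, p • (s.κ y - 1) ∈ K)
      (_ : ∀ y, y ∈ S' ↔ y ∈ S ∧ s.κ y - 1 ∈ K) (m : ℕ)
      (_ : ∀ w : Γ, (w : Γ ⧸ S') ∈ dimSet (Γ ⧸ S') m → w ∈ S'),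
      ∀ w : Γ, (w : Γ ⧸ S) ∈ dimSet (Γ ⧸ S) (((n + 1) * p ^ a) * m) → w ∈ S) :
    ∃ m₁ : ℕ, ∀ {Γ T : Type} [Group Γ] [Ring T]
    [Module.Finite ℤ T] [Module.Free ℤ T] (s : Setup n Γ T) (S : Subgroup Γ) [S.Normal] (E : ℕ),
    (∀ x : Γ, x ^ p ^ E ∈ S) → (∀ x : Γ, s.κ x = 1 → x ∈ S) →
    (∀ (R : Subgroup Γ) [R.Normal] (E : ℕ), (∀ x : Γ, x ^ p ^ E ∈ R) →
      (∀ x : Γ, s.κ x = 1 → x ∈ R) →
      ∀ h : Γ, (∃ z ∈ s.J R, s.κ h - 1 = p ^ a • z) → h ∈ R) →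
    ∀ w : Γ, (w : Γ ⧸ S) ∈ dimSet (Γ ⧸ S) m₁ → w ∈ S := by
  obtain ⟨m₀, hm₀⟩ := hdeep
  refine ⟨((n + 1) * p ^ a) ^ (a + n) * m₀, ?_⟩
  intro Γ T _ _ _ _ s S _ E hE hker hR
  -- the statement at level `i`, going down
  have key : ∀ j : ℕ, j ≤ a + n → ∀ w : Γ,
      (w : Γ ⧸ Sg s p a S (a + n - j)) ∈
        dimSet (Γ ⧸ Sg s p a S (a + n - j)) (((n + 1) * p ^ a) ^ j * m₀) →
      w ∈ Sg s p a S (a + n - j) := by
    intro j
    induction j with
    | zero =>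
      intro _
      rw [pow_zero, one_mul, Nat.sub_zero]
      refine hm₀ s (Sg s p a S (a + n)) (E + (a + n)) (exponent_Sg s p a S hE _) ?_ ?_
      · intro x hx
        exact K_deep s p a hx.2
      · exact hR (Sg s p a S (a + n)) (E + (a + n)) (exponent_Sg s p a S hE _) (by
          intro x hx
          exact ⟨hker x hx, by rw [hx, sub_self]; exact zero_mem _⟩)
    | succ j ih =>
      intro hj
      have ih' := ih (by omega)
      obtain ⟨i, hi⟩ : ∃ i, a + n - j = i + 1 := ⟨a + n - (j + 1), by omega⟩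
      have hi' : a + n - (j + 1) = i := by omega
      rw [hi] at ih'
      rw [hi', pow_succ', mul_assoc]
      refine hsec s (Sg s p a S i) (Sg s p a S (i + 1)) (K s p a (i + 1)) ?_ ?_ ?_ ?_ _ ih'
      · intro y hy
        exact pa_P_le s p a hy
      · intro x y hy
        exact P_mul_mem s p a (s.memP x) hy.2
      · intro y hy
        exact p_smul_mem s p a hy.2
      · intro y
        rw [mem_Sg, mem_Sg]
        exact ⟨fun h => ⟨⟨h.1, K_succ_le s p a h.2⟩, h.2⟩, fun h => ⟨h.1.1, h.2⟩⟩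
  have h0 := key (a + n) le_rfl
  refine transport ?_ _ h0
  rw [Nat.sub_self, Sg_zero]

end Pool.Agent.W_MP_7610c5_al
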