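import Mathlib

namespace Pool.Agent.W_MP_7610c5_al

/-- The augmentation map `k G → k` of a group ring. -/
noncomputable def augHom (k G : Type*) [CommRing k] [Group G] : MonoidAlgebra k G →ₐ[k] k :=
  MonoidAlgebra.lift k k G 1

/-- The augmentation ideal of a group ring: the kernel of the augmentation map. -/
noncomputable def augIdeal (k G : Type*) [CommRing k] [Group G] : Ideal (MonoidAlgebra k G) :=
  RingHom.ker (augHom k G)

/-- The `m`-th (integral) dimension subgroup of `G`, as a set: the `g` with `g - 1 ∈ Δ(G) ^ m`. -/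
def dimSet (G : Type*) [Group G] (m : ℕ) : Set G :=
  {g | MonoidAlgebra.of ℤ G g - 1 ∈ augIdeal ℤ G ^ m}

end Pool.Agent.W_MP_7610c5_al
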