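import Pool.Agent.W_MP_7610c5_al.Aug

open Polynomial

namespace Pool.Agent.W_MP_7610c5_al

/-- evaluation of polynomials over a (noncommutative) ring at natural numbers -/
noncomputable def ev {A : Type*} [Ring A] (k : ℕ) : A[X] →+* A :=
  Polynomial.eval₂RingHom' (RingHom.id A) (k : A) fun a => (Nat.cast_commute k a).symm

/-- the coefficient of `X` in the polynomial `C(X,j)` -/
noncomputable def lc (j : ℕ) : ℚ := (C ((j.factorial : ℚ)⁻¹) * descPochhammer ℚ j).coeff 1

/-- the (truncated) logarithm -/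
noncomputable def lg {A : Type*} [Ring A] [Algebra ℚ A] (n : ℕ) (x : A) : A :=
  ∑ j ∈ Finset.Icc 1 n, lc j • (x - 1) ^ j

section ring

variable {A : Type*} [Ring A]

lemma ev_eq_eval₂ (k : ℕ) (p : A[X]) : ev k p = p.eval₂ (RingHom.id A) (k : A) := rfl

@[simp] lemma ev_C (k : ℕ) (a : A) : ev k (C a) = a := by
  rw [ev_eq_eval₂, eval₂_C, RingHom.id_apply]

@[simp] lemma ev_X (k : ℕ) : ev k (X : A[X]) = (k : A) := by
  rw [ev_eq_eval₂, eval₂_X]

lemma ev_eq_sum (k : ℕ) (p : A[X]) :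
    ev k p = ∑ i ∈ Finset.range (p.natDegree + 1), p.coeff i * (k : A) ^ i := by
  rw [ev_eq_eval₂, eval₂_eq_sum_range]
  rfl

/-- evaluation and translation -/
lemma ev_comp_add (l m : ℕ) (p : A[X]) : ev m (p.comp (X + C (l : A))) = ev (l + m) p := by
  rw [comp, Polynomial.hom_eval₂]
  rw [ev_eq_eval₂]
  congr 1
  · ext a; simp
  · simp [add_comm]

/-- evaluation and dilation -/
lemma ev_comp_mul (k l : ℕ) (p : A[X]) : ev l (p.comp (C (k : A) * X)) = ev (k * l) p := by
  rw [comp, Polynomial.hom_eval₂]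
  rw [ev_eq_eval₂]
  congr 1
  · ext a; simp
  · simp

end ring

variable {A : Type*} [Ring A] [Algebra ℚ A]

lemma ev_map (k : ℕ) (P : ℚ[X]) :
    ev k (P.map (algebraMap ℚ A)) = algebraMap ℚ A (P.eval (k : ℚ)) := by
  rw [ev_eq_eval₂, eval₂_map, RingHom.id_comp, ← map_natCast (algebraMap ℚ A) k,
    eval₂_at_apply]

/-- uniqueness: polynomials with the same values at all natural numbers are equal -/
theorem ev_inj {p q : A[X]} (h : ∀ k : ℕ, ev k p = ev k q) : p = q := by
  rw [← sub_eq_zero]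
  set r := p - q with hr
  have hr0 : ∀ k : ℕ, ev k r = 0 := fun k => by rw [hr, map_sub, h k, sub_self]
  ext i
  rw [coeff_zero]
  rw [← Module.forall_dual_apply_eq_zero_iff ℚ]
  intro φ
  set s : ℚ[X] := ∑ i ∈ Finset.range (r.natDegree + 1), C (φ (r.coeff i)) * X ^ i with hs
  have hev : ∀ k : ℕ, s.eval (k : ℚ) = 0 := by
    intro k
    have h1 : φ (ev k r) = 0 := by rw [hr0 k, map_zero]
    rw [ev_eq_sum, map_sum] at h1
    rw [hs, eval_finsetSum, ← h1]
    refine Finset.sum_congr rfl fun i _ => ?_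
    rw [eval_mul, eval_C, eval_pow, eval_X]
    have h2 : r.coeff i * (k : A) ^ i = ((k : ℚ) ^ i) • r.coeff i := by
      rw [Algebra.smul_def, map_pow, map_natCast]
      exact (((Nat.cast_commute k (r.coeff i)).pow_left i).eq).symm
    rw [h2, map_smul, smul_eq_mul, mul_comm]
  have hs0 : s = 0 := by
    apply Polynomial.eq_zero_of_infinite_isRoot
    refine Set.Infinite.mono ?_ (Set.infinite_range_of_injective (Nat.cast_injective (R := ℚ)))
    rintro _ ⟨k, rfl⟩
    exact hev k
  by_cases hi : i ∈ Finset.range (r.natDegree + 1)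
  · have h3 : s.coeff i = φ (r.coeff i) := by
      rw [hs, finsetSum_coeff]
      simp only [coeff_C_mul, coeff_X_pow]
      rw [Finset.sum_eq_single i]
      · simp
      · intro j _ hj
        simp [Ne.symm hj]
      · intro h; exact absurd hi h
    rw [← h3, hs0, coeff_zero]
  · rw [coeff_eq_zero_of_natDegree_lt, map_zero]
    simpa [Nat.lt_succ_iff] using hi

theorem lc_one : lc 1 = 1 := by
  simp [lc]

lemma lc_zero : lc 0 = 0 := by
  simp [lc, coeff_one]

lemma binom_coeff_zero (j : ℕ) :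
    (C ((j.factorial : ℚ)⁻¹) * descPochhammer ℚ j).coeff 0 = if j = 0 then 1 else 0 := by
  rcases j with _ | j
  · simp
  · rw [coeff_C_mul, if_neg (Nat.succ_ne_zero j), descPochhammer_succ_left, mul_coeff_zero,
      coeff_X_zero, zero_mul, mul_zero]

lemma binom_eval (j k : ℕ) :
    (C ((j.factorial : ℚ)⁻¹) * descPochhammer ℚ j).eval (k : ℚ) = (k.choose j : ℚ) := by
  rw [eval_mul, eval_C, descPochhammer_eval_eq_descFactorial,
    Nat.descFactorial_eq_factorial_mul_choose]
  push_cast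
  have : (j.factorial : ℚ) ≠ 0 := by exact_mod_cast j.factorial_ne_zero
  field_simp

lemma binom_natDegree (j : ℕ) :
    (C ((j.factorial : ℚ)⁻¹) * descPochhammer ℚ j).natDegree ≤ j := by
  refine (natDegree_C_mul_le _ _).trans ?_
  rw [descPochhammer_natDegree]

theorem exists_pp (n : ℕ) {x : A} (hx : (x - 1) ^ (n + 1) = 0) :
    ∃ p : A[X], p.natDegree ≤ n ∧ p.coeff 0 = 1 ∧ p.coeff 1 = lg n x ∧
      ∀ k : ℕ, ev k p = x ^ k := by
  refine ⟨∑ j ∈ Finset.range (n + 1),
    ((C ((j.factorial : ℚ)⁻¹) * descPochhammer ℚ j).map (algebraMap ℚ A)) * C ((x - 1) ^ j),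
    ?_, ?_, ?_, ?_⟩
  · refine natDegree_sum_le_of_forall_le _ _ fun j hj => ?_
    refine (natDegree_mul_C_le _ _).trans ((natDegree_map_le).trans ?_)
    exact (binom_natDegree j).trans (Nat.lt_succ_iff.1 (Finset.mem_range.1 hj))
  · rw [finsetSum_coeff, Finset.sum_eq_single 0]
    · rw [coeff_mul_C, coeff_map, binom_coeff_zero]
      simp
    · intro j _ hj
      rw [coeff_mul_C, coeff_map, binom_coeff_zero, if_neg hj, map_zero, zero_mul]
    · intro h
      exact absurd (Finset.mem_range.2 (Nat.succ_pos n)) h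
  · rw [finsetSum_coeff, lg, Finset.range_eq_Ico, Finset.sum_eq_sum_Ico_succ_bot (Nat.succ_pos n)]
    have h0 : ((C (((0 : ℕ).factorial : ℚ)⁻¹) * descPochhammer ℚ 0).map (algebraMap ℚ A) *
        C ((x - 1) ^ 0)).coeff 1 = 0 := by
      rw [coeff_mul_C, coeff_map]
      have : (C (((0 : ℕ).factorial : ℚ)⁻¹) * descPochhammer ℚ 0).coeff 1 = 0 := lc_zero
      rw [this, map_zero, zero_mul]
    rw [h0, zero_add]
    refine Finset.sum_congr ?_ fun j _ => ?_
    · ext j; simp [Nat.lt_succ_iff]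
    · rw [coeff_mul_C, coeff_map, Algebra.smul_def]
      rfl
  · intro k
    rw [map_sum]
    have h1 : ∀ j ∈ Finset.range (n + 1),
        ev k (((C ((j.factorial : ℚ)⁻¹) * descPochhammer ℚ j).map (algebraMap ℚ A)) *
          C ((x - 1) ^ j)) = (x - 1) ^ j * (k.choose j : A) := by
      intro j _
      rw [map_mul, ev_C, ev_map, binom_eval, map_natCast]
      exact (Nat.cast_commute _ _).eq
    rw [Finset.sum_congr rfl h1]
    have h2 : x ^ k = ∑ j ∈ Finset.range (k + 1), (x - 1) ^ j * (k.choose j : A) := by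
      have := (Commute.one_right (x - 1)).add_pow k
      simpa using this
    rw [h2]
    have h3 : ∀ N, n + 1 ≤ N → k + 1 ≤ N →
        ∑ j ∈ Finset.range (n + 1), (x - 1) ^ j * (k.choose j : A) =
          ∑ j ∈ Finset.range (k + 1), (x - 1) ^ j * (k.choose j : A) := by
      intro N hN hN'
      rw [Finset.sum_subset (Finset.range_subset_range.2 hN),
        Finset.sum_subset (Finset.range_subset_range.2 hN')]
      · intro j _ hj
        rw [Nat.choose_eq_zero_of_lt (by simpa using hj), Nat.cast_zero, mul_zero]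
      · intro j _ hj
        have hj' : n + 1 ≤ j := by simpa using hj
        rw [← Nat.add_sub_of_le hj', pow_add, hx, zero_mul, zero_mul]
    exact h3 (max (n + 1) (k + 1)) (le_max_left _ _) (le_max_right _ _)

omit [Algebra ℚ A] in
theorem pow_sub_one_pow {n : ℕ} {x : A} (hx : (x - 1) ^ (n + 1) = 0) (k : ℕ) :
    (x ^ k - 1) ^ (n + 1) = 0 := by
  rw [← mul_geom_sum x k]
  have hc : Commute (x - 1) (∑ i ∈ Finset.range k, x ^ i) := by
    refine Commute.sum_right _ _ _ fun i _ => ?_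
    exact ((Commute.refl x).sub_left (Commute.one_left x)).pow_right i
  rw [hc.mul_pow, hx, zero_mul]

theorem lg_pow {n : ℕ} {x : A} (hx : (x - 1) ^ (n + 1) = 0) (k : ℕ) :
    lg n (x ^ k) = k • lg n x := by
  obtain ⟨p, -, -, hp1, hp⟩ := exists_pp n hx
  obtain ⟨q, -, -, hq1, hq⟩ := exists_pp n (pow_sub_one_pow hx k)
  have h : q = p.comp (C (k : A) * X) := by
    apply ev_inj
    intro l
    rw [hq, ev_comp_mul, hp, pow_mul]
  rw [← hq1, ← hp1, h]
  rw [comp_C_mul_X_coeff, pow_one, nsmul_eq_mul]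
  exact ((Nat.cast_commute k _).eq).symm

/-- `x` is the exponential of its logarithm -/
theorem exp_lg {n : ℕ} {x : A} (hx : (x - 1) ^ (n + 1) = 0) :
    x = ∑ j ∈ Finset.range (n + 1), ((j.factorial : ℚ)⁻¹) • (lg n x) ^ j := by
  obtain ⟨p, hdeg, hp0, hp1, hp⟩ := exists_pp n hx
  have hder : derivative p = p * C (p.coeff 1) := by
    apply ev_inj
    intro l
    have h1 : p.comp (X + C (l : A)) = C (ev l p) * p := by
      apply ev_inj
      intro m
      rw [ev_comp_add, map_mul, ev_C, hp, hp, hp, pow_add]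
    have h2 : (p.comp (X + C (l : A))).coeff 1 = (C (ev l p) * p).coeff 1 := by rw [h1]
    have h3 : (p.comp (X + C (l : A))).coeff 1 = ev l (derivative p) := by
      have := Polynomial.taylor_coeff_one (l : A) p
      rw [taylor_apply] at this
      rw [this]
      rfl
    rw [← h3, h2, coeff_C_mul, map_mul, ev_C]
  have hc : ∀ j : ℕ, p.coeff j = ((j.factorial : ℚ)⁻¹) • (p.coeff 1) ^ j := by
    intro j
    induction j with
    | zero => simp [hp0]
    | succ j ih =>
      have h4 : (derivative p).coeff j = (p * C (p.coeff 1)).coeff j := by rw [hder]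
      rw [coeff_derivative, coeff_mul_C, ih] at h4
      have h5 : p.coeff (j + 1) * ((j : A) + 1) = ((j + 1 : ℕ) : ℚ) • p.coeff (j + 1) := by
        rw [Algebra.smul_def, map_natCast]
        rw [← Nat.cast_succ]
        exact ((Nat.cast_commute _ _).eq).symm
      rw [h5, smul_mul_assoc, ← pow_succ] at h4
      have hne : ((j + 1 : ℕ) : ℚ) ≠ 0 := by exact_mod_cast Nat.succ_ne_zero j
      have h6 : p.coeff (j + 1) = (((j + 1 : ℕ) : ℚ))⁻¹ • (((j + 1 : ℕ) : ℚ) • p.coeff (j + 1)) := by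
        rw [smul_smul, inv_mul_cancel₀ hne, one_smul]
      rw [h6, h4, smul_smul]
      congr 1
      rw [Nat.factorial_succ]
      push_cast
      rw [mul_inv]
  have h7 : x = ev 1 p := by rw [hp, pow_one]
  rw [← hp1]
  conv_lhs => rw [h7]
  rw [ev_eq_sum]
  simp only [Nat.cast_one, one_pow, mul_one]
  rw [Finset.sum_subset (Finset.range_subset_range.2 (Nat.succ_le_succ hdeg))]
  · exact Finset.sum_congr rfl fun j _ => hc j
  · intro j _ hj
    apply coeff_eq_zero_of_natDegree_lt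
    simpa [Nat.lt_succ_iff] using hj

theorem lg_inj {n : ℕ} {x y : A} (hx : (x - 1) ^ (n + 1) = 0) (hy : (y - 1) ^ (n + 1) = 0)
    (h : lg n x = lg n y) : x = y := by
  rw [exp_lg hx, exp_lg hy, h]

theorem lg_one (n : ℕ) : lg n (1 : A) = 0 := by
  rw [lg]
  refine Finset.sum_eq_zero fun j hj => ?_
  have hj' : j ≠ 0 := by
    have := (Finset.mem_Icc.1 hj).1
    omega
  rw [sub_self, zero_pow hj', smul_zero]

omit [Algebra ℚ A] in
theorem inv_sub_one_pow {n : ℕ} {x y : A} (hx : (x - 1) ^ (n + 1) = 0) (hxy : x * y = 1)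
    (hyx : y * x = 1) : (y - 1) ^ (n + 1) = 0 := by
  have h1 : y - 1 = -((x - 1) * y) := by
    rw [sub_mul, hxy, one_mul]; abel
  have hc : Commute (x - 1) y := by
    rw [Commute, SemiconjBy, sub_mul, mul_sub, hxy, hyx, one_mul, mul_one]
  rw [h1, neg_pow, hc.mul_pow, hx, zero_mul, mul_zero]

theorem lg_inv {n : ℕ} {x y : A} (hx : (x - 1) ^ (n + 1) = 0) (hxy : x * y = 1)
    (hyx : y * x = 1) : lg n y = - lg n x := by
  obtain ⟨p, -, hp0, hp1, hp⟩ := exists_pp n hx
  obtain ⟨q, -, hq0, hq1, hq⟩ := exists_pp n (inv_sub_one_pow hx hxy hyx)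
  have h : p * q = 1 := by
    apply ev_inj
    intro k
    have hc : Commute x y := by rw [Commute, SemiconjBy, hxy, hyx]
    rw [map_mul, hp, hq, ← hc.mul_pow, hxy, one_pow, map_one]
  have h1 : (p * q).coeff 1 = 0 := by rw [h]; simp [coeff_one]
  rw [mul_coeff_one, hp0, hq0, hp1, hq1, one_mul, mul_one] at h1
  exact eq_neg_of_add_eq_zero_left h1

omit [Algebra ℚ A] in
lemma coeff_zero_pow_of_coeff_zero {p : A[X]} (h : p.coeff 0 = 0) {j : ℕ} (hj : j ≠ 0) :
    (p ^ j).coeff 0 = 0 := by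
  obtain ⟨i, rfl⟩ := Nat.exists_eq_succ_of_ne_zero hj
  rw [pow_succ, mul_coeff_zero, h, mul_zero]

omit [Algebra ℚ A] in
lemma coeff_one_pow_of_coeff_zero {p : A[X]} (h : p.coeff 0 = 0) {j : ℕ} (hj : 2 ≤ j) :
    (p ^ j).coeff 1 = 0 := by
  obtain ⟨i, rfl⟩ := Nat.exists_eq_add_of_le' hj
  rw [show i + 2 = (i + 1) + 1 from rfl, pow_succ, mul_coeff_one, h,
    coeff_zero_pow_of_coeff_zero h (Nat.succ_ne_zero i), zero_mul, mul_zero, add_zero]

theorem lgPoly (n : ℕ) (p : A[X]) : ∃ q : A[X], q.natDegree ≤ n * p.natDegree ∧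
    (∀ k : ℕ, ev k q = lg n (ev k p)) ∧
    (p.coeff 0 = 1 → 1 ≤ n → q.coeff 0 = 0 ∧ q.coeff 1 = p.coeff 1) := by
  refine ⟨∑ j ∈ Finset.Icc 1 n, C (algebraMap ℚ A (lc j)) * (p - 1) ^ j, ?_, ?_, ?_⟩
  · refine natDegree_sum_le_of_forall_le _ _ fun j hj => ?_
    refine (natDegree_C_mul_le _ _).trans (natDegree_pow_le.trans ?_)
    refine Nat.mul_le_mul (Finset.mem_Icc.1 hj).2 ?_
    refine (natDegree_sub_le _ _).trans ?_
    simp
  · intro k
    rw [map_sum, lg]
    refine Finset.sum_congr rfl fun j _ => ?_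
    rw [map_mul, ev_C, map_pow, map_sub, map_one, Algebra.smul_def]
  · intro hp hn
    have h0 : (p - 1).coeff 0 = 0 := by rw [coeff_sub, hp, coeff_one_zero, sub_self]
    refine ⟨?_, ?_⟩
    · rw [finsetSum_coeff]
      refine Finset.sum_eq_zero fun j hj => ?_
      have hj' : j ≠ 0 := by
        have := (Finset.mem_Icc.1 hj).1
        omega
      rw [coeff_C_mul, coeff_zero_pow_of_coeff_zero h0 hj', mul_zero]
    · rw [finsetSum_coeff, Finset.sum_eq_single 1]
      · rw [coeff_C_mul, lc_one, map_one, one_mul, pow_one, coeff_sub]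
        simp [coeff_one]
      · intro j hj hj1
        have hj' := (Finset.mem_Icc.1 hj).1
        rw [coeff_C_mul, coeff_one_pow_of_coeff_zero h0 (by omega), mul_zero]
      · intro h
        exact absurd (Finset.mem_Icc.2 ⟨le_rfl, hn⟩) h

end Pool.Agent.W_MP_7610c5_al
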