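import Mathlib

/-!
Weighted series in free groups and the elimination step: the group part.
-/

namespace Pool.Agent.W_MP_7610c5_al.Mag

universe u

open scoped commutatorElement Pointwise

variable {Y : Type u}

/-- Membership in the smallest weighted central series: `Mem w k a`. -/
inductive Mem (w : Y → ℕ) : ℕ → FreeGroup Y → Prop
  | of (y : Y) : Mem w (w y) (FreeGroup.of y)
  | one (k : ℕ) : Mem w k 1
  | mul {k : ℕ} {a b : FreeGroup Y} : Mem w k a → Mem w k b → Mem w k (a * b)
  | inv {k : ℕ} {a : FreeGroup Y} : Mem w k a → Mem w k a⁻¹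
  | comm {i j : ℕ} {a b : FreeGroup Y} : Mem w i a → Mem w j b → Mem w (i + j) ⁅a, b⁆
  | mono {k : ℕ} {a : FreeGroup Y} : Mem w (k + 1) a → Mem w k a

lemma Mem.anti {w : Y → ℕ} {k l : ℕ} (h : l ≤ k) {a : FreeGroup Y} (ha : Mem w k a) :
    Mem w l a := by
  induction k, h using Nat.le_induction with
  | base => exact ha
  | succ k hk ih => exact ih ha.mono

lemma mem_zero (w : Y → ℕ) (a : FreeGroup Y) : Mem w 0 a := by
  induction a using FreeGroup.induction_on with
  | C1 => exact Mem.one 0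
  | of y => exact (Mem.of y).anti (Nat.zero_le _)
  | inv_of y h => exact h.inv
  | mul a b ha hb => exact ha.mul hb

/-- The `k`-th term of the weighted series. -/
def W (w : Y → ℕ) (k : ℕ) : Subgroup (FreeGroup Y) where
  carrier := {a | Mem w k a}
  mul_mem' := fun ha hb => Mem.mul ha hb
  one_mem' := Mem.one k
  inv_mem' := fun ha => Mem.inv ha

lemma mem_W {w : Y → ℕ} {k : ℕ} {a : FreeGroup Y} : a ∈ W w k ↔ Mem w k a := Iff.rfl

instance (w : Y → ℕ) (k : ℕ) : (W w k).Normal := by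
  constructor
  intro a ha g
  have h1 : Mem w (0 + k) ⁅g, a⁆ := Mem.comm (mem_zero w g) ha
  rw [zero_add] at h1
  have h2 : g * a * g⁻¹ = ⁅g, a⁆ * a := by
    rw [commutatorElement_def]; group
  show Mem w k (g * a * g⁻¹)
  rw [h2]
  exact h1.mul ha

/-- iterated commutators with the eliminated generator `x`. -/
def c (x : Y) (y : Y) : ℕ → FreeGroup Y
  | 0 => FreeGroup.of y
  | i + 1 => ⁅FreeGroup.of x, c x y i⁆

/-- the new generators. -/
abbrev Y1 (x : Y) : Type u := {y : Y // y ≠ x} × ℕ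

/-- the new weights. -/
def w1 (w : Y → ℕ) (x : Y) (p : Y1 x) : ℕ := w p.1.1 + p.2 * w x

/-- the map from the free group on the new generators. -/
def phi (x : Y) : FreeGroup (Y1 x) →* FreeGroup Y :=
  FreeGroup.lift (fun p => c x p.1.1 p.2)

lemma c_mem (w : Y → ℕ) (x y : Y) (i : ℕ) : Mem w (w y + i * w x) (c x y i) := by
  induction i with
  | zero => simpa [c] using Mem.of (w := w) y
  | succ i ih =>
    have h := Mem.comm (Mem.of (w := w) x) ih
    have e : w x + (w y + i * w x) = w y + (i + 1) * w x := by ring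
    rw [e] at h
    exact h

lemma phi_mem (w : Y → ℕ) (x : Y) {k : ℕ} {a : FreeGroup (Y1 x)} (ha : Mem (w1 w x) k a) :
    Mem w k (phi x a) := by
  induction ha with
  | of p => simpa [phi, w1] using c_mem w x p.1.1 p.2
  | one k => simpa using Mem.one k
  | mul _ _ h1 h2 => rw [map_mul]; exact h1.mul h2
  | inv _ h => rw [map_inv]; exact h.inv
  | comm _ _ h1 h2 => rw [map_commutatorElement]; exact h1.comm h2
  | mono _ h => exact h.mono

/-- the subgroup generated by the new generators and the deep terms. -/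
def K (w : Y → ℕ) (x : Y) (m : ℕ) : Subgroup (FreeGroup Y) := (phi x).range ⊔ W w m

lemma c_mem_K (w : Y → ℕ) (x : Y) (m : ℕ) {y : Y} (hy : y ≠ x) (i : ℕ) :
    c x y i ∈ K w x m := by
  apply Subgroup.mem_sup_left
  exact ⟨FreeGroup.of (⟨y, hy⟩, i), by simp [phi]⟩

lemma conj_c (x y : Y) (i : ℕ) :
    FreeGroup.of x * c x y i * (FreeGroup.of x)⁻¹ = c x y (i + 1) * c x y i := by
  simp only [c, commutatorElement_def]; group

lemma conj_mem_K (w : Y → ℕ) (x : Y) (m : ℕ) {a : FreeGroup Y} (ha : a ∈ K w x m) :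
    FreeGroup.of x * a * (FreeGroup.of x)⁻¹ ∈ K w x m := by
  have key : K w x m ≤ (K w x m).comap (MulAut.conj (FreeGroup.of x)).toMonoidHom := by
    apply sup_le
    · rintro _ ⟨b, rfl⟩
      induction b using FreeGroup.induction_on with
      | C1 => simp [one_mem]
      | of p =>
        show FreeGroup.of x * phi x (FreeGroup.of p) * (FreeGroup.of x)⁻¹ ∈ K w x m
        have : phi x (FreeGroup.of p) = c x p.1.1 p.2 := by simp [phi]
        rw [this, conj_c]
        exact mul_mem (c_mem_K w x m p.1.2 _) (c_mem_K w x m p.1.2 _)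
      | inv_of p h => rw [map_inv]; exact inv_mem h
      | mul a b ha hb => rw [map_mul]; exact mul_mem ha hb
    · intro b hb
      show FreeGroup.of x * b * (FreeGroup.of x)⁻¹ ∈ K w x m
      apply Subgroup.mem_sup_right
      exact Subgroup.Normal.conj_mem inferInstance b hb _
  exact key ha

lemma conj_inv_c_mem (w : Y → ℕ) (x : Y) (hx : 1 ≤ w x) (m : ℕ) {y : Y} (hy : y ≠ x) (i : ℕ) :
    (FreeGroup.of x)⁻¹ * c x y i * FreeGroup.of x ∈ K w x m := by
  have h0 : ∀ j, m ≤ j → (FreeGroup.of x)⁻¹ * c x y j * FreeGroup.of x ∈ K w x m := by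
    intro j hj
    apply Subgroup.mem_sup_right
    have h1 : Mem w m (c x y j) := (c_mem w x y j).anti (by nlinarith)
    have h2 := Subgroup.Normal.conj_mem (inferInstanceAs (W w m).Normal) _
      (mem_W.2 h1) (FreeGroup.of x)⁻¹
    simpa using h2
  by_cases hi : m ≤ i
  · exact h0 i hi
  · push Not at hi
    obtain ⟨t, ht⟩ := Nat.exists_eq_add_of_lt hi
    have : ∀ t i, m ≤ i + t → (FreeGroup.of x)⁻¹ * c x y i * FreeGroup.of x ∈ K w x m := by
      intro t
      induction t with
      | zero => intro i hi; exact h0 i hi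
      | succ t ih =>
        intro i hi
        have h1 := ih (i + 1) (by omega)
        have h2 : (FreeGroup.of x)⁻¹ * c x y i * FreeGroup.of x
            = ((FreeGroup.of x)⁻¹ * c x y (i + 1) * FreeGroup.of x)⁻¹ * c x y i := by
          have h3 := conj_c x y i
          have h4 : c x y (i + 1) = FreeGroup.of x * c x y i * (FreeGroup.of x)⁻¹ * (c x y i)⁻¹ := by
            rw [h3]; group
          rw [h4]; group
        rw [h2]
        exact mul_mem (inv_mem h1) (c_mem_K w x m hy i)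
    exact this m i (by omega)

lemma conj_inv_mem_K (w : Y → ℕ) (x : Y) (hx : 1 ≤ w x) (m : ℕ) {a : FreeGroup Y}
    (ha : a ∈ K w x m) : (FreeGroup.of x)⁻¹ * a * FreeGroup.of x ∈ K w x m := by
  have key : K w x m ≤ (K w x m).comap (MulAut.conj (FreeGroup.of x)⁻¹).toMonoidHom := by
    apply sup_le
    · rintro _ ⟨b, rfl⟩
      induction b using FreeGroup.induction_on with
      | C1 => simp [one_mem]
      | of p =>
        show (FreeGroup.of x)⁻¹ * phi x (FreeGroup.of p) * (FreeGroup.of x)⁻¹⁻¹ ∈ K w x m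
        have : phi x (FreeGroup.of p) = c x p.1.1 p.2 := by simp [phi]
        rw [this, inv_inv]
        exact conj_inv_c_mem w x hx m p.1.2 _
      | inv_of p h => rw [map_inv (phi x)]; exact inv_mem h
      | mul a b ha hb => rw [map_mul]; exact mul_mem ha hb
    · intro b hb
      show (FreeGroup.of x)⁻¹ * b * (FreeGroup.of x)⁻¹⁻¹ ∈ K w x m
      apply Subgroup.mem_sup_right
      exact Subgroup.Normal.conj_mem inferInstance b hb _
  have := key ha
  simpa using this

lemma mem_normalizer (w : Y → ℕ) (x : Y) (hx : 1 ≤ w x) (m : ℕ) :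
    FreeGroup.of x ∈ Subgroup.normalizer (K w x m : Set (FreeGroup Y)) := by
  rw [Subgroup.mem_normalizer_iff]
  intro h
  constructor
  · exact conj_mem_K w x m
  · intro hh
    have := conj_inv_mem_K w x hx m hh
    have e : (FreeGroup.of x)⁻¹ * (FreeGroup.of x * h * (FreeGroup.of x)⁻¹) * FreeGroup.of x = h := by
      group
    rwa [e] at this

lemma zconj (w : Y → ℕ) (x : Y) (hx : 1 ≤ w x) (m : ℕ) (e : ℤ) {a : FreeGroup Y}
    (ha : a ∈ K w x m) : FreeGroup.of x ^ e * a * (FreeGroup.of x ^ e)⁻¹ ∈ K w x m := by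
  have h : FreeGroup.of x ^ e ∈ Subgroup.normalizer (K w x m : Set (FreeGroup Y)) :=
    zpow_mem (mem_normalizer w x hx m) e
  rw [Subgroup.mem_normalizer_iff] at h
  exact (h a).1 ha

lemma decomp' (w : Y → ℕ) (x : Y) (hx : 1 ≤ w x) (m : ℕ) (a : FreeGroup Y) :
    ∃ e : ℤ, ∃ k ∈ K w x m, a = FreeGroup.of x ^ e * k := by
  have hinv : ∀ a : FreeGroup Y, (∃ e : ℤ, ∃ k ∈ K w x m, a = FreeGroup.of x ^ e * k) →
      ∃ e : ℤ, ∃ k ∈ K w x m, a⁻¹ = FreeGroup.of x ^ e * k := by
    rintro a ⟨e, k, hk, rfl⟩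
    refine ⟨-e, _, zconj w x hx m e (inv_mem hk), ?_⟩
    group
  induction a using FreeGroup.induction_on with
  | C1 => exact ⟨0, 1, one_mem _, by simp⟩
  | of y =>
    by_cases hy : y = x
    · subst hy; exact ⟨1, 1, one_mem _, by simp⟩
    · exact ⟨0, c x y 0, c_mem_K w x m hy 0, by simp [c]⟩
  | inv_of y h => exact hinv _ h
  | mul a b ha hb =>
    obtain ⟨e1, k1, hk1, rfl⟩ := ha
    obtain ⟨e2, k2, hk2, rfl⟩ := hb
    refine ⟨e1 + e2, _, mul_mem (zconj w x hx m (-e2) hk1) hk2, ?_⟩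
    rw [zpow_add]; group

theorem decomp (w : Y → ℕ) (x : Y) (hx : 1 ≤ w x) (m : ℕ) (a : FreeGroup Y) :
    ∃ (e : ℤ) (b : FreeGroup (Y1 x)) (u : FreeGroup Y), Mem w m u ∧
      a = FreeGroup.of x ^ e * (phi x b * u) := by
  obtain ⟨e, k, hk, rfl⟩ := decomp' w x hx m a
  have hk' : k ∈ ((phi x).range : Set (FreeGroup Y)) * (W w m : Set (FreeGroup Y)) := by
    rw [← Subgroup.mul_normal]
    exact hk
  obtain ⟨_, ⟨b, rfl⟩, u, hu, rfl⟩ := Set.mem_mul.1 hk'
  exact ⟨e, b, u, hu, rfl⟩

end Pool.Agent.W_MP_7610c5_al.Mag
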