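import Mathlib
import Pool.Agent.W_MP_7610c5_al.Magnus1

/-!
Filtered algebras, triviality of words in all of them, and the elimination step: the algebra part.
-/

namespace Pool.Agent.W_MP_7610c5_al.Mag

universe u

open scoped commutatorElement Pointwise

/-- a multiplicative filtration by rational subspaces which vanishes at level `m`. -/
structure IsFil {B : Type} [Ring B] [Algebra ℚ B] (fil : ℕ → Submodule ℚ B) (m : ℕ) : Prop where
  one : (1 : B) ∈ fil 0
  mul : ∀ {i j : ℕ} {a b : B}, a ∈ fil i → b ∈ fil j → a * b ∈ fil (i + j)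
  anti : ∀ i, fil (i + 1) ≤ fil i
  bot : fil m = ⊥

section basic
variable {B : Type} [Ring B] [Algebra ℚ B] {fil : ℕ → Submodule ℚ B} {m : ℕ}

lemma IsFil.le (h : IsFil fil m) {i j : ℕ} (hij : i ≤ j) : fil j ≤ fil i :=
  antitone_nat_of_succ_le h.anti hij

lemma IsFil.mulr (h : IsFil fil m) {i : ℕ} {a b : B} (ha : a ∈ fil i) (hb : b ∈ fil 0) :
    a * b ∈ fil i := by simpa using h.mul ha hb

lemma IsFil.mull (h : IsFil fil m) {i : ℕ} {a b : B} (ha : a ∈ fil 0) (hb : b ∈ fil i) :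
    a * b ∈ fil i := by simpa using h.mul ha hb

lemma IsFil.zero_of_sub (h : IsFil fil m) {i : ℕ} {a : B} (ha : a - 1 ∈ fil i) : a ∈ fil 0 := by
  have h1 := (fil 0).add_mem (h.le (Nat.zero_le i) ha) h.one
  simpa using h1

lemma IsFil.exists_unit (h : IsFil fil m) {s : ℕ} (hs : 1 ≤ s) {b : B} (hb : b ∈ fil s) :
    ∃ u : Bˣ, (u : B) = 1 + b ∧ (u : B) - 1 ∈ fil s ∧ ((u⁻¹ : Bˣ) : B) - 1 ∈ fil s := by
  have hpow : ∀ i, (-b) ^ i ∈ fil (i * s) := by
    intro i
    induction i with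
    | zero => simpa using h.one
    | succ i ih =>
      rw [pow_succ, add_mul, one_mul]
      exact h.mul ih ((fil s).neg_mem hb)
  have hz : (-b) ^ m = 0 := by
    have h1 := h.le (i := m) (j := m * s) (by nlinarith) (hpow m)
    rw [h.bot] at h1
    exact (Submodule.mem_bot ℚ).1 h1
  have e1 : (∑ i ∈ Finset.range m, (-b) ^ i) * (1 + b) = 1 := by
    have := geom_sum_mul_neg (-b) m
    rw [hz, sub_neg_eq_add, sub_zero] at this
    exact this
  have e2 : (1 + b) * (∑ i ∈ Finset.range m, (-b) ^ i) = 1 := by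
    have := mul_neg_geom_sum (-b) m
    rw [hz, sub_neg_eq_add, sub_zero] at this
    exact this
  refine ⟨⟨1 + b, ∑ i ∈ Finset.range m, (-b) ^ i, e2, e1⟩, rfl, by simpa using hb, ?_⟩
  show (∑ i ∈ Finset.range m, (-b) ^ i) - 1 ∈ fil s
  have hu : (∑ i ∈ Finset.range m, (-b) ^ i) ∈ fil 0 :=
    Submodule.sum_mem _ (fun i _ => h.le (Nat.zero_le _) (hpow i))
  have e3 : (∑ i ∈ Finset.range m, (-b) ^ i) - 1 = -((∑ i ∈ Finset.range m, (-b) ^ i) * b) := by
    have e4 := e1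
    rw [mul_add, mul_one] at e4
    rw [sub_eq_iff_eq_add, ← sub_eq_iff_eq_add', sub_neg_eq_add]
    exact e4
  rw [e3]
  exact (fil s).neg_mem (h.mull hu hb)

end basic

/-- The word `a` is trivial in every filtered rational algebra which vanishes at level `m`. -/
def Triv {Y : Type u} (w : Y → ℕ) (m : ℕ) (a : FreeGroup Y) : Prop :=
  ∀ (B : Type) [Ring B] [Algebra ℚ B] (fil : ℕ → Submodule ℚ B), IsFil fil m →
    ∀ f : Y → Bˣ, (∀ y, (f y : B) - 1 ∈ fil (w y) ∧ (((f y)⁻¹ : Bˣ) : B) - 1 ∈ fil (w y)) →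
      FreeGroup.lift f a = 1

lemma Mem.fil {Y : Type u} {w : Y → ℕ} {k : ℕ} {a : FreeGroup Y} (ha : Mem w k a)
    {B : Type} [Ring B] [Algebra ℚ B] {fil : ℕ → Submodule ℚ B} {m : ℕ} (h : IsFil fil m)
    {f : Y → Bˣ}
    (hf : ∀ y, (f y : B) - 1 ∈ fil (w y) ∧ (((f y)⁻¹ : Bˣ) : B) - 1 ∈ fil (w y)) :
    (FreeGroup.lift f a : B) - 1 ∈ fil k ∧ (((FreeGroup.lift f a)⁻¹ : Bˣ) : B) - 1 ∈ fil k := by
  have hmul : ∀ {k : ℕ} {a b : B}, a - 1 ∈ fil k → b - 1 ∈ fil k → a * b - 1 ∈ fil k := by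
    intro k a b ha hb
    have e : a * b - 1 = (a - 1) * b + (b - 1) := by noncomm_ring
    rw [e]
    exact (fil k).add_mem (h.mulr ha (h.zero_of_sub hb)) hb
  have hcomm : ∀ {i j : ℕ} (a b : Bˣ), (a : B) - 1 ∈ fil i → ((a⁻¹ : Bˣ) : B) - 1 ∈ fil i →
      (b : B) - 1 ∈ fil j → ((b⁻¹ : Bˣ) : B) - 1 ∈ fil j → ((⁅a, b⁆ : Bˣ) : B) - 1 ∈ fil (i + j) := by
    intro i j a b ha ha' hb hb'
    have e : ((⁅a, b⁆ : Bˣ) : B) - 1 = (((a : B) - 1) * ((b : B) - 1) - ((b : B) - 1) * ((a : B) - 1))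
        * ((a⁻¹ : Bˣ) : B) * ((b⁻¹ : Bˣ) : B) := by
      have e1 : (((a : B) - 1) * ((b : B) - 1) - ((b : B) - 1) * ((a : B) - 1)) = (a : B) * b - b * a := by
        noncomm_ring
      rw [e1, commutatorElement_def]
      push_cast
      rw [sub_mul, sub_mul]
      congr 1
      rw [mul_assoc (b : B), Units.mul_inv a, mul_one, Units.mul_inv b]
    rw [e]
    refine h.mulr (h.mulr ?_ (h.zero_of_sub ha')) (h.zero_of_sub hb')
    refine (fil _).sub_mem (h.mul ha hb) ?_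
    rw [add_comm i j]
    exact h.mul hb ha
  induction ha with
  | of y => simpa using hf y
  | one k => simp
  | mul _ _ h1 h2 =>
    rw [map_mul, mul_inv_rev, Units.val_mul, Units.val_mul]
    exact ⟨hmul h1.1 h2.1, hmul h2.2 h1.2⟩
  | inv _ h1 => rw [map_inv, inv_inv]; exact ⟨h1.2, h1.1⟩
  | comm _ _ h1 h2 =>
    rw [map_commutatorElement, commutatorElement_inv]
    refine ⟨hcomm _ _ h1.1 h1.2 h2.1 h2.2, ?_⟩
    rw [add_comm]
    exact hcomm _ _ h2.1 h2.2 h1.1 h1.2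
  | mono _ h1 => exact ⟨h.anti _ h1.1, h.anti _ h1.2⟩

lemma Mem.triv {Y : Type u} {w : Y → ℕ} {m : ℕ} {a : FreeGroup Y} (ha : Mem w m a) :
    Triv w m a := by
  intro B _ _ fil h f hf
  have h1 := (ha.fil h hf).1
  rw [h.bot, Submodule.mem_bot, sub_eq_zero] at h1
  exact Units.ext h1

/-! ### filtered functions -/

section functions
variable {B : Type} [Ring B] [Algebra ℚ B]

/-- the difference operator. -/
def Del : (ℕ → B) →ₗ[ℚ] (ℕ → B) where
  toFun v := fun k => v (k + 1) - v k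
  map_add' u v := by funext k; simp; abel
  map_smul' c v := by funext k; simp [smul_sub]

/-- the shift operator. -/
def Sh : (ℕ → B) →ₗ[ℚ] (ℕ → B) where
  toFun v := fun k => v (k + 1)
  map_add' u v := by funext k; simp
  map_smul' c v := by funext k; simp

/-- functions whose first `J` differences are in the filtration. -/
def PJ (fil : ℕ → Submodule ℚ B) (d : ℕ) : ℕ → ℕ → Submodule ℚ (ℕ → B)
  | 0, s => ⨅ k : ℕ, (fil s).comap (LinearMap.proj k)
  | J + 1, s => (⨅ k : ℕ, (fil s).comap (LinearMap.proj k)) ⊓ (PJ fil d J (s + d)).comap Del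

variable {fil : ℕ → Submodule ℚ B} {d m : ℕ}

lemma mem_PJ_zero {s : ℕ} {v : ℕ → B} : v ∈ PJ fil d 0 s ↔ ∀ k, v k ∈ fil s := by
  simp [PJ]

lemma mem_PJ_succ {J s : ℕ} {v : ℕ → B} :
    v ∈ PJ fil d (J + 1) s ↔ (∀ k, v k ∈ fil s) ∧ Del v ∈ PJ fil d J (s + d) := by
  simp [PJ]

lemma PJ_val {J s : ℕ} {v : ℕ → B} (hv : v ∈ PJ fil d J s) (k : ℕ) : v k ∈ fil s := by
  cases J with
  | zero => exact mem_PJ_zero.1 hv k
  | succ J => exact (mem_PJ_succ.1 hv).1 k

lemma PJ_le (h : IsFil fil m) {J : ℕ} : ∀ {s t : ℕ}, s ≤ t → PJ fil d J t ≤ PJ fil d J s := by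
  induction J with
  | zero =>
    intro s t hst v hv
    rw [mem_PJ_zero] at hv ⊢
    exact fun k => h.le hst (hv k)
  | succ J ih =>
    intro s t hst v hv
    rw [mem_PJ_succ] at hv ⊢
    exact ⟨fun k => h.le hst (hv.1 k), ih (by omega) hv.2⟩

lemma PJ_lower {J : ℕ} : ∀ {s : ℕ}, PJ fil d (J + 1) s ≤ PJ fil d J s := by
  induction J with
  | zero =>
    intro s v hv
    rw [mem_PJ_succ] at hv
    exact mem_PJ_zero.2 hv.1
  | succ J ih =>
    intro s v hv
    rw [mem_PJ_succ] at hv ⊢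
    exact ⟨hv.1, ih hv.2⟩

lemma Sh_PJ {J : ℕ} : ∀ {s : ℕ} {v : ℕ → B}, v ∈ PJ fil d J s → Sh v ∈ PJ fil d J s := by
  induction J with
  | zero =>
    intro s v hv
    rw [mem_PJ_zero] at hv ⊢
    exact fun k => hv (k + 1)
  | succ J ih =>
    intro s v hv
    rw [mem_PJ_succ] at hv ⊢
    exact ⟨fun k => hv.1 (k + 1), ih hv.2⟩

lemma Del_mul (u v : ℕ → B) : Del (u * v) = Del u * Sh v + u * Del v := by
  funext k
  simp only [Del, Sh, LinearMap.coe_mk, AddHom.coe_mk, Pi.mul_apply, Pi.add_apply]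
  noncomm_ring

lemma PJ_mul (h : IsFil fil m) {J : ℕ} : ∀ {s t : ℕ} {u v : ℕ → B}, u ∈ PJ fil d J s →
    v ∈ PJ fil d J t → u * v ∈ PJ fil d J (s + t) := by
  induction J with
  | zero =>
    intro s t u v hu hv
    rw [mem_PJ_zero] at hu hv ⊢
    exact fun k => h.mul (hu k) (hv k)
  | succ J ih =>
    intro s t u v hu hv
    rw [mem_PJ_succ]
    refine ⟨fun k => h.mul (PJ_val hu k) (PJ_val hv k), ?_⟩
    rw [Del_mul]
    refine Submodule.add_mem _ ?_ ?_
    · have h1 := ih (mem_PJ_succ.1 hu).2 (Sh_PJ (PJ_lower hv))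
      have e : s + d + t = s + t + d := by ring
      rwa [e] at h1
    · have h1 := ih (PJ_lower hu) (mem_PJ_succ.1 hv).2
      have e : s + (t + d) = s + t + d := by ring
      rwa [e] at h1

/-- filtered functions. -/
def P (fil : ℕ → Submodule ℚ B) (d : ℕ) (s : ℕ) : Submodule ℚ (ℕ → B) := ⨅ J : ℕ, PJ fil d J s

lemma mem_P {s : ℕ} {v : ℕ → B} : v ∈ P fil d s ↔ ∀ J, v ∈ PJ fil d J s := by
  simp [P]

lemma P_le (h : IsFil fil m) {s t : ℕ} (hst : s ≤ t) : P fil d t ≤ P fil d s :=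
  fun _ hv => mem_P.2 fun J => PJ_le h hst (mem_P.1 hv J)

lemma P_mul (h : IsFil fil m) {s t : ℕ} {u v : ℕ → B} (hu : u ∈ P fil d s)
    (hv : v ∈ P fil d t) : u * v ∈ P fil d (s + t) :=
  mem_P.2 fun J => PJ_mul h (mem_P.1 hu J) (mem_P.1 hv J)

lemma Sh_P {s : ℕ} {v : ℕ → B} (hv : v ∈ P fil d s) : Sh v ∈ P fil d s :=
  mem_P.2 fun J => Sh_PJ (mem_P.1 hv J)

lemma Del_P {s : ℕ} {v : ℕ → B} (hv : v ∈ P fil d s) : Del v ∈ P fil d (s + d) :=
  mem_P.2 fun J => (mem_PJ_succ.1 (mem_P.1 hv (J + 1))).2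

lemma one_P (h : IsFil fil m) : (1 : ℕ → B) ∈ P fil d 0 := by
  refine mem_P.2 fun J => ?_
  cases J with
  | zero => exact mem_PJ_zero.2 fun k => h.one
  | succ J =>
    refine mem_PJ_succ.2 ⟨fun k => h.one, ?_⟩
    have : Del (1 : ℕ → B) = 0 := by
      funext k; simp [Del]
    rw [this]
    exact Submodule.zero_mem _

lemma P_bot (h : IsFil fil m) {v : ℕ → B} (hv : v ∈ P fil d m) : v = 0 := by
  funext k
  have h1 := PJ_val (mem_P.1 hv 0) k
  rw [h.bot] at h1
  exact (Submodule.mem_bot ℚ).1 h1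

/-- The recursively defined functions are filtered. -/
lemma G_PJ (h : IsFil fil m) {s : ℕ} {G : ℕ → ℕ → B}
    (h0 : ∀ i, G i 0 - 1 ∈ fil (s + i * d))
    (hrec : ∀ i k, G i (k + 1) = G (i + 1) k * G i k) (J : ℕ) :
    ∀ i, G i - 1 ∈ PJ fil d J (s + i * d) := by
  have hle : ∀ i, s + i * d ≤ s + (i + 1) * d := fun i => by
    rw [add_mul]; omega
  induction J with
  | zero =>
    intro i
    rw [mem_PJ_zero]
    intro k
    induction k generalizing i with
    | zero => exact h0 i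
    | succ k ih =>
      show G i (k + 1) - 1 ∈ _
      have ha := ih i
      have hb := h.le (hle i) (ih (i + 1))
      have hb' := h.le (Nat.zero_le _) hb
      simp only [Pi.sub_apply, Pi.one_apply] at ha hb hb'
      have e : G i (k + 1) - 1 = (G (i + 1) k - 1) * (G i k - 1) + (G (i + 1) k - 1) + (G i k - 1) := by
        rw [hrec]; noncomm_ring
      rw [e]
      exact Submodule.add_mem _ (Submodule.add_mem _ (h.mull hb' ha) hb) ha
  | succ J ih =>
    intro i
    rw [mem_PJ_succ]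
    refine ⟨fun k => PJ_val (ih i) k, ?_⟩
    have e : Del (G i - 1) = (G (i + 1) - 1) * (G i - 1) + (G (i + 1) - 1) := by
      funext k
      simp only [Del, LinearMap.coe_mk, AddHom.coe_mk, Pi.sub_apply, Pi.one_apply, Pi.add_apply,
        Pi.mul_apply]
      rw [hrec]; noncomm_ring
    rw [e]
    have e1 : s + (i + 1) * d = s + i * d + d := by ring
    have hb := ih (i + 1)
    rw [e1] at hb
    refine Submodule.add_mem _ ?_ hb
    have h1 := PJ_mul h hb (PJ_le h (Nat.zero_le _) (ih i))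
    simpa using h1

lemma G_P (h : IsFil fil m) {s : ℕ} {G : ℕ → ℕ → B}
    (h0 : ∀ i, G i 0 - 1 ∈ fil (s + i * d))
    (hrec : ∀ i k, G i (k + 1) = G (i + 1) k * G i k) (i : ℕ) :
    G i - 1 ∈ P fil d (s + i * d) :=
  mem_P.2 fun J => G_PJ h h0 hrec J i

/-! ### the algebra of filtered operators -/

/-- operators which raise the filtration by `s`. -/
def opFil (fil : ℕ → Submodule ℚ B) (d : ℕ) (s : ℕ) :
    Submodule ℚ (Module.End ℚ (P fil d 0)) where
  carrier := {T | ∀ (t : ℕ) (v : P fil d 0), (v : ℕ → B) ∈ P fil d t →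
    ((T v : P fil d 0) : ℕ → B) ∈ P fil d (s + t)}
  add_mem' := by
    intro T S hT hS t v hv
    exact Submodule.add_mem _ (hT t v hv) (hS t v hv)
  zero_mem' := by
    intro t v hv
    exact Submodule.zero_mem _
  smul_mem' := by
    intro c T hT t v hv
    exact Submodule.smul_mem _ c (hT t v hv)

lemma isFil_opFil (h : IsFil fil m) :
    IsFil (B := Module.End ℚ (P fil d 0)) (opFil fil d) m where
  one := by
    intro t v hv
    rw [zero_add]
    exact hv
  mul := by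
    intro i j T S hT hS t v hv
    rw [add_assoc]
    exact hT _ _ (hS _ _ hv)
  anti := by
    intro i T hT t v hv
    exact P_le h (by omega) (hT t v hv)
  bot := by
    rw [eq_bot_iff]
    intro T hT
    rw [Submodule.mem_bot]
    ext1 v
    apply Subtype.ext
    exact P_bot h (hT 0 v v.2)

/-- left multiplication by a filtered function, as an operator. -/
def Lm (h : IsFil fil m) (G : ℕ → B) (hG : G ∈ P fil d 0) : Module.End ℚ (P fil d 0) where
  toFun v := ⟨G * v.1, by simpa using P_mul h hG v.2⟩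
  map_add' u v := by
    apply Subtype.ext
    show G * (u.1 + v.1) = G * u.1 + G * v.1
    rw [mul_add]
  map_smul' c v := by
    apply Subtype.ext
    show G * (c • v.1) = c • (G * v.1)
    rw [mul_smul_comm]

/-- the shift as an operator. -/
def ShOp (fil : ℕ → Submodule ℚ B) (d : ℕ) : Module.End ℚ (P fil d 0) where
  toFun v := ⟨Sh v.1, Sh_P v.2⟩
  map_add' u v := by apply Subtype.ext; exact map_add Sh u.1 v.1
  map_smul' c v := by apply Subtype.ext; exact map_smul Sh c v.1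

lemma ShOp_mem : ShOp fil d - 1 ∈ opFil fil d d := by
  intro t v hv
  have e : (((ShOp fil d - 1) v : P fil d 0) : ℕ → B) = Del v.1 := by
    funext k
    rfl
  rw [e, add_comm]
  exact Del_P hv

lemma Lm_mem (h : IsFil fil m) {G : ℕ → B} (hG : G ∈ P fil d 0) {s : ℕ}
    (hG1 : G - 1 ∈ P fil d s) : Lm h G hG - 1 ∈ opFil fil d s := by
  intro t v hv
  have e : (((Lm h G hG - 1) v : P fil d 0) : ℕ → B) = (G - 1) * v.1 := by
    rw [sub_mul, one_mul]
    rfl
  rw [e]
  exact P_mul h hG1 hv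

end functions

end Pool.Agent.W_MP_7610c5_al.Mag
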