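import Mathlib
import Pool.Agent.W_MP_7610c5_al.Magnus2

/-!
The elimination step and the weighted form of the theorem of Magnus.
-/

namespace Pool.Agent.W_MP_7610c5_al.Mag

universe u

open scoped commutatorElement Pointwise

section elim
variable {B : Type} [Ring B] [Algebra ℚ B] {fil : ℕ → Submodule ℚ B} {m : ℕ}

/-- the functions attached to the new generators, by recursion on the argument. -/
def Gu {Y : Type u} {x : Y} (g : Y1 x → Bˣ) (y : {y : Y // y ≠ x}) : ℕ → ℕ → Bˣ
  | 0, i => g (y, i)
  | k + 1, i => Gu g y k (i + 1) * Gu g y k i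

theorem elim {Y : Type u} (w : Y → ℕ) (hw : ∀ y, 1 ≤ w y) (x : Y)
    (b : FreeGroup (Y1 x)) (hb : Triv w m (phi x b)) : Triv (w1 w x) m b := by
  classical
  intro B _ _ fil h g hg
  set d := w x with hd
  -- the functions
  let G : Y1 x → ℕ → Bˣ := fun p k => Gu g p.1 k p.2
  have hG1 : ∀ p : Y1 x, (fun k => ((G p k : Bˣ) : B)) - 1 ∈ P fil d (w p.1.1 + p.2 * d) := by
    intro p
    exact G_P (G := fun i k => ((Gu g p.1 k i : Bˣ) : B)) h
      (fun i => (hg (p.1, i)).1) (fun i k => by simp [Gu]) p.2
  have hG0 : ∀ p : Y1 x, (fun k => ((G p k : Bˣ) : B)) ∈ P fil d 0 := by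
    intro p
    have h1 := Submodule.add_mem _ (P_le h (Nat.zero_le _) (hG1 p)) (one_P (d := d) h)
    simpa using h1
  have hop := isFil_opFil (d := d) h
  -- the units
  obtain ⟨ux, hux, hux1, hux'⟩ := hop.exists_unit (hw x) (ShOp_mem (fil := fil) (d := d))
  have huy : ∀ y : {y : Y // y ≠ x}, ∃ u : (Module.End ℚ (P fil d 0))ˣ,
      (u : Module.End ℚ (P fil d 0)) = 1 + (Lm h _ (hG0 (y, 0)) - 1) ∧
      (u : Module.End ℚ (P fil d 0)) - 1 ∈ opFil fil d (w y.1) ∧
      ((u⁻¹ : (Module.End ℚ (P fil d 0))ˣ) : Module.End ℚ (P fil d 0)) - 1 ∈ opFil fil d (w y.1) := by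
    intro y
    refine hop.exists_unit (hw y.1) (Lm_mem h (hG0 (y, 0)) ?_)
    have := hG1 (y, 0)
    simpa using this
  choose uy huy huy1 huy' using huy
  let f : Y → (Module.End ℚ (P fil d 0))ˣ := fun y => if hy : y = x then ux else uy ⟨y, hy⟩
  have hfx : f x = ux := by simp [f]
  have hfy : ∀ y : {y : Y // y ≠ x}, f y.1 = uy y := by
    intro y; simp [f, y.2]
  have hfin : FreeGroup.lift f (phi x b) = 1 := by
    refine hb (Module.End ℚ (P fil d 0)) (opFil fil d) hop f (fun y => ?_)
    by_cases hy : y = x
    · subst hy
      rw [hfx]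
      exact ⟨hux1, hux'⟩
    · rw [hfy ⟨y, hy⟩]
      exact ⟨huy1 ⟨y, hy⟩, huy' ⟨y, hy⟩⟩
  -- action of the letters
  have hxact : ∀ (v : P fil d 0) (k : ℕ),
      (((ux : Module.End ℚ (P fil d 0)) v : P fil d 0) : ℕ → B) k = (v : ℕ → B) (k + 1) := by
    intro v k
    have : (ux : Module.End ℚ (P fil d 0)) = ShOp fil d := by rw [hux]; abel
    rw [this]; rfl
  have hyact : ∀ (y : {y : Y // y ≠ x}) (v : P fil d 0) (k : ℕ),
      (((uy y : Module.End ℚ (P fil d 0)) v : P fil d 0) : ℕ → B) k
        = (G (y, 0) k : B) * (v : ℕ → B) k := by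
    intro y v k
    have : (uy y : Module.End ℚ (P fil d 0)) = Lm h _ (hG0 (y, 0)) := by rw [huy]; abel
    rw [this]; rfl
  have hcact : ∀ (y : {y : Y // y ≠ x}) (i : ℕ) (v : P fil d 0) (k : ℕ),
      (((FreeGroup.lift f (c x y.1 i) : (Module.End ℚ (P fil d 0))ˣ) :
        Module.End ℚ (P fil d 0)) v : ℕ → B) k = (G (y, i) k : B) * (v : ℕ → B) k := by
    intro y i
    induction i with
    | zero =>
      intro v k
      have : FreeGroup.lift f (c x y.1 0) = uy y := by simp [c, hfy]
      rw [this]
      exact hyact y v k
    | succ i ih =>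
      intro v k
      set T := FreeGroup.lift f (c x y.1 i) with hT
      have e : FreeGroup.lift f (c x y.1 (i + 1)) = ux * T * ux⁻¹ * T⁻¹ := by
        simp [c, commutatorElement_def, hfx, hT]
      rw [e]
      obtain ⟨v', rfl⟩ : ∃ v', v = ((T * ux : (Module.End ℚ (P fil d 0))ˣ) :
          Module.End ℚ (P fil d 0)) v' := by
        refine ⟨(((T * ux)⁻¹ : (Module.End ℚ (P fil d 0))ˣ) : Module.End ℚ (P fil d 0)) v, ?_⟩
        rw [← Module.End.mul_apply, Units.mul_inv, Module.End.one_apply]
      have e2 : (((ux * T * ux⁻¹ * T⁻¹ : (Module.End ℚ (P fil d 0))ˣ) : Module.End ℚ (P fil d 0))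
          (((T * ux : (Module.End ℚ (P fil d 0))ˣ) : Module.End ℚ (P fil d 0)) v'))
          = ((ux * T : (Module.End ℚ (P fil d 0))ˣ) : Module.End ℚ (P fil d 0)) v' := by
        rw [← Module.End.mul_apply, ← Units.val_mul]
        congr 2
        group
      rw [e2, Units.val_mul, Units.val_mul, Module.End.mul_apply, Module.End.mul_apply, hxact, ih,
        ih, hxact]
      have e3 : G (y, i) (k + 1) = G (y, i + 1) k * G (y, i) k := rfl
      rw [e3, Units.val_mul, mul_assoc]
  -- action of the words
  have hact : ∀ (b : FreeGroup (Y1 x)) (v : P fil d 0) (k : ℕ),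
      (((FreeGroup.lift f (phi x b) : (Module.End ℚ (P fil d 0))ˣ) :
        Module.End ℚ (P fil d 0)) v : ℕ → B) k
        = ((FreeGroup.lift G b : ℕ → Bˣ) k : B) * (v : ℕ → B) k := by
    intro b
    induction b using FreeGroup.induction_on with
    | C1 => intro v k; simp
    | of p =>
      intro v k
      have e1 : phi x (FreeGroup.of p) = c x p.1.1 p.2 := by simp [phi]
      rw [e1, hcact p.1 p.2 v k]
      simp
    | inv_of p ih =>
      intro v k
      set T := FreeGroup.lift f (phi x (FreeGroup.of p)) with hT
      obtain ⟨v', rfl⟩ : ∃ v', v = (T : Module.End ℚ (P fil d 0)) v' := by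
        refine ⟨((T⁻¹ : (Module.End ℚ (P fil d 0))ˣ) : Module.End ℚ (P fil d 0)) v, ?_⟩
        rw [← Module.End.mul_apply, Units.mul_inv, Module.End.one_apply]
      rw [map_inv, map_inv, map_inv, ← hT, ← Module.End.mul_apply, Units.inv_mul,
        Module.End.one_apply, ih, Pi.inv_apply, ← mul_assoc, Units.inv_mul, one_mul]
    | mul a b iha ihb =>
      intro v k
      rw [map_mul, map_mul, map_mul, Units.val_mul, Module.End.mul_apply, iha, ihb, Pi.mul_apply,
        Units.val_mul, mul_assoc]
  -- conclusion
  have h1 := hact b ⟨1, one_P h⟩ 0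
  rw [hfin] at h1
  have h2 : ((FreeGroup.lift G b : ℕ → Bˣ) 0 : B) = 1 := by
    simpa using h1.symm
  have h3 : (FreeGroup.lift G b : ℕ → Bˣ) 0 = FreeGroup.lift g b := by
    have : (Pi.evalMonoidHom (fun _ : ℕ => Bˣ) 0).comp (FreeGroup.lift G) = FreeGroup.lift g := by
      ext p
      simp [G, Gu]
    exact DFunLike.congr_fun this b
  rw [h3] at h2
  exact Units.ext h2

end elim

/-! ### the exponent of the eliminated generator -/

/-- the test algebra. -/
def dfil (d : ℕ) (i : ℕ) : Submodule ℚ (DualNumber ℚ) :=
  if i = 0 then ⊤ else if i ≤ d then LinearMap.ker (TrivSqZeroExt.fstHom ℚ ℚ ℚ).toLinearMap else ⊥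

lemma dfil_isFil (d m : ℕ) (hdm : d < m) : IsFil (dfil d) m where
  one := by simp [dfil]
  mul := by
    intro i j a b ha hb
    unfold dfil at *
    by_cases hi : i = 0
    · subst hi
      by_cases hj : j = 0
      · subst hj; simp
      · simp only [hj, if_false] at hb
        simp only [zero_add, hj, if_false]
        split_ifs at hb ⊢ with h1
        · simp at hb ⊢
          simp [hb]
        · simp at hb ⊢
          simp [hb]
    · simp only [hi, if_false] at ha
      have hij : i + j ≠ 0 := by omega
      simp only [hij, if_false]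
      by_cases hj : j = 0
      · subst hj
        simp only [add_zero]
        split_ifs at ha ⊢ with h1
        · simp at ha ⊢
          simp [ha]
        · simp at ha ⊢
          simp [ha]
      · simp only [hj, if_false] at hb
        by_cases h1 : i ≤ d
        · by_cases h2 : j ≤ d
          · simp only [h1, h2, if_true] at ha hb
            have : a * b = 0 := by
              simp at ha hb
              ext <;> simp [ha, hb]
            rw [this]; exact Submodule.zero_mem _
          · simp only [h2, if_false] at hb
            rw [(Submodule.mem_bot ℚ).1 hb, mul_zero]; exact Submodule.zero_mem _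
        · simp only [h1, if_false] at ha
          rw [(Submodule.mem_bot ℚ).1 ha, zero_mul]; exact Submodule.zero_mem _
  anti := by
    intro i
    unfold dfil
    by_cases hi : i = 0
    · subst hi; simp
    · simp only [hi, if_false, Nat.succ_ne_zero]
      by_cases h1 : i + 1 ≤ d
      · have h2 : i ≤ d := by omega
        simp [h1, h2]
      · simp [h1]
  bot := by
    unfold dfil
    have h1 : m ≠ 0 := by omega
    have h2 : ¬ m ≤ d := by omega
    simp [h1, h2]

/-- the one parameter group in the test algebra. -/
def dhom : Multiplicative ℚ →* (DualNumber ℚ)ˣ where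
  toFun t :=
    { val := 1 + TrivSqZeroExt.inr (Multiplicative.toAdd t)
      inv := 1 + TrivSqZeroExt.inr (-Multiplicative.toAdd t)
      val_inv := by
        ext <;> simp
      inv_val := by
        ext <;> simp }
  map_one' := by
    ext <;> simp
  map_mul' s t := by
    apply Units.ext
    ext <;> simp [add_comm]

lemma dhom_inj {t : ℚ} (h : dhom (Multiplicative.ofAdd t) = 1) : t = 0 := by
  have h1 := congrArg (fun u : (DualNumber ℚ)ˣ => TrivSqZeroExt.snd (u : DualNumber ℚ)) h
  simpa [dhom] using h1

theorem exponent_zero {Y : Type u} {w : Y → ℕ} (hw : ∀ y, 1 ≤ w y) (x : Y) {m : ℕ}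
    (hm : w x < m) {e : ℤ} {b : FreeGroup (Y1 x)} {z : FreeGroup Y} (hz : Mem w m z)
    (ha : Triv w m (FreeGroup.of x ^ e * (phi x b * z))) : e = 0 := by
  classical
  have hfil := dfil_isFil (w x) m hm
  let f : Y → (DualNumber ℚ)ˣ := fun y => if y = x then dhom (Multiplicative.ofAdd 1) else 1
  have hf : ∀ y, (f y : DualNumber ℚ) - 1 ∈ dfil (w x) (w y) ∧
      (((f y)⁻¹ : (DualNumber ℚ)ˣ) : DualNumber ℚ) - 1 ∈ dfil (w x) (w y) := by
    intro y
    by_cases hy : y = x
    · subst hy
      have h1 : w y ≠ 0 := by have := hw y; omega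
      simp only [f, if_true, dfil, h1, if_false, le_refl]
      constructor
      · simp [dhom]
      · rw [← map_inv]
        simp [dhom]
    · simp [f, hy]
  have h1 := ha _ _ hfil f hf
  have h2 := hz.triv _ _ hfil f hf
  have hc : ∀ (y : {y : Y // y ≠ x}) (i : ℕ), FreeGroup.lift f (c x y.1 i) = 1 := by
    intro y i
    induction i with
    | zero => simp [c, f, y.2]
    | succ i ih => simp [c, commutatorElement_def, ih]
  have h3 : FreeGroup.lift f (phi x b) = 1 := by
    have : (FreeGroup.lift f).comp (phi x) = 1 := by
      apply FreeGroup.ext_hom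
      intro p
      simp [phi, hc]
    exact DFunLike.congr_fun this b
  rw [map_mul, map_mul, map_zpow, h2, h3, FreeGroup.lift_apply_of] at h1
  simp only [f, if_true, mul_one] at h1
  rw [← map_zpow, ← ofAdd_zsmul] at h1
  have h4 := dhom_inj h1
  simpa using h4

/-! ### the main induction -/

theorem main {m : ℕ} : ∀ (t : ℕ) {Y : Type u} (w : Y → ℕ), (∀ y, 1 ≤ w y) →
    (∀ k, {y | w y = k}.Finite) → (∀ y, m ≤ w y + t) → ∀ a : FreeGroup Y, Triv w m a →
      Mem w m a := by
  intro t
  induction t with
  | zero =>
    intro Y w hw _ hwt a ha0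
    clear ha0
    induction a using FreeGroup.induction_on with
    | C1 => exact Mem.one _
    | of y => exact (Mem.of y).anti (hwt y)
    | inv_of y h => exact h.inv
    | mul a b ha hb => exact ha.mul hb
  | succ t iht =>
    have key : ∀ (n : ℕ) {Y : Type u} (w : Y → ℕ), (∀ y, 1 ≤ w y) →
        (∀ k, {y | w y = k}.Finite) → (∀ y, m ≤ w y + (t + 1)) →
        {y | w y + (t + 1) = m}.ncard = n → ∀ a : FreeGroup Y, Triv w m a → Mem w m a := by
      intro n
      induction n with
      | zero =>
        intro Y w hw hfin hwt hn a ha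
        have hfin' : {y | w y + (t + 1) = m}.Finite :=
          (hfin (m - (t + 1))).subset (fun y hy => by
            simp only [Set.mem_ofPred_eq] at hy ⊢; omega)
        rw [Set.ncard_eq_zero hfin'] at hn
        refine iht w hw hfin (fun y => ?_) a ha
        have h1 := hwt y
        by_contra hcon
        have h2 : y ∈ {y | w y + (t + 1) = m} := by
          simp only [Set.mem_ofPred_eq]; omega
        rw [hn] at h2
        exact h2
      | succ n ihn =>
        intro Y w hw hfin hwt hn a ha
        have hfin' : {y | w y + (t + 1) = m}.Finite :=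
          (hfin (m - (t + 1))).subset (fun y hy => by
            simp only [Set.mem_ofPred_eq] at hy ⊢; omega)
        have hne : {y | w y + (t + 1) = m}.Nonempty := by
          rw [← Set.ncard_pos hfin']; omega
        obtain ⟨x, hx⟩ := hne
        simp only [Set.mem_ofPred_eq] at hx
        obtain ⟨e, b, z, hz, rfl⟩ := decomp w x (hw x) m a
        have he := exponent_zero hw x (by omega) hz ha
        subst he
        have hb : Triv w m (phi x b) := by
          intro B _ _ fil hfil f hf
          have h1 := ha B fil hfil f hf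
          have h2 := hz.triv B fil hfil f hf
          rwa [zpow_zero, one_mul, map_mul, h2, mul_one] at h1
        have hb1 := elim w hw x b hb
        have hmem : Mem (w1 w x) m b := by
          refine ihn (w1 w x) ?_ ?_ ?_ ?_ b hb1
          · intro p; unfold w1; have := hw p.1.1; omega
          · intro k
            have : {p : Y1 x | w1 w x p = k} ⊆
                ({y : {y : Y // y ≠ x} | ∃ j ≤ k, w y.1 = j}) ×ˢ (Set.Iic k) := by
              rintro ⟨y, i⟩ hp
              simp only [Set.mem_ofPred_eq, w1] at hp
              have h1 := hw x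
              have h2 : i ≤ i * w x := Nat.le_mul_of_pos_right i h1
              simp only [Set.mem_prod, Set.mem_ofPred_eq, Set.mem_Iic]
              exact ⟨⟨w y.1, by omega, rfl⟩, by omega⟩
            refine Set.Finite.subset (Set.Finite.prod ?_ (Set.finite_Iic k)) this
            have h3 : {y : {y : Y // y ≠ x} | ∃ j ≤ k, w y.1 = j} =
                ⋃ j ∈ Set.Iic k, {y : {y : Y // y ≠ x} | w y.1 = j} := by
              ext y; simp
            rw [h3]
            refine Set.Finite.biUnion (Set.finite_Iic k) (fun j _ => ?_)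
            exact Set.Finite.preimage (f := (Subtype.val : {y : Y // y ≠ x} → Y))
              (Subtype.val_injective.injOn) (hfin j)
          · intro p
            have := hwt p.1.1
            unfold w1
            omega
          · have h1 : {p : Y1 x | w1 w x p + (t + 1) = m} =
                (fun y : {y : Y // y ≠ x} => ((y, 0) : Y1 x)) ''
                  (Subtype.val ⁻¹' {y | w y + (t + 1) = m}) := by
              ext ⟨y, i⟩
              simp only [Set.mem_ofPred_eq, w1, Set.mem_image, Set.mem_preimage, Prod.mk.injEq]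
              constructor
              · intro h
                have h1 := hw x
                have h2 : i ≤ i * w x := Nat.le_mul_of_pos_right i h1
                have h3 := hwt y.1
                have h4 : i * w x = 0 := by omega
                have h5 : i = 0 := by omega
                exact ⟨y, by omega, rfl, h5.symm⟩
              · rintro ⟨y', h1, rfl, rfl⟩
                simpa using h1
            rw [h1, Set.ncard_image_of_injective _ (fun a b hab => (Prod.mk.inj hab).1)]
            have h2 : (Subtype.val ⁻¹' {y | w y + (t + 1) = m} : Set {y : Y // y ≠ x}).ncard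
                = ({y | w y + (t + 1) = m} \ {x}).ncard := by
              rw [← Set.ncard_image_of_injective _ Subtype.val_injective]
              congr 1
              ext y
              simp [and_comm]
            rw [h2, Set.ncard_sdiff_singleton_of_mem (by simpa using hx)]
            omega
        rw [zpow_zero, one_mul]
        exact (phi_mem w x hmem).mul hz
    intro Y w hw hfin hwt a ha
    exact key _ w hw hfin hwt rfl a ha

end Pool.Agent.W_MP_7610c5_al.Mag
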