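import Mathlib
import Pool.Agent.W_MP_7610c5_al.Defs
import Pool.Agent.W_MP_7610c5_al.Magnus3

/-!
The theorem of Magnus: in a free group, a word whose difference with one lies in the power
`n + 1` of the rational augmentation ideal lies in the term `n` (counted from zero) of the lower
central series.
-/

namespace Pool.Agent.W_MP_7610c5_al

universe u

open scoped commutatorElement Pointwise

namespace Mag

/-! ### commutators of terms of the lower central series -/

lemma three_subgroups {G : Type u} [Group G] (A B C N : Subgroup G) [N.Normal]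
    (h1 : ⁅⁅B, C⁆, A⁆ ≤ N) (h2 : ⁅⁅C, A⁆, B⁆ ≤ N) : ⁅⁅A, B⁆, C⁆ ≤ N := by
  have hk : ∀ D : Subgroup G, D ≤ N ↔ D.map (QuotientGroup.mk' N) = ⊥ := by
    intro D
    rw [Subgroup.map_eq_bot_iff, QuotientGroup.ker_mk']
  rw [hk] at h1 h2 ⊢
  simp only [Subgroup.map_commutator] at h1 h2 ⊢
  exact Subgroup.commutator_commutator_eq_bot_of_rotate h1 h2

lemma comm_lcs {G : Type u} [Group G] (j : ℕ) : ∀ i,
    ⁅(⊤ : Subgroup G).lowerCentralSeries i, (⊤ : Subgroup G).lowerCentralSeries j⁆
      ≤ (⊤ : Subgroup G).lowerCentralSeries (i + j + 1) := by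
  induction j with
  | zero => intro i; exact le_of_eq rfl
  | succ j ih =>
    intro i
    rw [Subgroup.commutator_comm, Subgroup.lowerCentralSeries_succ _ j]
    apply three_subgroups
    · rw [Subgroup.commutator_comm ⊤, ← Subgroup.lowerCentralSeries_succ]
      have := ih (i + 1)
      have e : i + 1 + j + 1 = i + (j + 1) + 1 := by ring
      rwa [e] at this
    · have h1 := Subgroup.commutator_mono (ih i) (le_refl (⊤ : Subgroup G))
      rw [← Subgroup.lowerCentralSeries_succ] at h1
      exact h1

lemma Mem.lcs {X : Type u} {k : ℕ} {a : FreeGroup X} (ha : Mem (fun _ : X => 1) k a) :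
    a ∈ (⊤ : Subgroup (FreeGroup X)).lowerCentralSeries (k - 1) := by
  induction ha with
  | of y => simp
  | one k => exact one_mem _
  | mul _ _ h1 h2 => exact mul_mem h1 h2
  | inv _ h => exact inv_mem h
  | @comm i j a b _ _ h1 h2 =>
    rcases Nat.eq_zero_or_pos i with rfl | hi
    · rw [zero_add, commutatorElement_def]
      have hN : ((⊤ : Subgroup (FreeGroup X)).lowerCentralSeries (j - 1)).Normal := inferInstance
      exact mul_mem (hN.conj_mem _ h2 a) (inv_mem h2)
    · rcases Nat.eq_zero_or_pos j with rfl | hj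
      · rw [add_zero, commutatorElement_def, mul_assoc, mul_assoc, ← mul_assoc b]
        have hN : ((⊤ : Subgroup (FreeGroup X)).lowerCentralSeries (i - 1)).Normal := inferInstance
        exact mul_mem h1 (hN.conj_mem _ (inv_mem h1) b)
      · have h3 := comm_lcs (j - 1) (i - 1) (Subgroup.commutator_mem_commutator h1 h2)
        have e : i - 1 + (j - 1) + 1 = i + j - 1 := by omega
        rwa [e] at h3
  | mono _ h => exact Subgroup.lowerCentralSeries_antitone _ (by omega) h

lemma mem_one {X : Type u} (a : FreeGroup X) : Mem (fun _ : X => 1) 1 a := by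
  induction a using FreeGroup.induction_on with
  | C1 => exact Mem.one 1
  | of y => exact Mem.of (w := fun _ : X => 1) y
  | inv_of y h => exact h.inv
  | mul a b ha hb => exact ha.mul hb

/-! ### from the augmentation ideal to triviality -/

lemma augHom_apply {G : Type u} [Group G] (z : MonoidAlgebra ℚ G) :
    augHom ℚ G z = z.coeff.sum fun _ r => r := by
  unfold augHom
  rw [MonoidAlgebra.lift_apply]
  simp [Finsupp.sum]

theorem triv_of_aug {X : Type u} {m : ℕ} {w : FreeGroup X}
    (hw : MonoidAlgebra.of ℚ (FreeGroup X) w - 1 ∈ augIdeal ℚ (FreeGroup X) ^ m) :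
    Triv (fun _ : X => 1) m w := by
  intro B _ _ fil h f hf
  let φ : MonoidAlgebra ℚ (FreeGroup X) →ₐ[ℚ] B :=
    MonoidAlgebra.lift ℚ B (FreeGroup X) ((Units.coeHom B).comp (FreeGroup.lift f))
  have hφ : ∀ z, φ z = z.coeff.sum fun g r => r • ((FreeGroup.lift f g : Bˣ) : B) := by
    intro z
    exact MonoidAlgebra.lift_apply _ _
  have hg : ∀ g : FreeGroup X, ((FreeGroup.lift f g : Bˣ) : B) - 1 ∈ fil 1 :=
    fun g => ((mem_one g).fil h hf).1
  have h0 : ∀ z, φ z ∈ fil 0 := by
    intro z
    rw [hφ]
    exact Submodule.sum_mem _ fun g _ => Submodule.smul_mem _ _ (h.zero_of_sub (hg g))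
  have h1 : ∀ z ∈ augIdeal ℚ (FreeGroup X), φ z ∈ fil 1 := by
    intro z hz
    have hz' : (z.coeff.sum fun _ r => r) = 0 := by
      rw [← augHom_apply]
      exact hz
    have e : φ z = z.coeff.sum fun g r => r • (((FreeGroup.lift f g : Bˣ) : B) - 1) := by
      rw [hφ]
      simp only [Finsupp.sum, smul_sub, Finset.sum_sub_distrib]
      rw [← Finset.sum_smul]
      have : (∑ i ∈ z.coeff.support, z.coeff i) = 0 := hz'
      rw [this, zero_smul, sub_zero]
    rw [e]
    exact Submodule.sum_mem _ fun g _ => Submodule.smul_mem _ _ (hg g)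
  have hk : ∀ k, ∀ z ∈ augIdeal ℚ (FreeGroup X) ^ k, φ z ∈ fil k := by
    intro k
    induction k with
    | zero => intro z _; exact h0 z
    | succ k ih =>
      intro z hz
      rw [Submodule.pow_succ] at hz
      refine Submodule.mul_induction_on hz ?_ ?_
      · intro a ha b hb
        rw [map_mul]
        exact h.mul (ih a ha) (h1 b hb)
      · intro a b ha hb
        rw [map_add]
        exact Submodule.add_mem _ ha hb
  have h2 := hk m _ hw
  rw [h.bot, Submodule.mem_bot, map_sub, map_one, sub_eq_zero] at h2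
  have h3 : φ (MonoidAlgebra.of ℚ (FreeGroup X) w) = ((FreeGroup.lift f w : Bˣ) : B) := by
    simp [φ]
  rw [h3] at h2
  exact Units.ext h2

/-! ### reduction to finitely many generators -/

lemma exists_finite_support {X : Type u} (w : FreeGroup X) :
    ∃ S : Set X, S.Finite ∧ w ∈ (FreeGroup.map (Subtype.val : S → X)).range := by
  induction w using FreeGroup.induction_on with
  | C1 => exact ⟨∅, Set.finite_empty, one_mem _⟩
  | of x =>
    exact ⟨{x}, Set.finite_singleton x, FreeGroup.of ⟨x, rfl⟩, by simp⟩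
  | inv_of x h =>
    obtain ⟨S, hS, h⟩ := h
    exact ⟨S, hS, inv_mem h⟩
  | mul a b ha hb =>
    obtain ⟨S, hS, a, rfl⟩ := ha
    obtain ⟨T, hT, b, rfl⟩ := hb
    refine ⟨S ∪ T, hS.union hT, mul_mem ?_ ?_⟩
    · refine ⟨FreeGroup.map (Set.inclusion Set.subset_union_left) a, ?_⟩
      rw [FreeGroup.map.comp]
      rfl
    · refine ⟨FreeGroup.map (Set.inclusion Set.subset_union_right) b, ?_⟩
      rw [FreeGroup.map.comp]
      rfl

theorem triv_lcs {X : Type u} {n : ℕ} {w : FreeGroup X} (hw : Triv (fun _ : X => 1) (n + 1) w) :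
    w ∈ (⊤ : Subgroup (FreeGroup X)).lowerCentralSeries n := by
  classical
  obtain ⟨S, hS, w', rfl⟩ := exists_finite_support w
  have h1 : Triv (fun _ : S => 1) (n + 1) w' := by
    intro B _ _ fil h f hf
    let f' : X → Bˣ := fun x => if hx : x ∈ S then f ⟨x, hx⟩ else 1
    have h2 := hw B fil h f' (by
      intro x
      by_cases hx : x ∈ S
      · simp only [f', hx, dif_pos]
        exact hf ⟨x, hx⟩
      · simp [f', hx])
    have e : (FreeGroup.lift f').comp (FreeGroup.map (Subtype.val : S → X)) = FreeGroup.lift f := by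
      apply FreeGroup.ext_hom
      intro x
      simp [f', x.2]
    rw [← e]
    exact h2
  have hfin : Finite S := hS
  have h2 : Mem (fun _ : S => 1) (n + 1) w' :=
    main (n + 1) (fun _ : S => 1) (fun _ => le_refl 1) (fun k => Set.toFinite _)
      (fun _ => by omega) w' h1
  have h3 := h2.lcs
  rw [Nat.add_sub_cancel] at h3
  have h4 := Subgroup.mem_map_of_mem (FreeGroup.map (Subtype.val : S → X)) h3
  rw [Subgroup.map_lowerCentralSeries] at h4
  have h5 : ∀ (A B : Subgroup (FreeGroup X)), A ≤ B → ∀ n,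
      A.lowerCentralSeries n ≤ B.lowerCentralSeries n := by
    intro A B hAB n
    induction n with
    | zero => exact hAB
    | succ n ih => exact Subgroup.commutator_mono ih hAB
  exact h5 _ _ le_top n h4

end Mag

/-- **Magnus.** -/
theorem magnus {X : Type*} (n : ℕ) (w : FreeGroup X)
    (hw : MonoidAlgebra.of ℚ (FreeGroup X) w - 1 ∈ augIdeal ℚ (FreeGroup X) ^ (n + 1)) :
    w ∈ (⊤ : Subgroup (FreeGroup X)).lowerCentralSeries n :=
  Mag.triv_lcs (Mag.triv_of_aug hw)

end Pool.Agent.W_MP_7610c5_al
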