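import Pool.Agent.W_MP_7610c5_al.Setup
import Pool.Agent.W_MP_7610c5_al.LogBasic
import Pool.Agent.W_MP_7610c5_al.Magnus

open MonoidAlgebra

namespace Pool.Agent.W_MP_7610c5_al

namespace ES

lemma mul_mem_pow_succ {B : Type*} [Ring B] (I : Ideal B) [I.IsTwoSided] {m : ℕ} {a b : B}
    (ha : a ∈ I) (hb : b ∈ I ^ m) : a * b ∈ I ^ (m + 1) := by
  rw [Ideal.IsTwoSided.pow_succ]
  exact Ideal.mul_mem_mul ha hb

lemma pow_succ_ind {B : Type*} [Ring B] (I : Ideal B) [I.IsTwoSided] {m : ℕ} {p : B → Prop}
    {y : B} (hy : y ∈ I ^ (m + 1)) (h1 : ∀ a ∈ I, ∀ b ∈ I ^ m, p (a * b))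
    (h2 : ∀ a b, p a → p b → p (a + b)) : p y := by
  rw [Ideal.IsTwoSided.pow_succ] at hy
  exact Submodule.mul_induction_on hy h1 h2

section gen

variable (G : Type) [Group G] (n : ℕ)

/-- the truncated rational group ring -/
abbrev TA : Type := MonoidAlgebra ℚ G ⧸ (augIdeal ℚ G ^ (n + 1))

/-- the quotient map -/
noncomputable def qm : MonoidAlgebra ℚ G →ₐ[ℚ] TA G n := Ideal.Quotient.mkₐ ℚ _

lemma qm_surj : Function.Surjective (qm G n) := Ideal.Quotient.mkₐ_surjective _ _

/-- the image of the augmentation ideal -/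
noncomputable def IA : Ideal (TA G n) :=
  haveI : RingHomSurjective (qm G n).toRingHom := ⟨qm_surj G n⟩
  Ideal.map (qm G n).toRingHom (augIdeal ℚ G)

instance IA_two : (IA G n).IsTwoSided := by
  have : RingHomSurjective (qm G n).toRingHom := ⟨qm_surj G n⟩
  unfold IA
  infer_instance

variable {G n}

lemma qm_eq_zero {x : MonoidAlgebra ℚ G} : qm G n x = 0 ↔ x ∈ augIdeal ℚ G ^ (n + 1) := by
  unfold qm
  exact Ideal.Quotient.eq_zero_iff_mem

lemma mem_IA {y : TA G n} : y ∈ IA G n ↔ ∃ x ∈ augIdeal ℚ G, qm G n x = y := by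
  unfold IA
  exact Ideal.mem_map_iff_of_surjective (qm G n).toRingHom (qm_surj G n)

lemma mem_IA_pow {m : ℕ} {y : TA G n} (hy : y ∈ IA G n ^ m) :
    ∃ x ∈ augIdeal ℚ G ^ m, qm G n x = y := by
  induction m generalizing y with
  | zero =>
    obtain ⟨x, rfl⟩ := qm_surj G n y
    refine ⟨x, ?_, rfl⟩
    rw [Submodule.pow_zero, Ideal.one_eq_top]; trivial
  | succ m ih =>
    refine pow_succ_ind (IA G n) (p := fun y => ∃ x ∈ augIdeal ℚ G ^ (m + 1), qm G n x = y)
      hy ?_ ?_
    · intro a ha b hb
      obtain ⟨a', ha', rfl⟩ := mem_IA.1 ha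
      obtain ⟨b', hb', rfl⟩ := ih hb
      exact ⟨a' * b', mul_mem_pow_succ _ ha' hb', map_mul _ _ _⟩
    · rintro a b ⟨a', ha', rfl⟩ ⟨b', hb', rfl⟩
      exact ⟨a' + b', add_mem ha' hb', map_add _ _ _⟩

lemma IA_nil : IA G n ^ (n + 1) = ⊥ := by
  rw [eq_bot_iff]
  intro y hy
  obtain ⟨x, hx, rfl⟩ := mem_IA_pow hy
  exact qm_eq_zero.2 hx

variable (G n)

/-- the group map into the truncated group ring -/
noncomputable def kA : G →* TA G n := (qm G n).toRingHom.toMonoidHom.comp (of ℚ G)

variable {G n}

lemma kA_apply (g : G) : kA G n g = qm G n (of ℚ G g) := rfl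

lemma kA_mem (g : G) : kA G n g - 1 ∈ IA G n := by
  rw [mem_IA]
  exact ⟨of ℚ G g - 1, of_sub_one_mem g, by rw [map_sub, map_one, kA_apply]⟩

lemma kA_eq_one {g : G} (h : kA G n g = 1) : of ℚ G g - 1 ∈ augIdeal ℚ G ^ (n + 1) := by
  rw [← qm_eq_zero, map_sub, map_one, ← kA_apply, h, sub_self]

/-- the differences of the function `kA` -/
lemma fil_kA (k : ℕ) : Fil (IA G n) 1 k 0 (fun x => kA G n x - 1) := by
  intro l _ x m hm
  have hm' : m ≤ l.length := by omega
  refine ideal_pow_anti _ hm' ?_
  have e : (fun x => kA G n x - 1) = (fun x => kA G n x) - fun _ => 1 := rfl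
  rw [e, diffs_sub]
  have key : ∀ l : List G, ∃ t ∈ IA G n ^ l.length, ∀ x, diffs l (fun x => kA G n x) x
      = kA G n x * t := by
    intro l
    induction l with
    | nil =>
      refine ⟨1, ?_, fun x => by rw [mul_one]; rfl⟩
      rw [List.length_nil, Submodule.pow_zero, Ideal.one_eq_top]; trivial
    | cons u l ih =>
      obtain ⟨t, ht, h⟩ := ih
      refine ⟨(kA G n u - 1) * t, ?_, ?_⟩
      · rw [List.length_cons]
        exact mul_mem_pow_succ _ (kA_mem u) ht
      · intro x
        rw [diffs_cons, diff_apply, h, h, map_mul]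
        noncomm_ring
  obtain ⟨t, ht, h⟩ := key l
  rcases Nat.eq_zero_or_pos l.length with h0 | h0
  · rw [h0, Submodule.pow_zero, Ideal.one_eq_top]; trivial
  · have : diffs l (fun _ : G => (1 : TA G n)) = 0 := Deg.const (1 : TA G n) l h0
    rw [this, sub_zero, h]
    exact Ideal.mul_mem_left _ _ ht

lemma fil_pow {j : ℕ} (hj : j ≠ 0) (k : ℕ) : Fil (IA G n) 1 k 0 (fun x => (kA G n x - 1) ^ j) := by
  obtain ⟨i, rfl⟩ := Nat.exists_eq_succ_of_ne_zero hj
  clear hj
  induction i with
  | zero =>
    have e : (fun x => (kA G n x - 1) ^ (0 + 1)) = fun x => kA G n x - 1 := by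
      funext x; rw [zero_add, pow_one]
    rw [Nat.succ_eq_add_one, e]; exact fil_kA k
  | succ i ih =>
    have e : (fun x => (kA G n x - 1) ^ (i + 1 + 1)) = (fun x => (kA G n x - 1) ^ (i + 1)) *
        fun x => kA G n x - 1 := by
      funext x; rw [pow_succ]; rfl
    rw [Nat.succ_eq_add_one, e]
    have := Fil.mul (IA G n) Nat.one_pos k ih (fil_kA k)
    rwa [add_zero] at this

lemma diffs_sum {A ι : Type*} [AddCommGroup A] (s : Finset ι) (l : List G) (f : ι → G → A) :
    diffs l (fun x => ∑ i ∈ s, f i x) = fun x => ∑ i ∈ s, diffs l (f i) x := by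
  classical
  induction s using Finset.induction_on with
  | empty =>
    simp only [Finset.sum_empty]
    exact diffs_zero l
  | insert a s ha ih =>
    have e : (fun x => ∑ i ∈ insert a s, f i x) = f a + fun x => ∑ i ∈ s, f i x := by
      funext x; rw [Finset.sum_insert ha]; rfl
    rw [e, diffs_add, ih]
    funext x
    rw [Finset.sum_insert ha]; rfl

lemma diffs_lg {l : List G} (hl : l.length = n + 1) :
    diffs l (fun x => lg n (kA G n x)) = 0 := by
  unfold lg
  rw [diffs_sum]
  funext x
  refine Finset.sum_eq_zero fun j hj => ?_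
  have hj' : j ≠ 0 := by
    have := (Finset.mem_Icc.1 hj).1
    omega
  have e : (fun x => lc j • (kA G n x - 1) ^ j) = fun x =>
      (DistribSMul.toAddMonoidHom (TA G n) (lc j)) ((kA G n x - 1) ^ j) := rfl
  rw [e, diffs_comp]
  have h := fil_pow (G := G) (n := n) hj' (n + 1) l hl.le x (n + 1) (by omega)
  rw [IA_nil] at h
  have h' : diffs l (fun x => (kA G n x - 1) ^ j) x = 0 := h
  show (DistribSMul.toAddMonoidHom (TA G n) (lc j)) (diffs l (fun x => (kA G n x - 1) ^ j) x) = 0
  rw [h', map_zero]

/-- the logarithm is additive on the group elements -/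
theorem exists_log : ∃ Λ : TA G n →+ TA G n, ∀ g, Λ (kA G n g) = lg n (kA G n g) := by
  set L : MonoidAlgebra ℚ G →ₗ[ℚ] TA G n := lext ℚ (fun g => lg n (kA G n g)) with hL
  have hker : ∀ x, qm G n x = 0 → L x = 0 := by
    intro x hx
    exact lext_eq_zero (fun l hl => diffs_lg hl) (qm_eq_zero.1 hx)
  refine ⟨AddMonoidHom.liftOfSurjective (qm G n).toRingHom.toAddMonoidHom (qm_surj G n)
    ⟨L.toAddMonoidHom, ?_⟩, ?_⟩
  · intro x hx
    exact hker x hx
  · intro g
    have := AddMonoidHom.liftOfRightInverse_comp_apply (qm G n).toRingHom.toAddMonoidHom _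
      (Function.rightInverse_surjInv (qm_surj G n)) ⟨L.toAddMonoidHom, fun x hx => hker x hx⟩
      (of ℚ G g)
    refine this.trans ?_
    show L (of ℚ G g) = _
    rw [hL, lext_of]

variable (G n)

/-- the integral group ring mapped to the truncated group ring -/
noncomputable def psi : MonoidAlgebra ℤ G →+* TA G n :=
  (MonoidAlgebra.lift ℤ (TA G n) G (kA G n)).toRingHom

/-- its image -/
noncomputable def TT : Subring (TA G n) := (psi G n).range

/-- the map onto the image -/
noncomputable def ps : MonoidAlgebra ℤ G →+* TT G n := (psi G n).rangeRestrict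

lemma ps_surj : Function.Surjective (ps G n) := RingHom.rangeRestrict_surjective _

/-- the group map into the image -/
noncomputable def kT : G →* TT G n := (ps G n).toMonoidHom.comp (of ℤ G)

variable {G n}

lemma kT_apply (g : G) : kT G n g = ps G n (of ℤ G g) := rfl

lemma coe_kT (g : G) : ((kT G n g : TT G n) : TA G n) = kA G n g := by
  show psi G n (of ℤ G g) = _
  simp [psi]

/-- the induced augmentation -/
lemma exists_eps : ∃ ε : TA G n →+* ℚ, (∀ x, ε (qm G n x) = augHom ℚ G x) := by
  have h : ∀ a ∈ augIdeal ℚ G ^ (n + 1), (augHom ℚ G).toRingHom a = 0 := by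
    intro a ha
    have h1 : augIdeal ℚ G ^ (n + 1) ≤ augIdeal ℚ G ^ 1 := ideal_pow_anti _ (by omega)
    have h2 := h1 ha
    rw [Submodule.pow_one] at h2
    exact h2
  exact ⟨Ideal.Quotient.lift _ _ h, fun x => Ideal.Quotient.lift_mk _ _ _⟩

lemma aug_of_psi {x : MonoidAlgebra ℤ G} (hx : psi G n x ∈ IA G n) : x ∈ augIdeal ℤ G := by
  obtain ⟨ε, hε⟩ := exists_eps (G := G) (n := n)
  have h1 : ε (psi G n x) = 0 := by
    obtain ⟨y, hy, h⟩ := mem_IA.1 hx
    rw [← h, hε]
    exact hy
  have h2 : ∀ x, ε (psi G n x) = ((augHom ℤ G x : ℤ) : ℚ) := by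
    intro x
    induction x using MonoidAlgebra.induction_linear with
    | zero => simp
    | add x y hx hy => rw [map_add, map_add, hx, hy, map_add, Int.cast_add]
    | single g r =>
      rw [← smul_of, map_zsmul, map_zsmul, map_zsmul, augHom_of]
      have : psi G n (of ℤ G g) = kA G n g := coe_kT g
      rw [this, kA_apply, hε, augHom_of]
      simp
  rw [h2] at h1
  have h3 : augHom ℤ G x = 0 := by exact_mod_cast h1
  exact h3

lemma span_kT (t : TT G n) : t ∈ AddSubgroup.closure (Set.range (kT G n)) := by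
  obtain ⟨x, rfl⟩ := ps_surj G n t
  have := mem_span_of (k := ℤ) x
  induction this using Submodule.span_induction with
  | zero => rw [map_zero]; exact zero_mem _
  | add b c _ _ hb hc => rw [map_add]; exact add_mem hb hc
  | smul r b _ hb => rw [map_zsmul]; exact zsmul_mem hb _
  | mem b hb =>
    obtain ⟨g, rfl⟩ := hb
    exact AddSubgroup.subset_closure ⟨g, rfl⟩

lemma spanP_kT {t : TT G n} (ht : (t : TA G n) ∈ IA G n) :
    t ∈ AddSubgroup.closure (Set.range fun g => kT G n g - 1) := by
  obtain ⟨x, rfl⟩ := ps_surj G n t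
  have := augIdeal_span (aug_of_psi (x := x) ht)
  clear ht
  induction this using Submodule.span_induction with
  | zero => rw [map_zero]; exact zero_mem _
  | add b c _ _ hb hc => rw [map_add]; exact add_mem hb hc
  | smul r b _ hb => rw [map_zsmul]; exact zsmul_mem hb _
  | mem b hb =>
    obtain ⟨g, rfl⟩ := hb
    refine AddSubgroup.subset_closure ⟨g, ?_⟩
    show _ = ps G n (of ℤ G g - 1)
    rw [map_sub, map_one]; rfl

variable (G n)

/-- the setup -/
noncomputable def theSetup : Setup n G (TT G n) where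
  κ := kT G n
  P := Ideal.comap (TT G n).subtype (IA G n)
  two := inferInstance
  nil := by
    have key : ∀ m (t : TT G n), t ∈ Ideal.comap (TT G n).subtype (IA G n) ^ m →
        (t : TA G n) ∈ IA G n ^ m := by
      intro m
      induction m with
      | zero =>
        intro t _
        rw [Submodule.pow_zero, Ideal.one_eq_top]; trivial
      | succ m ih =>
        intro t ht
        refine pow_succ_ind (Ideal.comap (TT G n).subtype (IA G n))
          (p := fun t : TT G n => (t : TA G n) ∈ IA G n ^ (m + 1)) ht ?_ ?_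
        · intro a ha b hb
          exact mul_mem_pow_succ _ ha (ih _ hb)
        · intro a b ha hb
          exact add_mem ha hb
    rw [eq_bot_iff]
    intro t ht
    have := key _ t ht
    rw [IA_nil] at this
    exact Subtype.ext this
  memP := by
    intro x
    show ((kT G n x - 1 : TT G n) : TA G n) ∈ IA G n
    have : ((kT G n x - 1 : TT G n) : TA G n) = kA G n x - 1 := by
      rw [← coe_kT]; rfl
    rw [this]
    exact kA_mem x
  span := span_kT
  spanP := fun _ ht => spanP_kT ht

end gen

section fin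

variable {T : Type} [Ring T] {n r : ℕ} (s : Setup n (FreeGroup (Fin r)) T)

/-- products of the elements `κ x_i - 1` -/
def prX (l : List (Fin r)) : T := (l.map fun i => s.κ (FreeGroup.of i) - 1).prod

lemma prX_mem (l : List (Fin r)) : prX s l ∈ s.P ^ l.length := by
  induction l with
  | nil => rw [List.length_nil, Submodule.pow_zero, Ideal.one_eq_top]; trivial
  | cons i l ih =>
    have : prX s (i :: l) = (s.κ (FreeGroup.of i) - 1) * prX s l := by simp [prX]
    rw [this, List.length_cons, Ideal.IsTwoSided.pow_succ]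
    exact Ideal.mul_mem_mul (s.memP _) ih

/-- the span of these products -/
def SS : Submodule ℤ T := Submodule.span ℤ (prX s '' {l : List (Fin r) | l.length ≤ n})

lemma prX_mem_SS (l : List (Fin r)) : prX s l ∈ SS s := by
  rcases Nat.lt_or_ge n l.length with h | h
  · have h1 := ideal_pow_anti s.P (show n + 1 ≤ l.length from h) (prX_mem s l)
    rw [s.nil] at h1
    have h2 : prX s l = 0 := h1
    rw [h2]; exact zero_mem _
  · exact Submodule.subset_span ⟨l, h, rfl⟩

lemma X_mul_mem (i : Fin r) {t : T} (ht : t ∈ SS s) :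
    (s.κ (FreeGroup.of i) - 1) * t ∈ SS s := by
  unfold SS at ht
  induction ht using Submodule.span_induction with
  | zero => rw [mul_zero]; exact zero_mem _
  | add b c _ _ hb hc => rw [mul_add]; exact add_mem hb hc
  | smul a b _ hb => rw [mul_smul_comm]; exact Submodule.smul_mem _ _ hb
  | mem b hb =>
    obtain ⟨l, _, rfl⟩ := hb
    have : (s.κ (FreeGroup.of i) - 1) * prX s l = prX s (i :: l) := by simp [prX]
    rw [this]
    exact prX_mem_SS s _

lemma k_mul_mem (w : FreeGroup (Fin r)) : ∀ {t : T}, t ∈ SS s → s.κ w * t ∈ SS s := by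
  induction w using FreeGroup.induction_on with
  | C1 => intro t ht; rw [map_one, one_mul]; exact ht
  | of i =>
    intro t ht
    have h := add_mem (X_mul_mem s i ht) ht
    rwa [sub_mul, one_mul, sub_add_cancel] at h
  | inv_of i h =>
    intro t ht
    set x := s.κ (FreeGroup.of i) - 1 with hx
    have hx0 : x ^ (n + 1) = 0 := by
      have h1 : ∀ m, x ^ m ∈ s.P ^ m := by
        intro m
        induction m with
        | zero => rw [Submodule.pow_zero, Ideal.one_eq_top]; trivial
        | succ m ih =>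
          rw [_root_.pow_succ', Ideal.IsTwoSided.pow_succ]
          exact Ideal.mul_mem_mul (s.memP _) ih
      have h2 := h1 (n + 1)
      rw [s.nil] at h2
      exact h2
    have h3 : s.κ (FreeGroup.of i) * ∑ k ∈ Finset.range (n + 1), (-x) ^ k = 1 := by
      have h4 := mul_neg_geom_sum (-x) (n + 1)
      rw [neg_pow x (n + 1), hx0, mul_zero, sub_zero, sub_neg_eq_add] at h4
      have h5 : 1 + x = s.κ (FreeGroup.of i) := by rw [hx]; abel
      rwa [h5] at h4
    have h6 : s.κ (FreeGroup.of i)⁻¹ = ∑ k ∈ Finset.range (n + 1), (-x) ^ k := by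
      calc s.κ (FreeGroup.of i)⁻¹ = s.κ (FreeGroup.of i)⁻¹ *
            (s.κ (FreeGroup.of i) * ∑ k ∈ Finset.range (n + 1), (-x) ^ k) := by
            rw [h3, mul_one]
        _ = _ := by rw [← mul_assoc, s.κ_inv_mul, one_mul]
    rw [h6, Finset.sum_mul]
    have h7 : ∀ k, (-x) ^ k * t ∈ SS s := by
      intro k
      induction k with
      | zero => rw [pow_zero, one_mul]; exact ht
      | succ k ih =>
        rw [_root_.pow_succ', mul_assoc, neg_mul]
        exact neg_mem (X_mul_mem s i ih)
    exact sum_mem fun k _ => h7 k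
  | mul a b ha hb =>
    intro t ht
    rw [map_mul, mul_assoc]
    exact ha (hb ht)

lemma SS_top : SS s = ⊤ := by
  rw [eq_top_iff]
  intro t _
  have h := s.span t
  have h1 : (1 : T) ∈ SS s := by
    have := prX_mem_SS s []
    simpa [prX] using this
  induction h using AddSubgroup.closure_induction with
  | zero => exact zero_mem _
  | add b c _ _ hb hc => exact add_mem (hb trivial) (hc trivial)
  | neg a _ ha => exact neg_mem (ha trivial)
  | mem b hb =>
    obtain ⟨w, rfl⟩ := hb
    have := k_mul_mem s w h1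
    rwa [mul_one] at this

include s in
lemma fin_T : Module.Finite ℤ T := by
  refine ⟨?_⟩
  rw [← SS_top s]
  exact Submodule.fg_span ((List.finite_length_le (Fin r) n).image _)

end fin

lemma free_T (G : Type) [Group G] (n : ℕ) (h : Module.Finite ℤ (TT G n)) :
    Module.Free ℤ (TT G n) := by
  have : Module.IsTorsionFree ℤ (TT G n) := by
    refine Module.IsTorsionFree.of_smul_eq_zero fun a t hat => ?_
    by_cases ha : a = 0
    · exact Or.inl ha
    · right
      have h1 : a • (t : TA G n) = 0 := by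
        have := congrArg (TT G n).subtype hat
        rw [map_zsmul, map_zero] at this
        exact this
      have h2 : ((a : ℚ)) • (t : TA G n) = 0 := by
        rw [Int.cast_smul_eq_zsmul]; exact h1
      have h3 : (t : TA G n) = 0 := by
        have h4 := congrArg (fun z => ((a : ℚ))⁻¹ • z) h2
        simp only [smul_zero, smul_smul] at h4
        rwa [inv_mul_cancel₀ (by exact_mod_cast ha), one_smul] at h4
      exact Subtype.ext h3
  infer_instance

end ES

open ES in
/-- the truncated group ring of a free group provides a setup -/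
theorem exists_setup (n r : ℕ) : ∃ (T : Type) (_ : Ring T) (_ : Module.Finite ℤ T)
    (_ : Module.Free ℤ T) (s : Setup n (FreeGroup (Fin r)) T),
    (∀ w, s.κ w = 1 → w ∈ (⊤ : Subgroup (FreeGroup (Fin r))).lowerCentralSeries n) ∧
    ∃ (A : Type) (_ : Ring A) (_ : Algebra ℚ A) (I : Ideal A) (_ : I.IsTwoSided) (j : T →+* A)
      (Λ : A →+ A), Function.Injective j ∧ I ^ (n + 1) = ⊥ ∧ (∀ w, j (s.κ w) - 1 ∈ I) ∧
      ∀ w, Λ (j (s.κ w)) = lg n (j (s.κ w)) := by
  have hfin : Module.Finite ℤ (TT (FreeGroup (Fin r)) n) := fin_T (theSetup _ n)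
  obtain ⟨Λ, hΛ⟩ := exists_log (G := FreeGroup (Fin r)) (n := n)
  have hk : ∀ w, (TT (FreeGroup (Fin r)) n).subtype ((theSetup (FreeGroup (Fin r)) n).κ w) =
      kA _ n w := fun w => coe_kT w
  refine ⟨TT (FreeGroup (Fin r)) n, inferInstance, hfin, free_T _ n hfin,
    theSetup (FreeGroup (Fin r)) n, ?_, TA (FreeGroup (Fin r)) n, inferInstance, inferInstance,
    IA _ n, inferInstance, (TT (FreeGroup (Fin r)) n).subtype, Λ, Subtype.val_injective, IA_nil,
    ?_, ?_⟩
  · intro w hw
    apply magnus
    apply kA_eq_one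
    rw [← hk, hw, map_one]
  · intro w
    rw [hk]; exact kA_mem w
  · intro w
    rw [hk, hΛ]

end Pool.Agent.W_MP_7610c5_al
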