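import Pool.Agent.W_MP_7610c5_al.Aug

open MonoidAlgebra

namespace Pool.Agent.W_MP_7610c5_al

section prod

variable {G B : Type*} [Group G] [Ring B]

lemma diff_mul (u : G) (f g : G → B) :
    diff u (f * g) = diff u f * g + f * diff u g + diff u f * diff u g := by
  funext x
  simp only [diff, Pi.mul_apply, Pi.add_apply]
  noncomm_ring

lemma Deg.diff_eq_zero {A : Type*} [AddCommGroup A] {f : G → A} (h : Deg 0 f) (u : G) :
    Pool.Agent.W_MP_7610c5_al.diff u f = 0 := h [u] (by simp)

omit [Group G] in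
lemma exists_append_singleton {l : List G} {k : ℕ} (h : k < l.length) :
    ∃ l' u, l = l' ++ [u] ∧ l.length = l'.length + 1 := by
  rcases List.eq_nil_or_concat l with h' | ⟨l', u, h'⟩
  · rw [h'] at h; simp at h
  · refine ⟨l', u, by rw [h', List.concat_eq_append], by rw [h']; simp⟩

lemma Deg.mul_aux (N : ℕ) : ∀ {d e : ℕ} {f g : G → B}, d + e = N → Deg d f → Deg e g →
    Deg (d + e) (f * g) := by
  induction N with
  | zero =>
    intro d e f g h hf hg l hl
    obtain ⟨rfl, rfl⟩ : d = 0 ∧ e = 0 := by omega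
    obtain ⟨l', u, rfl, _⟩ := exists_append_singleton hl
    rw [diffs_append, diffs_cons, diffs_nil, diff_mul, hf.diff_eq_zero, hg.diff_eq_zero]
    simp only [zero_mul, mul_zero, add_zero]
    exact diffs_zero l'
  | succ N ih =>
    intro d e f g h hf hg l hl
    obtain ⟨l', u, rfl, hlen⟩ := exists_append_singleton hl
    rw [hlen] at hl
    rw [diffs_append, diffs_cons, diffs_nil, diff_mul, diffs_add, diffs_add]
    have h1 : diffs l' (Pool.Agent.W_MP_7610c5_al.diff u f * g) = 0 := by
      rcases Nat.eq_zero_or_pos d with hd | hd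
      · subst hd; rw [hf.diff_eq_zero, zero_mul]; exact diffs_zero _
      · obtain ⟨d', rfl⟩ : ∃ d', d = d' + 1 := ⟨d - 1, by omega⟩
        exact ih (d := d') (e := e) (by omega) (hf.diff u) hg l' (by omega)
    have h2 : diffs l' (f * Pool.Agent.W_MP_7610c5_al.diff u g) = 0 := by
      rcases Nat.eq_zero_or_pos e with hd | hd
      · subst hd; rw [hg.diff_eq_zero, mul_zero]; exact diffs_zero _
      · obtain ⟨d', rfl⟩ : ∃ d', e = d' + 1 := ⟨e - 1, by omega⟩
        exact ih (d := d) (e := d') (by omega) hf (hg.diff u) l' (by omega)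
    have h3 : diffs l' (Pool.Agent.W_MP_7610c5_al.diff u f *
        Pool.Agent.W_MP_7610c5_al.diff u g) = 0 := by
      rcases Nat.eq_zero_or_pos d with hd | hd
      · subst hd; rw [hf.diff_eq_zero, zero_mul]; exact diffs_zero _
      · obtain ⟨d', rfl⟩ : ∃ d', d = d' + 1 := ⟨d - 1, by omega⟩
        rcases Nat.eq_zero_or_pos e with he | he
        · subst he; rw [hg.diff_eq_zero, mul_zero]; exact diffs_zero _
        · obtain ⟨e', rfl⟩ : ∃ e', e = e' + 1 := ⟨e - 1, by omega⟩
          exact ih (d := d') (e := e' + 1) (by omega) (hf.diff u)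
            ((hg.diff u).mono (by omega)) l' (by omega)
    rw [h1, h2, h3, add_zero, add_zero]

/-- degrees add under products of ring valued functions -/
lemma Deg.mul {d e : ℕ} {f g : G → B} (hf : Deg d f) (hg : Deg e g) : Deg (d + e) (f * g) :=
  Deg.mul_aux (d + e) rfl hf hg

lemma Deg.pow {d : ℕ} {f : G → B} (hf : Deg d f) (k : ℕ) : Deg (k * d) (f ^ k) := by
  induction k with
  | zero =>
    rw [pow_zero, zero_mul]
    exact Deg.const (1 : B)
  | succ k ih => rw [pow_succ, Nat.succ_mul]; exact ih.mul hf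

end prod

section fil

variable {G B : Type*} [Group G] [Ring B]

/-- `Fil I d k s f`: for lists `l` of length at most `k` the difference `diffs l f` has values in
`I ^ ⌈(l.length + s) / d⌉`. -/
def Fil (I : Ideal B) (d k s : ℕ) (f : G → B) : Prop :=
  ∀ l : List G, l.length ≤ k → ∀ x : G, ∀ m : ℕ, m * d < l.length + s + d → diffs l f x ∈ I ^ m

lemma ideal_pow_anti (I : Ideal B) [I.IsTwoSided] {m n : ℕ} (h : m ≤ n) : I ^ n ≤ I ^ m := by
  obtain ⟨k, rfl⟩ := Nat.exists_eq_add_of_le h
  induction k with
  | zero => exact le_rfl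
  | succ k ih =>
    refine le_trans ?_ (ih (Nat.le_add_right _ _))
    rw [← add_assoc, Ideal.IsTwoSided.pow_succ]
    exact Ideal.mul_le_right

lemma mul_mem_pow_add (I : Ideal B) [I.IsTwoSided] {m n : ℕ} {x y : B} (hx : x ∈ I ^ m)
    (hy : y ∈ I ^ n) : x * y ∈ I ^ (m + n) := by
  induction m generalizing x with
  | zero => rw [zero_add]; exact Ideal.mul_mem_left _ _ hy
  | succ m ih =>
    rw [Ideal.IsTwoSided.pow_succ] at hx
    rw [Nat.add_right_comm, Ideal.IsTwoSided.pow_succ]
    refine Submodule.mul_induction_on hx ?_ ?_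
    · intro a ha b hb
      rw [mul_assoc]
      exact Ideal.mul_mem_mul ha (ih hb)
    · intro a b ha hb
      rw [add_mul]; exact add_mem ha hb

lemma Fil.mono {I : Ideal B} {d k s k' s' : ℕ} {f : G → B} (hf : Fil I d k s f) (hk : k' ≤ k)
    (hs : s' ≤ s) : Fil I d k' s' f :=
  fun l hl x m hm => hf l (hl.trans hk) x m (by omega)

lemma Fil.add {I : Ideal B} {d k s : ℕ} {f g : G → B} (hf : Fil I d k s f)
    (hg : Fil I d k s g) : Fil I d k s (f + g) := by
  intro l hl x m hm
  rw [diffs_add]
  exact add_mem (hf l hl x m hm) (hg l hl x m hm)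

lemma Fil.sub {I : Ideal B} {d k s : ℕ} {f g : G → B} (hf : Fil I d k s f)
    (hg : Fil I d k s g) : Fil I d k s (f - g) := by
  intro l hl x m hm
  rw [diffs_sub]
  exact sub_mem (hf l hl x m hm) (hg l hl x m hm)

lemma Fil.diff {I : Ideal B} {d k s : ℕ} {f : G → B} (hf : Fil I d (k + 1) s f) (u : G) :
    Fil I d k (s + 1) (diff u f) := by
  intro l hl x m hm
  have e : diffs l (Pool.Agent.W_MP_7610c5_al.diff u f) = diffs (l ++ [u]) f := by
    rw [diffs_append]; rfl
  rw [e]
  have hlen : (l ++ [u]).length = l.length + 1 := by simp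
  exact hf _ (by omega) x m (by omega)

lemma Fil.one {I : Ideal B} (d k : ℕ) : Fil I d k 0 (1 : G → B) := by
  intro l hl x m hm
  rcases Nat.eq_zero_or_pos l.length with h | h
  · have hm0 : m = 0 := by
      by_contra hne
      have : 1 * d ≤ m * d := Nat.mul_le_mul_right d (Nat.one_le_iff_ne_zero.2 hne)
      omega
    rw [hm0, Submodule.pow_zero, Ideal.one_eq_top]; trivial
  · have : diffs l (1 : G → B) = 0 := Deg.const (1 : B) l h
    rw [this]; exact zero_mem _

lemma Fil.mul (I : Ideal B) [I.IsTwoSided] {d : ℕ} (hd : 0 < d) (k : ℕ) :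
    ∀ {s t : ℕ} {f g : G → B}, Fil I d k s f → Fil I d k t g → Fil I d k (s + t) (f * g) := by
  induction k with
  | zero =>
    intro s t f g hf hg l hl x m hm
    have hl0 : l = [] := List.length_eq_zero_iff.1 (by omega)
    subst hl0
    have h1 := Nat.div_add_mod (s + d - 1) d
    have h1' := Nat.mod_lt (s + d - 1) hd
    have h2 := Nat.div_add_mod (t + d - 1) d
    have h2' := Nat.mod_lt (t + d - 1) hd
    set m1 := (s + d - 1) / d
    set m2 := (t + d - 1) / d
    have e1 : m1 * d = d * m1 := Nat.mul_comm _ _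
    have e2 : m2 * d = d * m2 := Nat.mul_comm _ _
    have hfx := hf [] (by simp) x m1 (by simp only [List.length_nil]; omega)
    have hgx := hg [] (by simp) x m2 (by simp only [List.length_nil]; omega)
    have hm' : m ≤ m1 + m2 := by
      by_contra hlt
      have h3 : (m1 + m2 + 1) * d ≤ m * d := Nat.mul_le_mul_right d (by omega)
      have h4 : (m1 + m2 + 1) * d = m1 * d + m2 * d + d := by ring
      simp only [List.length_nil] at hm
      omega
    exact ideal_pow_anti I hm' (mul_mem_pow_add I hfx hgx)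
  | succ k ih =>
    intro s t f g hf hg l hl x m hm
    rcases Nat.lt_or_ge k l.length with h | h
    · obtain ⟨l', u, rfl, hlen⟩ := exists_append_singleton h
      rw [diffs_append, diffs_cons, diffs_nil, diff_mul, diffs_add, diffs_add]
      rw [hlen] at hm hl
      have a1 := ih (hf.diff u) (hg.mono (Nat.le_succ k) le_rfl) l' (by omega) x m (by omega)
      have a2 := ih (hf.mono (Nat.le_succ k) le_rfl) (hg.diff u) l' (by omega) x m (by omega)
      have a3 := ih (hf.diff u) (hg.diff u) l' (by omega) x m (by omega)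
      exact add_mem (add_mem a1 a2) a3
    · exact ih (hf.mono (Nat.le_succ k) le_rfl) (hg.mono (Nat.le_succ k) le_rfl) l h x m hm

end fil

section type

variable {G C : Type*} [Group G] [AddCommGroup C]

/-- the function `x ↦ [Φ x]` with values in the group ring of `C` -/
noncomputable def br (Φ : G → C) : G → MonoidAlgebra ℤ (Multiplicative C) :=
  fun x => of ℤ (Multiplicative C) (Multiplicative.ofAdd (Φ x))

lemma diff_br (u : G) (Φ : G → C) : diff u (br Φ - 1) = br Φ * (br (diff u Φ) - 1) := by
  funext x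
  simp only [diff, br, Pi.sub_apply, Pi.mul_apply, Pi.one_apply]
  rw [mul_sub, ← map_mul, mul_one, ← ofAdd_add, sub_sub_sub_cancel_right]
  congr 3
  abel

lemma fil_br {d : ℕ} (hd : 0 < d) (k : ℕ) : ∀ {e : ℕ}, e ≤ d → ∀ {Φ : G → C}, Deg e Φ →
    Fil (augIdeal ℤ (Multiplicative C)) d k (d - e) (br Φ - 1) := by
  have base : ∀ (Φ : G → C) (x : G) (e m : ℕ), m * d < 0 + (d - e) + d →
      (br Φ - 1) x ∈ augIdeal ℤ (Multiplicative C) ^ m := by
    intro Φ x e m hm
    have hm2 : m ≤ 1 := by
      by_contra hne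
      have : 2 * d ≤ m * d := Nat.mul_le_mul_right d (by omega)
      omega
    refine ideal_pow_anti _ hm2 ?_
    rw [Submodule.pow_one]
    exact of_sub_one_mem _
  induction k with
  | zero =>
    intro e he Φ hΦ l hl x m hm
    have hl0 : l = [] := List.length_eq_zero_iff.1 (by omega)
    subst hl0
    exact base Φ x e m hm
  | succ k ih =>
    intro e he Φ hΦ l hl x m hm
    rcases Nat.eq_zero_or_pos l.length with h | h
    · have hl0 : l = [] := List.length_eq_zero_iff.1 h
      subst hl0
      exact base Φ x e m hm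
    · obtain ⟨l', u, rfl, hlen⟩ := exists_append_singleton h
      rw [hlen] at hl hm
      rw [diffs_append, diffs_cons, diffs_nil, diff_br]
      rcases Nat.eq_zero_or_pos e with he0 | he0
      · subst he0
        rw [hΦ.diff_eq_zero]
        have : br (0 : G → C) - 1 = 0 := by
          funext y
          simp only [br, Pi.sub_apply, Pi.zero_apply, Pi.one_apply, ofAdd_zero, map_one, sub_self]
        rw [this, mul_zero, diffs_zero]
        exact zero_mem _
      · obtain ⟨e', rfl⟩ : ∃ e', e = e' + 1 := ⟨e - 1, by omega⟩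
        have h1 : Fil (augIdeal ℤ (Multiplicative C)) d k 0 (br Φ) := by
          have := ((ih he hΦ).mono le_rfl (Nat.zero_le _)).add
            (Fil.one (G := G) (I := augIdeal ℤ (Multiplicative C)) d k)
          rwa [sub_add_cancel] at this
        have h2 := ih (e := e') (by omega) (hΦ.diff u)
        exact Fil.mul _ hd k h1 h2 l' (by omega) x m (by omega)

lemma fil_br_zero {d : ℕ} (hd : 0 < d) (k : ℕ) {Φ : G → C} (hΦ : Deg d Φ) :
    Fil (augIdeal ℤ (Multiplicative C)) d k 0 (br Φ) := by
  have := ((fil_br hd k le_rfl hΦ).mono le_rfl (Nat.zero_le _)).add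
    (Fil.one (G := G) (I := augIdeal ℤ (Multiplicative C)) d k)
  rwa [sub_add_cancel] at this

/-- degrees multiply under composition -/
lemma Deg.compose {B : Type*} [AddCommGroup B] {d e : ℕ} (hd : 0 < d) {Φ : G → C} {g : C → B}
    (hΦ : Deg d Φ) (hg : Deg e (fun x : Multiplicative C => g (Multiplicative.toAdd x))) :
    Deg (d * e) (fun x => g (Φ x)) := by
  intro l hl
  have e1 : (fun x => g (Φ x)) = fun x =>
      (lext ℤ (fun x : Multiplicative C => g (Multiplicative.toAdd x))).toAddMonoidHom
        (br Φ x) := by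
    funext x
    show _ = lext ℤ _ (br Φ x)
    rw [br, lext_of]; rfl
  rw [e1, diffs_comp]
  funext x
  show lext ℤ _ (diffs l (br Φ) x) = 0
  refine lext_eq_zero (m := e + 1) (fun l' hl' => hg l' (by omega)) ?_
  refine fil_br_zero hd l.length hΦ l le_rfl x (e + 1) ?_
  rw [Nat.add_mul, Nat.one_mul, Nat.mul_comm e d]
  omega

end type

section descent

/-- Descent of the triviality of dimension subgroups along an extension with abelian kernel which
is trivialised (as a set) by a function of bounded degree. -/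
theorem descent {E Q B : Type*} [Group E] [Group Q] [AddCommGroup B] (π : E →* Q)
    (hπ : Function.Surjective π) (ι : Multiplicative B →* E)
    (hk : ∀ x, π x = 1 ↔ ∃ b, ι b = x) (Φ : E → B) {d : ℕ}
    (hd : 0 < d) (hΦ : Deg d Φ) (hΦι : ∀ x b, Φ (x * ι (Multiplicative.ofAdd b)) = Φ x + b)
    (m : ℕ) (hE : ∀ x ∈ dimSet E m, x = 1) : ∀ q ∈ dimSet Q (d * m), q = 1 := by
  classical
  set τ : E → E := fun x => x * ι (Multiplicative.ofAdd (-Φ x)) with hτ
  have hπι : ∀ b, π (ι b) = 1 := fun b => (hk _).2 ⟨b, rfl⟩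
  have hπτ : ∀ x, π (τ x) = π x := fun x => by rw [hτ]; simp only [map_mul, hπι, mul_one]
  have hττ : ∀ x y, π x = π y → τ x = τ y := by
    intro x y hxy
    obtain ⟨b, hb⟩ := (hk (x⁻¹ * y)).1 (by rw [map_mul, map_inv, hxy, inv_mul_cancel])
    have hy : y = x * ι (Multiplicative.ofAdd (Multiplicative.toAdd b)) := by
      rw [ofAdd_toAdd, hb, mul_inv_cancel_left]
    have : τ y = τ x := by
      rw [hτ]
      simp only
      rw [hy, hΦι, mul_assoc, ← map_mul, ← ofAdd_add]
      congr 3
      abel
    exact this.symm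
  set σ : Q → E := fun q => τ (Function.surjInv hπ q) with hσ
  have hσπ : ∀ x, σ (π x) = τ x := fun x => hττ _ _ (Function.surjInv_eq hπ _)
  have hπσ : ∀ q, π (σ q) = q := fun q => by
    rw [hσ]; simp only; rw [hπτ, Function.surjInv_eq hπ]
  -- the filtration estimate
  have hfil : ∀ k, Fil (augIdeal ℤ E) d k 0 (fun x => of ℤ E (τ x)) := by
    intro k
    have e1 : (fun x => of ℤ E (τ x)) = (fun x => of ℤ E x) *
        (fun x => mapDomainAlgHom ℤ ℤ ι (br (-Φ) x)) := by
      funext x
      simp only [Pi.mul_apply, br, Pi.neg_apply]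
      rw [hτ]
      simp only
      rw [map_mul]
      congr 1
      simp
    rw [e1]
    have h1 : Fil (augIdeal ℤ E) d k 0 (fun x => of ℤ E x) := by
      intro l hl x j hj
      have e2 : diffs l (fun x => of ℤ E x) x = of ℤ E x * pl ℤ l := by
        rw [← lext_pl (k := ℤ) (fun x => of ℤ E x)]
        have : (lext ℤ (fun x => of ℤ E x)) = LinearMap.id := by
          refine LinearMap.ext fun y => ?_
          induction y using MonoidAlgebra.induction_linear with
          | zero => simp
          | add a b ha hb => rw [map_add, ha, hb, map_add]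
          | single g r => rw [← smul_of, map_smul, lext_of, map_smul]; rfl
        rw [this]; rfl
      rw [e2]
      apply Ideal.mul_mem_left
      refine ideal_pow_anti _ ?_ (pl_mem l)
      by_contra hlt
      have h3 : (l.length + 1) * d ≤ j * d := Nat.mul_le_mul_right d (by omega)
      have h4 : l.length * 1 ≤ l.length * d := Nat.mul_le_mul_left _ hd
      rw [Nat.add_mul] at h3
      omega
    have h2 : Fil (augIdeal ℤ E) d k 0 (fun x => mapDomainAlgHom ℤ ℤ ι (br (-Φ) x)) := by
      intro l hl x j hj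
      have e3 := diffs_comp ((mapDomainAlgHom ℤ ℤ ι : MonoidAlgebra ℤ (Multiplicative B) →ₐ[ℤ]
        MonoidAlgebra ℤ E).toRingHom.toAddMonoidHom) l (br (-Φ))
      have e4 := congrFun e3 x
      have e5 : diffs l (fun x => mapDomainAlgHom ℤ ℤ ι (br (-Φ) x)) x =
        mapDomainAlgHom ℤ ℤ ι (diffs l (br (-Φ)) x) := e4
      rw [e5]
      exact map_aug_pow ℤ ι j (fil_br_zero hd k hΦ.neg l hl x j hj)
    exact Fil.mul _ hd k h1 h2
  have hσfil : ∀ (l : List Q) (q : Q) (j : ℕ), j * d < l.length + d →
      diffs l (fun q => of ℤ E (σ q)) q ∈ augIdeal ℤ E ^ j := by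
    intro l q j hj
    obtain ⟨l', rfl⟩ : ∃ l', List.map π l' = l := List.map_surjective_iff.2 hπ l
    obtain ⟨x, rfl⟩ := hπ q
    have h := diffs_pull π l' (fun q => of ℤ E (σ q))
    have h' := congrFun h x
    rw [← h']
    have e : (fun x => of ℤ E (σ (π x))) = fun x => of ℤ E (τ x) := by
      funext x; rw [hσπ]
    rw [e]
    exact hfil l'.length l' le_rfl x j (by rw [List.length_map] at hj; omega)
  intro q hq
  have key : lext ℤ (fun q => of ℤ E (σ q)) (of ℤ Q q - 1) ∈ augIdeal ℤ E ^ m := by
    have := augIdeal_pow_span _ hq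
    generalize of ℤ Q q - 1 = y at this
    induction this using Submodule.span_induction with
    | zero => simp
    | add b c _ _ hb hc => rw [map_add]; exact add_mem hb hc
    | smul r b _ hb =>
      rw [map_smul, Algebra.smul_def]
      exact Ideal.mul_mem_left _ _ hb
    | mem b hb =>
      obtain ⟨g, l, hl, rfl⟩ := hb
      rw [lext_pl]
      refine hσfil l g m ?_
      rw [hl, Nat.mul_comm]; omega
  have h1 : lext ℤ (fun q => of ℤ E (σ q)) (1 : MonoidAlgebra ℤ Q) = of ℤ E (σ 1) := by
    rw [← map_one (of ℤ Q), lext_of]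
  rw [map_sub, lext_of, h1] at key
  have h2 : (σ 1)⁻¹ * σ q ∈ dimSet E m := by
    have := Ideal.mul_mem_left _ (of ℤ E (σ 1)⁻¹) key
    rw [mul_sub, ← map_mul, ← map_mul, inv_mul_cancel, map_one] at this
    exact this
  have h3 := hE _ h2
  have h4 : σ q = σ 1 := (inv_mul_eq_one.1 h3).symm
  rw [← hπσ q, h4, hπσ]

end descent

end Pool.Agent.W_MP_7610c5_al
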