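import Mathlib

namespace Pool.Agent.W_MP_7610c5_al

/-- Integer inverse Vandermonde: there are integers `v j k` and `L > 0` with
`∑ k, v j k * k ^ i = L * δ_{ij}` for `i, j ≤ D`. -/
theorem lagrange (D : ℕ) : ∃ (L : ℕ) (v : ℕ → ℕ → ℤ), 0 < L ∧ ∀ i ≤ D, ∀ j ≤ D,
    ∑ k ∈ Finset.range (D + 1), v j k * (k : ℤ) ^ i = if i = j then (L : ℤ) else 0 := by
  classical
  set V : Matrix (Fin (D + 1)) (Fin (D + 1)) ℤ := Matrix.vandermonde (fun k => ((k : ℕ) : ℤ)) with hV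
  have hdet : V.det ≠ 0 := by
    rw [hV, Matrix.det_vandermonde_ne_zero_iff]
    intro a b h
    apply Fin.ext
    have h' : ((a : ℕ) : ℤ) = ((b : ℕ) : ℤ) := h
    exact_mod_cast h'
  refine ⟨V.det.natAbs, fun j k => if hj : j < D + 1 then if hk : k < D + 1 then
      V.det.sign * V.adjugate ⟨j, hj⟩ ⟨k, hk⟩ else 0 else 0, Int.natAbs_pos.mpr hdet, ?_⟩
  intro i hi j hj
  have hi' : i < D + 1 := by omega
  have hj' : j < D + 1 := by omega
  rw [Finset.sum_range]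
  have h1 := congrFun (congrFun (Matrix.adjugate_mul V) ⟨j, hj'⟩) ⟨i, hi'⟩
  rw [Matrix.mul_apply] at h1
  simp only [Matrix.smul_apply, Matrix.one_apply, smul_eq_mul, Fin.mk.injEq] at h1
  have h2 : ∑ x : Fin (D + 1), (if hj : j < D + 1 then if hk : (x : ℕ) < D + 1 then
      V.det.sign * V.adjugate ⟨j, hj⟩ ⟨x, hk⟩ else 0 else 0) * ((x : ℕ) : ℤ) ^ i
      = V.det.sign * ∑ x : Fin (D + 1), V.adjugate ⟨j, hj'⟩ x * V x ⟨i, hi'⟩ := by
    rw [Finset.mul_sum]
    apply Finset.sum_congr rfl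
    intro x _
    rw [dif_pos hj', dif_pos x.2, hV, Matrix.vandermonde_apply]
    ring
  rw [h2, h1]
  by_cases hij : i = j
  · subst hij
    simp only [if_true, mul_one]
    simp
  · rw [if_neg (fun h => hij h.symm), if_neg hij]
    simp

end Pool.Agent.W_MP_7610c5_al
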