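import Pool.Agent.W_MP_7610c5_al.LogBasic
import Pool.Agent.W_MP_7610c5_al.Lagrange
import Pool.Agent.W_MP_7610c5_al.Fil

open Polynomial
open scoped commutatorElement

namespace Pool.Agent.W_MP_7610c5_al

variable {A : Type*} [Ring A] [Algebra ℚ A]

omit [Algebra ℚ A] in
lemma ev_eq_sum' {D : ℕ} {p : A[X]} (hp : p.natDegree ≤ D) (k : ℕ) :
    ev k p = ∑ i ∈ Finset.range (D + 1), (k ^ i) • p.coeff i := by
  rw [ev_eq_eval₂, eval₂_eq_sum_range' _ (Nat.lt_succ_of_le hp)]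
  refine Finset.sum_congr rfl fun i _ => ?_
  rw [RingHom.id_apply, nsmul_eq_mul, Nat.cast_pow]
  exact (((Nat.cast_commute k (p.coeff i)).pow_left i).eq).symm

/-- the Lagrange data -/
def IsLagrange (D L : ℕ) (v : ℕ → ℕ → ℤ) : Prop := ∀ i ≤ D, ∀ j ≤ D,
  ∑ k ∈ Finset.range (D + 1), v j k * (k : ℤ) ^ i = if i = j then (L : ℤ) else 0

omit [Algebra ℚ A] in
lemma interp {D L : ℕ} {v : ℕ → ℕ → ℤ} (h : IsLagrange D L v) {p : A[X]}
    (hp : p.natDegree ≤ D) {j : ℕ} (hj : j ≤ D) :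
    ∑ k ∈ Finset.range (D + 1), v j k • ev k p = (L : ℤ) • p.coeff j := by
  have h1 : ∀ k : ℕ, v j k • ev k p =
      ∑ i ∈ Finset.range (D + 1), (v j k * (k : ℤ) ^ i) • p.coeff i := by
    intro k
    rw [ev_eq_sum' hp, Finset.smul_sum]
    refine Finset.sum_congr rfl fun i _ => ?_
    rw [mul_smul, ← natCast_zsmul (p.coeff i) (k ^ i), Nat.cast_pow]
  simp_rw [h1]
  rw [Finset.sum_comm]
  simp_rw [← Finset.sum_smul]
  rw [Finset.sum_eq_single j]
  · rw [h j hj j hj, if_pos rfl]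
  · intro i hi hij
    rw [h i (by simpa [Nat.lt_succ_iff] using hi) j hj, if_neg hij, zero_smul]
  · intro h'; exact absurd (Finset.mem_range.2 (Nat.lt_succ_of_le hj)) h'

/-- the additive group generated by the logarithms of the elements of `N` -/
def logs (n : ℕ) (N : Subgroup Aˣ) : AddSubgroup A :=
  AddSubgroup.closure ((fun u : Aˣ => lg n (u : A)) '' (N : Set Aˣ))

lemma lg_mem_logs (n : ℕ) {N : Subgroup Aˣ} {u : Aˣ} (hu : u ∈ N) : lg n (u : A) ∈ logs n N :=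
  AddSubgroup.subset_closure ⟨u, hu, rfl⟩

/-- the polynomial `k ↦ log (y⁻ᵏ (y s)ᵏ)` -/
lemma exists_qpoly {n : ℕ} (hn : 1 ≤ n) {y s : Aˣ} (hy : ((y : A) - 1) ^ (n + 1) = 0)
    (hys : (((y * s : Aˣ) : A) - 1) ^ (n + 1) = 0) :
    ∃ q : A[X], q.natDegree ≤ n * (2 * n) ∧
      q.coeff 1 = lg n ((y * s : Aˣ) : A) - lg n (y : A) ∧
      ∀ k : ℕ, ev k q = lg n (((y⁻¹ ^ k * (y * s) ^ k : Aˣ)) : A) := by
  have h1 : (((y⁻¹ : Aˣ) : A) - 1) ^ (n + 1) = 0 :=
    inv_sub_one_pow hy (by rw [← Units.val_mul, mul_inv_cancel, Units.val_one])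
      (by rw [← Units.val_mul, inv_mul_cancel, Units.val_one])
  obtain ⟨p1, d1, a1, b1, e1⟩ := exists_pp n h1
  obtain ⟨p2, d2, a2, b2, e2⟩ := exists_pp n hys
  obtain ⟨q, hq1, hq2, hq3⟩ := lgPoly n (p1 * p2)
  have hc0 : (p1 * p2).coeff 0 = 1 := by rw [mul_coeff_zero, a1, a2, one_mul]
  have hc1 : (p1 * p2).coeff 1 = lg n ((y * s : Aˣ) : A) - lg n (y : A) := by
    have hi : lg n ((y⁻¹ : Aˣ) : A) = - lg n (y : A) := lg_inv hy
      (by rw [← Units.val_mul, mul_inv_cancel, Units.val_one])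
      (by rw [← Units.val_mul, inv_mul_cancel, Units.val_one])
    rw [mul_coeff_one, a1, a2, b1, b2, one_mul, mul_one, hi, sub_eq_add_neg]
  refine ⟨q, hq1.trans ?_, ?_, ?_⟩
  · refine Nat.mul_le_mul_left n ?_
    refine natDegree_mul_le.trans ?_
    omega
  · rw [(hq3 hc0 hn).2, hc1]
  · intro k
    rw [hq2, map_mul, e1, e2]
    congr 1

omit [Algebra ℚ A] in
lemma sk_mem {N H : Subgroup Aˣ} (hnorm : ∀ h ∈ H, ∀ x ∈ N, h⁻¹ * x * h ∈ N) {y s : Aˣ}
    (hy : y ∈ H) (hs : s ∈ N) (k : ℕ) : y⁻¹ ^ k * (y * s) ^ k ∈ N := by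
  induction k with
  | zero => rw [pow_zero, pow_zero, one_mul]; exact N.one_mem
  | succ k ih =>
    have e : y⁻¹ ^ (k + 1) * (y * s) ^ (k + 1) = (y⁻¹ * (y⁻¹ ^ k * (y * s) ^ k) * y) * s := by
      rw [pow_succ', pow_succ]
      simp only [mul_assoc]
    rw [e]
    exact N.mul_mem (hnorm y hy _ ih) hs

omit [Algebra ℚ A] in
lemma tk_mem {N H K : Subgroup Aˣ} (hNH : N ≤ H)
    (hnormK : ∀ h ∈ H, ∀ x ∈ K, h⁻¹ * x * h ∈ K)
    (hcomm : ∀ x ∈ N, ∀ h ∈ H, x * h * x⁻¹ * h⁻¹ ∈ K) {y s : Aˣ}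
    (hy : y ∈ H) (hs : s ∈ N) (k : ℕ) : s⁻¹ ^ k * (y⁻¹ ^ k * (y * s) ^ k) ∈ K := by
  induction k with
  | zero => rw [pow_zero, pow_zero, pow_zero, one_mul, one_mul]; exact K.one_mem
  | succ k ih =>
    set t := s⁻¹ ^ k * (y⁻¹ ^ k * (y * s) ^ k) with ht
    have e0 : y⁻¹ ^ k * (y * s) ^ k = s ^ k * t := by
      rw [ht, inv_pow s k, mul_inv_cancel_left]
    have e1 : y⁻¹ ^ (k + 1) * (y * s) ^ (k + 1) = y⁻¹ * (s ^ k * t) * (y * s) := by
      rw [← e0, pow_succ', pow_succ]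
      simp only [mul_assoc]
    have e : s⁻¹ ^ (k + 1) * (y⁻¹ ^ (k + 1) * (y * s) ^ (k + 1)) =
        s⁻¹ * ((s⁻¹ ^ k * y⁻¹ * (s⁻¹ ^ k)⁻¹ * (y⁻¹)⁻¹) * (y⁻¹ * t * y)) * s := by
      rw [e1, pow_succ' s⁻¹ k]
      simp only [inv_pow, inv_inv, mul_assoc]
      rw [mul_inv_cancel_left]
    rw [e]
    refine hnormK s (hNH hs) _ (K.mul_mem ?_ (hnormK y hy t ih))
    exact hcomm _ (N.pow_mem (N.inv_mem hs) k) _ (H.inv_mem hy)

lemma lg_zero (x : A) : lg 0 x = 0 := by simp [lg]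

lemma L1 {n D L : ℕ} {v : ℕ → ℕ → ℤ} (hv : IsLagrange D L v) (hD : n * (2 * n) ≤ D)
    {N H : Subgroup Aˣ} (hH : ∀ u ∈ H, ((u : A) - 1) ^ (n + 1) = 0) (hNH : N ≤ H)
    (hnorm : ∀ h ∈ H, ∀ x ∈ N, h⁻¹ * x * h ∈ N) {y s : Aˣ} (hy : y ∈ H) (hs : s ∈ N) :
    (L : ℤ) • (lg n ((y * s : Aˣ) : A) - lg n (y : A)) ∈ logs n N := by
  rcases Nat.eq_zero_or_pos n with hn | hn
  · subst hn
    rw [lg_zero, lg_zero, sub_zero, smul_zero]
    exact zero_mem _
  · obtain ⟨q, h1, h2, h3⟩ := exists_qpoly hn (hH y hy) (hH _ (H.mul_mem hy (hNH hs)))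
    have hD1 : 1 ≤ D := le_trans (by nlinarith) hD
    rw [← h2, ← interp hv (h1.trans hD) hD1]
    refine sum_mem fun k _ => zsmul_mem ?_ _
    rw [h3]
    exact lg_mem_logs n (sk_mem hnorm hy hs k)

lemma L4 {n D L : ℕ} {v : ℕ → ℕ → ℤ} (hv : IsLagrange D L v) (hD : n * (2 * n) ≤ D)
    {N H K : Subgroup Aˣ} (hH : ∀ u ∈ H, ((u : A) - 1) ^ (n + 1) = 0) (hNH : N ≤ H)
    (hKH : K ≤ H) (hnormK : ∀ h ∈ H, ∀ x ∈ K, h⁻¹ * x * h ∈ K)
    (hcomm : ∀ x ∈ N, ∀ h ∈ H, x * h * x⁻¹ * h⁻¹ ∈ K) {y s : Aˣ} (hy : y ∈ H) (hs : s ∈ N) :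
    ((L : ℤ) * L) • (lg n ((y * s : Aˣ) : A) - lg n (y : A) - lg n (s : A)) ∈ logs n K := by
  rcases Nat.eq_zero_or_pos n with hn | hn
  · subst hn
    rw [lg_zero, lg_zero, lg_zero, sub_zero, sub_zero, smul_zero]
    exact zero_mem _
  · obtain ⟨q, h1, h2, h3⟩ := exists_qpoly hn (hH y hy) (hH _ (H.mul_mem hy (hNH hs)))
    have hD1 : 1 ≤ D := le_trans (by nlinarith) hD
    have e1 : (L : ℤ) • (lg n ((y * s : Aˣ) : A) - lg n (y : A) - lg n (s : A)) =
        ∑ k ∈ Finset.range (D + 1), v 1 k • (ev k q - k • lg n (s : A)) := by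
      rw [smul_sub, ← h2, ← interp hv (h1.trans hD) hD1]
      simp_rw [smul_sub]
      rw [Finset.sum_sub_distrib]
      congr 1
      have : ∀ k : ℕ, v 1 k • k • lg n (s : A) = (v 1 k * (k : ℤ) ^ 1) • lg n (s : A) := by
        intro k
        rw [pow_one, mul_smul, natCast_zsmul]
      simp_rw [this]
      rw [← Finset.sum_smul, hv 1 hD1 1 hD1, if_pos rfl]
    rw [mul_smul, e1, Finset.smul_sum]
    refine sum_mem fun k _ => ?_
    rw [smul_comm]
    refine zsmul_mem ?_ _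
    rw [h3, ← lg_pow (hH s (hNH hs)), ← Units.val_pow_eq_pow_val]
    have e2 : y⁻¹ ^ k * (y * s) ^ k = s ^ k * (s⁻¹ ^ k * (y⁻¹ ^ k * (y * s) ^ k)) := by
      rw [inv_pow s, mul_inv_cancel_left]
    rw [e2]
    exact L1 hv hD hH hKH hnormK (H.pow_mem (hNH hs) k)
      (tk_mem hNH hnormK hcomm hy hs k)

section lcs

omit [Algebra ℚ A] in
lemma sub_one_mem_lcs (I : Ideal A) [I.IsTwoSided] {R : Subgroup Aˣ}
    (hR : ∀ u ∈ R, (u : A) - 1 ∈ I) (j : ℕ) :
    ∀ u ∈ R.lowerCentralSeries j, (u : A) - 1 ∈ I ^ (j + 1) := by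
  induction j with
  | zero =>
    intro u hu
    rw [zero_add, Submodule.pow_one]
    exact hR u hu
  | succ j ih =>
    intro u hu
    rw [Subgroup.mem_lowerCentralSeries_succ_iff] at hu
    induction hu using Subgroup.closure_induction with
    | one => rw [Units.val_one, sub_self]; exact zero_mem _
    | mul a b _ _ ha hb =>
      have e : ((a * b : Aˣ) : A) - 1 = (a : A) * ((b : A) - 1) + ((a : A) - 1) := by
        rw [Units.val_mul]; noncomm_ring
      rw [e]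
      exact add_mem (Ideal.mul_mem_left _ _ hb) ha
    | inv a _ ha =>
      have e : ((a⁻¹ : Aˣ) : A) - 1 = (-((a⁻¹ : Aˣ) : A)) * ((a : A) - 1) := by
        rw [neg_mul, mul_sub, ← Units.val_mul, inv_mul_cancel, Units.val_one, mul_one]
        abel
      rw [e]
      exact Ideal.mul_mem_left _ _ ha
    | mem a ha =>
      obtain ⟨x, hx, h, hh, rfl⟩ := ha
      have hx' := ih x hx
      have hh' := hR h hh
      have e : ((⁅x, h⁆ : Aˣ) : A) - 1 = (((x : A) - 1) * ((h : A) - 1) -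
          ((h : A) - 1) * ((x : A) - 1)) * ((x⁻¹ * h⁻¹ : Aˣ) : A) := by
        have e1 : ((x : A) - 1) * ((h : A) - 1) - ((h : A) - 1) * ((x : A) - 1) =
            ((x * h : Aˣ) : A) - ((h * x : Aˣ) : A) := by
          rw [Units.val_mul, Units.val_mul]; noncomm_ring
        rw [e1, sub_mul, ← Units.val_mul, ← Units.val_mul, commutatorElement_def]
        congr 1
        · congr 1; group
        · rw [show h * x * (x⁻¹ * h⁻¹) = 1 by group, Units.val_one]
      rw [e]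
      have : (I ^ (j + 1 + 1)).IsTwoSided := by infer_instance
      refine Ideal.mul_mem_right _ _ (sub_mem ?_ ?_)
      · have := mul_mem_pow_add I hx' (show (h : A) - 1 ∈ I ^ 1 by
          rw [Submodule.pow_one]; exact hh')
        exact this
      · have := mul_mem_pow_add I (show (h : A) - 1 ∈ I ^ 1 by
          rw [Submodule.pow_one]; exact hh') hx'
        rwa [Nat.add_comm 1 (j + 1)] at this

end lcs

/-- `log (r s ^ m) - log r - m log s` is a polynomial in `m` -/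
lemma exists_hpoly {n D : ℕ} (hn : 1 ≤ n) (hD : n * (2 * n) ≤ D) {r s : Aˣ}
    (hs : ((s : A) - 1) ^ (n + 1) = 0) :
    ∃ q : A[X], q.natDegree ≤ D ∧
      ∀ k : ℕ, ev k q = lg n ((r * s ^ k : Aˣ) : A) - lg n (r : A) - k • lg n (s : A) := by
  obtain ⟨p, d1, a1, b1, e1⟩ := exists_pp n hs
  obtain ⟨q, hq1, hq2, -⟩ := lgPoly n (C (r : A) * p)
  refine ⟨q - C (lg n (r : A)) - X * C (lg n (s : A)), ?_, ?_⟩
  · refine (natDegree_sub_le _ _).trans (max_le ((natDegree_sub_le _ _).trans (max_le ?_ ?_)) ?_)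
    · refine (hq1.trans (Nat.mul_le_mul_left n ?_)).trans hD
      exact (natDegree_C_mul_le _ _).trans (by omega)
    · rw [natDegree_C]; exact Nat.zero_le _
    · refine (natDegree_mul_C_le _ _).trans ?_
      refine natDegree_X_le.trans ?_
      exact le_trans (by nlinarith) hD
  · intro k
    rw [map_sub, map_sub, map_mul, ev_C, ev_C, ev_X, hq2, map_mul, ev_C, e1, nsmul_eq_mul]
    congr 3

lemma Cj {n D L : ℕ} {v : ℕ → ℕ → ℤ} (hv : IsLagrange D L v) (hD : n * (2 * n) ≤ D)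
    (I : Ideal A) [I.IsTwoSided] (hI : I ^ (n + 1) = ⊥) {R : Subgroup Aˣ}
    (hR : ∀ u ∈ R, (u : A) - 1 ∈ I) (i : ℕ) : i ≤ n → ∀ z ∈ logs n (R.lowerCentralSeries (n - i)),
    ∀ r ∈ R, ∃ r' ∈ R, lg n (r' : A) = lg n (r : A) + ((L ^ 3) ^ i) • z := by
  have hR' : ∀ u ∈ R, ((u : A) - 1) ^ (n + 1) = 0 := by
    intro u hu
    have := Ideal.pow_mem_pow (hR u hu) (n + 1)
    rw [hI] at this
    exact this
  induction i with
  | zero =>
    intro _ z hz r hr
    have hz0 : z = 0 := by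
      unfold logs at hz
      induction hz using AddSubgroup.closure_induction with
      | zero => rfl
      | add a b _ _ ha hb => rw [ha, hb, add_zero]
      | neg a _ ha => rw [ha, neg_zero]
      | mem a ha =>
        obtain ⟨u, hu, rfl⟩ := ha
        have := sub_one_mem_lcs I hR _ u hu
        rw [Nat.sub_zero, hI] at this
        have h1 : (u : A) = 1 := sub_eq_zero.1 this
        simp only [h1, lg_one]
    exact ⟨r, hr, by rw [hz0, smul_zero, add_zero]⟩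
  | succ i ih =>
    intro hi z hz
    have hn : 1 ≤ n := by omega
    have hIH := ih (by omega)
    obtain ⟨j, hj⟩ : ∃ j, n - (i + 1) = j := ⟨_, rfl⟩
    have hj' : n - i = j + 1 := by omega
    rw [hj] at hz
    rw [hj'] at hIH
    set N := R.lowerCentralSeries j with hN
    set K := R.lowerCentralSeries (j + 1) with hK
    have hNR : N ≤ R := R.lowerCentralSeries_le_self j
    have hKR : K ≤ R := R.lowerCentralSeries_le_self (j + 1)
    have hnormK : ∀ h ∈ R, ∀ x ∈ K, h⁻¹ * x * h ∈ K := by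
      intro h hh x hx
      have h1 := R.self_le_normalizer_lowerCentralSeries (j + 1) (R.inv_mem hh)
      rw [Subgroup.mem_normalizer_iff] at h1
      have := (h1 x).1 hx
      rwa [inv_inv] at this
    have hcomm : ∀ x ∈ N, ∀ h ∈ R, x * h * x⁻¹ * h⁻¹ ∈ K := by
      intro x hx h hh
      have : ⁅x, h⁆ ∈ R.lowerCentralSeries (j + 1) := by
        rw [Subgroup.lowerCentralSeries_succ]
        exact Subgroup.commutator_mem_commutator hx hh
      rwa [commutatorElement_def] at this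
    -- one generator
    have key : ∀ s ∈ N, ∀ r ∈ R, ∃ r' ∈ R,
        lg n (r' : A) = lg n (r : A) + ((L ^ 3) ^ (i + 1)) • lg n (s : A) := by
      intro s hs r hr
      set M := (L ^ 3) ^ i with hM
      obtain ⟨q, hq1, hq2⟩ := exists_hpoly hn hD (r := r) (hR' s (hNR hs))
      have hvals : ∀ k, ((L : ℤ) * L) • ev k q ∈ logs n K := by
        intro k
        rw [hq2, ← lg_pow (hR' s (hNR hs)), ← Units.val_pow_eq_pow_val]
        exact L4 hv hD hR' hNR hKR hnormK hcomm hr (N.pow_mem hs k)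
      have hcoeff : ∀ l ≤ D, (L ^ 3) • q.coeff l ∈ logs n K := by
        intro l hl
        have e : (L ^ 3) • q.coeff l =
            ∑ k ∈ Finset.range (D + 1), v l k • (((L : ℤ) * L) • ev k q) := by
          have := interp hv hq1 hl
          rw [← natCast_zsmul, show ((L ^ 3 : ℕ) : ℤ) = ((L : ℤ) * L) * L by push_cast; ring,
            mul_smul, ← this, Finset.smul_sum]
          refine Finset.sum_congr rfl fun k _ => ?_
          rw [smul_comm]
        rw [e]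
        exact sum_mem fun k _ => zsmul_mem (hvals k) _
      have hc0 : q.coeff 0 = 0 := by
        have h0 := hq2 0
        rw [pow_zero, mul_one, sub_self, zero_smul, sub_zero] at h0
        rw [ev_eq_sum' hq1, Finset.sum_eq_single 0] at h0
        · simpa using h0
        · intro b _ hb; rw [zero_pow hb, zero_smul]
        · intro h; exact absurd (Finset.mem_range.2 (Nat.succ_pos D)) h
      obtain ⟨z0, hz0, hz0'⟩ : ∃ z0 ∈ logs n K, ev ((L ^ 3) ^ (i + 1)) q = M • z0 := by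
        refine ⟨∑ l ∈ Finset.range (D + 1), if l = 0 then 0 else
          ((L ^ 3) ^ (i + 1)) ^ (l - 1) • ((L ^ 3) • q.coeff l), ?_, ?_⟩
        · refine sum_mem fun l hl => ?_
          split_ifs with h
          · exact zero_mem _
          · exact nsmul_mem (hcoeff l (by simpa [Nat.lt_succ_iff] using hl)) _
        · rw [ev_eq_sum' hq1, Finset.smul_sum]
          refine Finset.sum_congr rfl fun l hl => ?_
          split_ifs with h
          · rw [h, hc0, smul_zero, smul_zero]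
          · rw [smul_smul, smul_smul]
            congr 1
            obtain ⟨l', rfl⟩ : ∃ l', l = l' + 1 := ⟨l - 1, by omega⟩
            rw [Nat.add_sub_cancel, hM]
            ring
      obtain ⟨r'', hr'', e''⟩ := hIH (-z0) (neg_mem hz0) (r * s ^ ((L ^ 3) ^ (i + 1)))
        (R.mul_mem hr (R.pow_mem (hNR hs) _))
      refine ⟨r'', hr'', ?_⟩
      have e3 := hq2 ((L ^ 3) ^ (i + 1))
      rw [hz0'] at e3
      rw [e'', smul_neg, e3]
      abel
    have main : ∀ z ∈ logs n N,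
        (∀ r ∈ R, ∃ r' ∈ R, lg n (r' : A) = lg n (r : A) + ((L ^ 3) ^ (i + 1)) • z) ∧
        (∀ r ∈ R, ∃ r' ∈ R, lg n (r' : A) = lg n (r : A) + ((L ^ 3) ^ (i + 1)) • (-z)) := by
      intro z hz
      unfold logs at hz
      induction hz using AddSubgroup.closure_induction with
      | zero =>
        exact ⟨fun r hr => ⟨r, hr, by rw [smul_zero, add_zero]⟩,
          fun r hr => ⟨r, hr, by rw [neg_zero, smul_zero, add_zero]⟩⟩
      | add a b _ _ ha hb =>
        constructor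
        · intro r hr
          obtain ⟨r1, hr1, e1⟩ := ha.1 r hr
          obtain ⟨r2, hr2, e2⟩ := hb.1 r1 hr1
          exact ⟨r2, hr2, by rw [e2, e1, smul_add, add_assoc]⟩
        · intro r hr
          obtain ⟨r1, hr1, e1⟩ := ha.2 r hr
          obtain ⟨r2, hr2, e2⟩ := hb.2 r1 hr1
          exact ⟨r2, hr2, by rw [e2, e1, neg_add, smul_add, add_assoc]⟩
      | neg a _ ha => exact ⟨ha.2, by rw [neg_neg]; exact ha.1⟩
      | mem a ha =>
        obtain ⟨s, hs, rfl⟩ := ha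
        refine ⟨key s hs, ?_⟩
        have := key s⁻¹ (N.inv_mem hs)
        rwa [lg_inv (hR' s (hNR hs)) (by rw [← Units.val_mul, mul_inv_cancel, Units.val_one])
          (by rw [← Units.val_mul, inv_mul_cancel, Units.val_one])] at this
    exact (main z hz).1

theorem log_star (n : ℕ) : ∃ N : ℕ, 0 < N ∧ ∀ {Γ A : Type} [Group Γ] [Ring A] [Algebra ℚ A]
    (I : Ideal A) [I.IsTwoSided] (_ : I ^ (n + 1) = ⊥) (κ : Γ →* A) (_ : ∀ x, κ x - 1 ∈ I)
    (Λ : A →+ A) (_ : ∀ x, Λ (κ x) = lg n (κ x)) (S : Subgroup Γ) [S.Normal]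
    (_ : ∀ x, κ x = 1 → x ∈ S) (h : Γ) (c q : ℕ) (_ : N ∣ c * q) (z : A)
    (_ : z ∈ AddSubgroup.closure {z | ∃ x, ∃ y ∈ S, z = κ x * (κ y - 1)})
    (_ : κ h - 1 = c • z), h ^ q ∈ S := by
  obtain ⟨L, v, hL, hv⟩ := lagrange (n * (2 * n))
  refine ⟨L * (L ^ 3) ^ n, by positivity, ?_⟩
  intro Γ A _ _ _ I _ hI κ hκ Λ hΛ S _ hS h c q hc z hz hh
  have hv' : IsLagrange (n * (2 * n)) L v := hv
  set H : Subgroup Aˣ := κ.toHomUnits.range with hHdef
  set R : Subgroup Aˣ := S.map κ.toHomUnits with hRdef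
  have hval : ∀ x, ((κ.toHomUnits x : Aˣ) : A) = κ x := fun x => MonoidHom.coe_toHomUnits κ x
  have hRH : R ≤ H := by
    rintro _ ⟨x, _, rfl⟩; exact ⟨x, rfl⟩
  have hH1 : ∀ u ∈ H, (u : A) - 1 ∈ I := by
    rintro _ ⟨x, rfl⟩; rw [hval]; exact hκ x
  have hH2 : ∀ u ∈ H, ((u : A) - 1) ^ (n + 1) = 0 := by
    intro u hu
    have := Ideal.pow_mem_pow (hH1 u hu) (n + 1)
    rw [hI] at this
    exact this
  have hnorm : ∀ h ∈ H, ∀ x ∈ R, h⁻¹ * x * h ∈ R := by
    rintro _ ⟨g, rfl⟩ _ ⟨x, hx, rfl⟩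
    refine ⟨g⁻¹ * x * g, ?_, by simp only [map_mul, map_inv]⟩
    have := ‹S.Normal›.conj_mem x hx g⁻¹
    rwa [inv_inv] at this
  have hΛz : (L : ℤ) • Λ z ∈ logs n R := by
    clear hh
    induction hz using AddSubgroup.closure_induction with
    | zero => rw [map_zero, smul_zero]; exact zero_mem _
    | add a b _ _ ha hb => rw [map_add, smul_add]; exact add_mem ha hb
    | neg a _ ha => rw [map_neg, smul_neg]; exact neg_mem ha
    | mem a ha =>
      obtain ⟨x, y, hy, rfl⟩ := ha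
      have := L1 hv' le_rfl hH2 hRH hnorm (y := κ.toHomUnits x) (s := κ.toHomUnits y)
        ⟨x, rfl⟩ ⟨y, hy, rfl⟩
      rw [← map_mul, hval, hval] at this
      rwa [mul_sub, mul_one, ← map_mul, map_sub, hΛ, hΛ]
  have hlg : lg n (κ h) = c • Λ z := by
    rw [← map_nsmul, ← hh, map_sub, hΛ, ← map_one κ, hΛ, map_one, lg_one, sub_zero]
  obtain ⟨t, ht⟩ := hc
  have hmem : t • ((L : ℤ) • Λ z) ∈ logs n (R.lowerCentralSeries (n - n)) := by
    rw [Nat.sub_self]
    exact nsmul_mem hΛz t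
  obtain ⟨r', hr', e⟩ := Cj hv' le_rfl I hI (fun u hu => hH1 u (hRH hu)) n le_rfl _ hmem 1
    R.one_mem
  have e2 : lg n (r' : A) = lg n (κ (h ^ q)) := by
    rw [e, Units.val_one, lg_one, zero_add, map_pow, lg_pow (by rw [← hval]; exact hH2 _ ⟨h, rfl⟩),
      hlg, natCast_zsmul, smul_smul, smul_smul, smul_smul, Nat.mul_comm q c, ht]
    congr 1
    ring
  have e3 : (r' : A) = κ (h ^ q) := lg_inj (hH2 _ (hRH hr'))
    (by rw [← hval]; exact hH2 _ ⟨_, rfl⟩) e2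
  obtain ⟨x, hx, rfl⟩ := hr'
  rw [hval] at e3
  have e4 : κ (x⁻¹ * h ^ q) = 1 := by
    rw [map_mul, ← e3, ← map_mul, inv_mul_cancel, map_one]
  have := S.mul_mem hx (hS _ e4)
  rwa [mul_inv_cancel_left] at this

end Pool.Agent.W_MP_7610c5_al
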