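import Pool.Agent.W_MP_7610c5_al.Defs

/-!
# Reduction of Plotkin's problem to finitely generated `p`-groups of finite exponent
(MP_7610c5_al)
-/

set_option autoImplicit false

universe u v

namespace Pool.Agent.W_MP_7610c5_al

open MonoidAlgebra
open scoped commutatorElement

namespace Red

/-- the map of group rings induced by a homomorphism -/
noncomputable def mp {G : Type u} {K : Type v} [Group G] [Group K] (f : G →* K) :
    MonoidAlgebra ℤ G →+* MonoidAlgebra ℤ K :=
  MonoidAlgebra.mapDomainRingHom ℤ f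

lemma mp_of {G : Type u} {K : Type v} [Group G] [Group K] (f : G →* K) (g : G) :
    mp f (MonoidAlgebra.of ℤ G g) = MonoidAlgebra.of ℤ K (f g) := by
  simp [mp, MonoidAlgebra.of_apply]

lemma mp_injective {G : Type u} {K : Type v} [Group G] [Group K] (f : G →* K)
    (hf : Function.Injective f) : Function.Injective (mp f) := by
  intro x y hxy
  have : MonoidAlgebra.mapDomain f x = MonoidAlgebra.mapDomain f y := hxy
  exact MonoidAlgebra.mapDomain_injective hf this

lemma aug_mp {G : Type u} {K : Type v} [Group G] [Group K] (f : G →* K) (x : MonoidAlgebra ℤ G) :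
    augHom ℤ K (mp f x) = augHom ℤ G x := by
  have : ((augHom ℤ K : MonoidAlgebra ℤ K →+* ℤ).comp (mp f)) =
      (augHom ℤ G : MonoidAlgebra ℤ G →+* ℤ) := by
    apply MonoidAlgebra.ringHom_ext
    · intro r
      simp [mp, augHom]
    · intro g
      simp [mp, augHom]
  exact congrArg (fun φ : MonoidAlgebra ℤ G →+* ℤ => φ x) this

lemma mp_mem {G : Type u} {K : Type v} [Group G] [Group K] (f : G →* K) (m : ℕ) :
    ∀ x ∈ augIdeal ℤ G ^ m, mp f x ∈ augIdeal ℤ K ^ m := by
  induction m with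
  | zero => intro x _; rw [Submodule.pow_zero, Ideal.one_eq_top]; trivial
  | succ m ih =>
    intro x hx
    rw [Submodule.pow_succ] at hx ⊢
    refine Submodule.smul_induction_on hx ?_ ?_
    · intro r hr y hy
      rw [smul_eq_mul, map_mul]
      refine Ideal.mul_mem_mul (ih r hr) ?_
      have hy' : augHom ℤ G y = 0 := hy
      show augHom ℤ K (mp f y) = 0
      rw [aug_mp, hy']
    · intro y z hy hz
      rw [map_add]
      exact add_mem hy hz

lemma dimSet_map {G : Type u} {K : Type v} [Group G] [Group K] (f : G →* K) {m : ℕ} {g : G}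
    (hg : g ∈ dimSet G m) : f g ∈ dimSet K m := by
  have := mp_mem f m _ hg
  rw [map_sub, mp_of, map_one] at this
  exact this

lemma mp_comp {G : Type u} [Group G] (H K : Subgroup G) (hHK : H ≤ K) (x : MonoidAlgebra ℤ H) :
    mp K.subtype (mp (Subgroup.inclusion hHK) x) = mp H.subtype x := by
  have : (mp K.subtype).comp (mp (Subgroup.inclusion hHK)) = mp H.subtype := by
    unfold mp
    rw [← MonoidAlgebra.mapDomainRingHom_comp]
    rfl
  exact congrArg (fun φ : MonoidAlgebra ℤ H →+* MonoidAlgebra ℤ G => φ x) this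

/-- `x` comes from the `m`-th augmentation power of a finitely generated subgroup -/
def Fin' {G : Type u} [Group G] (m : ℕ) (x : MonoidAlgebra ℤ G) : Prop :=
  ∃ H : Subgroup G, H.FG ∧ ∃ y ∈ augIdeal ℤ H ^ m, mp H.subtype y = x

lemma Fin'.add {G : Type u} [Group G] {m : ℕ} {x y : MonoidAlgebra ℤ G} (hx : Fin' m x)
    (hy : Fin' m y) : Fin' m (x + y) := by
  obtain ⟨H, hH, x', hx', rfl⟩ := hx
  obtain ⟨K, hK, y', hy', rfl⟩ := hy
  refine ⟨H ⊔ K, hH.sup hK, mp (Subgroup.inclusion le_sup_left) x' +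
    mp (Subgroup.inclusion le_sup_right) y', add_mem (mp_mem _ _ _ hx') (mp_mem _ _ _ hy'), ?_⟩
  rw [map_add, mp_comp, mp_comp]

lemma Fin'.mul {G : Type u} [Group G] {m : ℕ} {x y : MonoidAlgebra ℤ G} (hx : Fin' m x)
    (hy : Fin' 1 y) : Fin' (m + 1) (x * y) := by
  obtain ⟨H, hH, x', hx', rfl⟩ := hx
  obtain ⟨K, hK, y', hy', rfl⟩ := hy
  refine ⟨H ⊔ K, hH.sup hK, mp (Subgroup.inclusion le_sup_left) x' *
    mp (Subgroup.inclusion le_sup_right) y', ?_, ?_⟩
  · rw [Submodule.pow_succ]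
    refine Ideal.mul_mem_mul (mp_mem _ _ _ hx') ?_
    have := mp_mem (Subgroup.inclusion (le_sup_right : K ≤ H ⊔ K)) _ _ hy'
    rwa [Submodule.pow_one] at this
  · rw [map_mul, mp_comp, mp_comp]

lemma mem_pow_zero {G : Type u} [Group G] (x : MonoidAlgebra ℤ G) : x ∈ augIdeal ℤ G ^ 0 := by
  rw [Submodule.pow_zero, Ideal.one_eq_top]; trivial

lemma Fin'.zero {G : Type u} [Group G] (x : MonoidAlgebra ℤ G) : Fin' 0 x := by
  induction x using MonoidAlgebra.induction_on with
  | of g =>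
    refine ⟨Subgroup.closure {g}, ⟨{g}, by simp⟩,
      MonoidAlgebra.of ℤ _ ⟨g, Subgroup.subset_closure rfl⟩, mem_pow_zero _, ?_⟩
    rw [mp_of]
    rfl
  | add x y hx hy => exact hx.add hy
  | smul r x hx =>
    obtain ⟨H, hH, y, hy, rfl⟩ := hx
    refine ⟨H, hH, r • y, mem_pow_zero _, ?_⟩
    rw [map_zsmul]

lemma Fin'.one {G : Type u} [Group G] {x : MonoidAlgebra ℤ G} (hx : x ∈ augIdeal ℤ G) :
    Fin' 1 x := by
  obtain ⟨H, hH, y, _, rfl⟩ := Fin'.zero x
  refine ⟨H, hH, y, ?_, rfl⟩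
  rw [Submodule.pow_one]
  show augHom ℤ H y = 0
  rw [← aug_mp H.subtype]
  exact hx

lemma Fin'.of_mem {G : Type u} [Group G] (m : ℕ) :
    ∀ x ∈ augIdeal ℤ G ^ m, Fin' m x := by
  induction m with
  | zero => intro x _; exact Fin'.zero x
  | succ m ih =>
    intro x hx
    rw [Submodule.pow_succ] at hx
    refine Submodule.smul_induction_on hx ?_ ?_
    · intro r hr y hy
      rw [smul_eq_mul]
      exact (ih r hr).mul (Fin'.one hy)
    · intro y z hy hz
      exact hy.add hz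

/-- dimension subgroups are detected on finitely generated subgroups -/
lemma exists_fg {G : Type u} [Group G] {m : ℕ} {g : G} (hg : g ∈ dimSet G m) :
    ∃ (H : Subgroup G) (_ : H.FG) (h : H), (h : G) = g ∧ h ∈ dimSet H m := by
  obtain ⟨H, hH, y, hy, hyg⟩ := Fin'.of_mem m _ hg
  refine ⟨H ⊔ Subgroup.closure {g}, hH.sup ⟨{g}, by simp⟩,
    ⟨g, (le_sup_right : _ ≤ H ⊔ Subgroup.closure {g}) (Subgroup.subset_closure rfl)⟩, rfl, ?_⟩
  have h1 := mp_mem (Subgroup.inclusion (le_sup_left : H ≤ H ⊔ Subgroup.closure {g})) _ _ hy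
  have h2 : mp (Subgroup.inclusion (le_sup_left : H ≤ H ⊔ Subgroup.closure {g})) y =
      MonoidAlgebra.of ℤ _ ⟨g, (le_sup_right : _ ≤ H ⊔ Subgroup.closure {g})
        (Subgroup.subset_closure rfl)⟩ - 1 := by
    apply mp_injective (H ⊔ Subgroup.closure {g}).subtype (Subgroup.subtype_injective _)
    rw [mp_comp, hyg, map_sub, mp_of, map_one]
    rfl
  rw [h2] at h1
  exact h1

/-! ### finitely generated nilpotent groups whose centre is a torsion `p`-group -/

lemma comm_pow {N : Type u} [Group N] (x y c : N) (h : x * y = c * (y * x)) (hc : Commute c x)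
    (k : ℕ) : x ^ k * y = c ^ k * (y * x ^ k) := by
  induction k with
  | zero => simp
  | succ k ih =>
    have hck : c ^ k * x = x * c ^ k := (hc.pow_left k)
    calc x ^ (k + 1) * y = x * (x ^ k * y) := by rw [pow_succ']; group
      _ = x * (c ^ k * (y * x ^ k)) := by rw [ih]
      _ = (x * c ^ k) * (y * x ^ k) := by group
      _ = (c ^ k * x) * (y * x ^ k) := by rw [hck]
      _ = c ^ k * (x * y) * x ^ k := by simp only [mul_assoc]
      _ = c ^ k * (c * (y * x)) * x ^ k := by rw [h]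
      _ = c ^ (k + 1) * (y * x ^ (k + 1)) := by
        rw [pow_succ c k, pow_succ' x k]; simp only [mul_assoc]

lemma comm_pow_eq {N : Type u} [Group N] (x y : N) (hc : Commute ⁅x, y⁆ x) (k : ℕ) :
    ⁅x ^ k, y⁆ = ⁅x, y⁆ ^ k := by
  have h : x * y = ⁅x, y⁆ * (y * x) := by rw [commutatorElement_def]; group
  have h1 := comm_pow x y _ h hc k
  rw [commutatorElement_def (x ^ k) y, h1]
  group

lemma fg_closure {N : Type u} [Group N] (hN : Group.FG N) :
    ∃ s : Finset N, Subgroup.closure (s : Set N) = ⊤ := hN.out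

lemma pow_pow_le {N : Type u} [Group N] {x : N} {p k K : ℕ} (h : x ^ p ^ k = 1) (hk : k ≤ K) :
    x ^ p ^ K = 1 := by
  obtain ⟨d, rfl⟩ := Nat.exists_eq_add_of_le hk
  rw [pow_add, pow_mul, h, one_pow]

lemma center_quot {N : Type u} [Group N] (hN : Group.FG N) (p : ℕ)
    (h : ∀ z ∈ Subgroup.center N, ∃ k : ℕ, z ^ p ^ k = 1) :
    ∀ z ∈ Subgroup.center (N ⧸ Subgroup.center N), ∃ k : ℕ, z ^ p ^ k = 1 := by
  intro z hz
  obtain ⟨x, rfl⟩ := QuotientGroup.mk_surjective z
  obtain ⟨s, hs⟩ := fg_closure hN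
  have hcom : ∀ y, ⁅x, y⁆ ∈ Subgroup.center N := by
    intro y
    rw [← QuotientGroup.eq_one_iff]
    have h1 := (Subgroup.mem_center_iff.mp hz) (y : N ⧸ Subgroup.center N)
    have h2 : (((⁅x, y⁆ : N)) : N ⧸ Subgroup.center N) =
        ⁅(x : N ⧸ Subgroup.center N), (y : N ⧸ Subgroup.center N)⁆ := rfl
    rw [h2, commutatorElement_eq_one_iff_mul_comm]
    exact h1.symm
  choose k hk using fun y => h _ (hcom y)
  refine ⟨s.sup k, ?_⟩
  have hcent : x ^ p ^ (s.sup k) ∈ Subgroup.center N := by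
    have hle : Subgroup.closure (s : Set N) ≤ Subgroup.centralizer {x ^ p ^ (s.sup k)} := by
      rw [Subgroup.closure_le]
      intro y hy
      rw [SetLike.mem_coe, Subgroup.mem_centralizer_singleton_iff]
      have h1 : ⁅x, y⁆ ^ p ^ (s.sup k) = 1 :=
        pow_pow_le (hk y) (Finset.le_sup (f := k) (Finset.mem_coe.mp hy))
      have h2 : Commute ⁅x, y⁆ x := ((Subgroup.mem_center_iff.mp (hcom y)) x).symm
      rw [← comm_pow_eq x y h2, commutatorElement_eq_one_iff_mul_comm] at h1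
      exact h1.symm
    rw [hs] at hle
    rw [Subgroup.mem_center_iff]
    intro y
    have := hle (Subgroup.mem_top y)
    rw [Subgroup.mem_centralizer_singleton_iff] at this
    exact this
  have : ((x ^ p ^ (s.sup k) : N) : N ⧸ Subgroup.center N) = 1 :=
    (QuotientGroup.eq_one_iff _).mpr hcent
  simpa using this

lemma torsion (p : ℕ) {N : Type u} [Group N] [Group.IsNilpotent N] (hN : Group.FG N)
    (h : ∀ z ∈ Subgroup.center N, ∃ k : ℕ, z ^ p ^ k = 1) :
    ∀ x : N, ∃ k : ℕ, x ^ p ^ k = 1 := by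
  revert hN h
  refine Group.nilpotent_center_quotient_ind (P := fun (G : Type u) _ _ =>
    Group.FG G → (∀ z ∈ Subgroup.center G, ∃ k : ℕ, z ^ p ^ k = 1) →
    ∀ x : G, ∃ k : ℕ, x ^ p ^ k = 1) N ?_ ?_
  · intro G _ _ _ _ x
    exact ⟨0, Subsingleton.elim _ _⟩
  · intro G _ _ ih hG h x
    have hfg : Group.FG (G ⧸ Subgroup.center G) :=
      Group.fg_of_surjective (QuotientGroup.mk'_surjective (Subgroup.center G))
    obtain ⟨k, hk⟩ := ih hfg (center_quot hG p h) (x : G ⧸ Subgroup.center G)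
    have hk' : x ^ p ^ k ∈ Subgroup.center G := by
      rw [← QuotientGroup.eq_one_iff]
      simpa using hk
    obtain ⟨l, hl⟩ := h _ hk'
    exact ⟨k + l, by rw [pow_add, pow_mul, hl]⟩

lemma exists_exp_ab (p : ℕ) {N : Type u} [Group N] (hN : Group.FG N)
    (h : ∀ x : N, ∃ k : ℕ, x ^ p ^ k = 1) :
    ∃ e : ℕ, ∀ x : N, x ^ p ^ e ∈ (⊤ : Subgroup N).lowerCentralSeries 1 := by
  obtain ⟨s, hs⟩ := fg_closure hN
  choose k hk using h
  refine ⟨s.sup k, ?_⟩
  intro x
  rw [Subgroup.top_lowerCentralSeries_one, ← Abelianization.ker_of, MonoidHom.mem_ker, map_pow]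
  have hle : Subgroup.closure (s : Set N) ≤
      ((powMonoidHom (p ^ s.sup k)).comp (Abelianization.of (G := N))).ker := by
    rw [Subgroup.closure_le]
    intro y hy
    rw [SetLike.mem_coe, MonoidHom.mem_ker]
    have h1 : y ^ p ^ (s.sup k) = 1 :=
      pow_pow_le (hk y) (Finset.le_sup (f := k) (Finset.mem_coe.mp hy))
    rw [MonoidHom.comp_apply, powMonoidHom_apply, ← map_pow, h1, map_one]
  rw [hs] at hle
  exact hle (Subgroup.mem_top x)

lemma pow_mem_lcs {N : Type u} [Group N] (k : ℕ)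
    (h : ∀ x : N, x ^ k ∈ (⊤ : Subgroup N).lowerCentralSeries 1) (i : ℕ) :
    ∀ x ∈ (⊤ : Subgroup N).lowerCentralSeries i,
      x ^ k ∈ (⊤ : Subgroup N).lowerCentralSeries (i + 1) := by
  induction i with
  | zero => intro x _; exact h x
  | succ i ih =>
    intro x hx
    set L := (⊤ : Subgroup N).lowerCentralSeries (i + 1 + 1) with hL
    have hcent : ∀ u ∈ (⊤ : Subgroup N).lowerCentralSeries (i + 1),
        (u : N ⧸ L) ∈ Subgroup.center (N ⧸ L) := by
      intro u hu
      rw [Subgroup.mem_center_iff]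
      intro y
      obtain ⟨y, rfl⟩ := QuotientGroup.mk_surjective y
      have h1 : ⁅u, y⁆ ∈ L := Subgroup.commutator_mem_commutator hu (Subgroup.mem_top y)
      have h2 : (((⁅u, y⁆ : N)) : N ⧸ L) = ⁅(u : N ⧸ L), (y : N ⧸ L)⁆ := rfl
      rw [← QuotientGroup.eq_one_iff, h2, commutatorElement_eq_one_iff_mul_comm] at h1
      exact h1.symm
    let C : Subgroup (N ⧸ L) :=
      { carrier := {q | q ∈ Subgroup.center (N ⧸ L) ∧ q ^ k = 1}
        one_mem' := ⟨one_mem _, one_pow _⟩
        mul_mem' := by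
          rintro a b ⟨ha, ha'⟩ ⟨hb, hb'⟩
          refine ⟨mul_mem ha hb, ?_⟩
          have hab : Commute a b := (Subgroup.mem_center_iff.mp hb) a
          rw [hab.mul_pow, ha', hb', one_mul]
        inv_mem' := by
          rintro a ⟨ha, ha'⟩
          exact ⟨inv_mem ha, by rw [inv_pow, ha', inv_one]⟩ }
    have hle : (⊤ : Subgroup N).lowerCentralSeries (i + 1) ≤ C.comap (QuotientGroup.mk' L) := by
      rw [Subgroup.lowerCentralSeries_succ, Subgroup.commutator_le]
      intro a ha b _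
      have hab : ⁅a, b⁆ ∈ (⊤ : Subgroup N).lowerCentralSeries (i + 1) :=
        Subgroup.commutator_mem_commutator ha (Subgroup.mem_top b)
      refine ⟨hcent _ hab, ?_⟩
      have h2 : (QuotientGroup.mk' L) ⁅a, b⁆ = ⁅(a : N ⧸ L), (b : N ⧸ L)⁆ := rfl
      have h3 : Commute ⁅(a : N ⧸ L), (b : N ⧸ L)⁆ (a : N ⧸ L) :=
        ((Subgroup.mem_center_iff.mp (hcent _ hab)) _).symm
      rw [h2, ← comm_pow_eq _ _ h3, commutatorElement_eq_one_iff_mul_comm]
      have h4 := (Subgroup.mem_center_iff.mp (hcent _ (ih a ha))) (b : N ⧸ L)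
      rw [QuotientGroup.mk_pow] at h4
      exact h4.symm
    have h5 := (hle hx).2
    rw [← QuotientGroup.eq_one_iff]
    simpa using h5

lemma exists_exp (p n : ℕ) {N : Type u} [Group N] (hN : Group.FG N)
    (hn : (⊤ : Subgroup N).lowerCentralSeries n = ⊥)
    (h : ∀ x : N, ∃ k : ℕ, x ^ p ^ k = 1) : ∃ E : ℕ, ∀ x : N, x ^ p ^ E = 1 := by
  obtain ⟨e, he⟩ := exists_exp_ab p hN h
  refine ⟨e * n, ?_⟩
  have key : ∀ j, ∀ x : N, x ^ p ^ (e * j) ∈ (⊤ : Subgroup N).lowerCentralSeries j := by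
    intro j
    induction j with
    | zero => intro x; exact Subgroup.mem_top _
    | succ j ih =>
      intro x
      have := pow_mem_lcs (p ^ e) he j _ (ih x)
      rwa [← pow_mul, ← pow_add] at this
  intro x
  have := key n x
  rw [hn] at this
  exact this

/-- the monolith argument -/
lemma center_tors {N : Type u} [Group N] (hb : N) (hb1 : hb ≠ 1)
    (hmono : ∀ T : Subgroup N, T.Normal → T ≠ ⊥ → hb ∈ T) :
    ∃ p : ℕ, p.Prime ∧ ∀ z ∈ Subgroup.center N, ∃ k : ℕ, z ^ p ^ k = 1 := by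
  have hA : ∀ z ∈ Subgroup.center N, z ≠ 1 → ∃ a : ℤ, z ^ a = hb := by
    intro z hz hz1
    have hnorm : (Subgroup.zpowers z).Normal := by
      constructor
      intro x hx y
      obtain ⟨a, rfl⟩ := Subgroup.mem_zpowers_iff.mp hx
      have h1 : y * z ^ a = z ^ a * y :=
        (Subgroup.mem_center_iff.mp (zpow_mem hz a)) y
      rw [h1, mul_inv_cancel_right]
      exact hx
    have h2 := hmono _ hnorm (by rwa [Ne, Subgroup.zpowers_eq_bot])
    exact Subgroup.mem_zpowers_iff.mp h2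
  have hB : ∀ z ∈ Subgroup.center N, IsOfFinOrder z := by
    intro z hz
    by_contra hinf
    have hz1 : z ≠ 1 := by
      rintro rfl
      exact hinf IsOfFinOrder.one
    obtain ⟨a, ha⟩ := hA z hz hz1
    have hinj := injective_zpow_iff_not_isOfFinOrder.mpr hinf
    have ha0 : a ≠ 0 := by
      rintro rfl
      exact hb1 (by rw [← ha, zpow_zero])
    have h2a : z ^ (2 * a) ≠ 1 := by
      intro h
      have : (2 * a) = 0 := hinj (by simpa using h)
      omega
    obtain ⟨b, hb'⟩ := hA _ (zpow_mem hz (2 * a)) h2a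
    rw [← zpow_mul, ← ha] at hb'
    have h3 : 2 * a * b = a := hinj hb'
    have h4 : a * (2 * b - 1) = 0 := by linarith [h3, mul_comm a b]
    rcases mul_eq_zero.mp h4 with h5 | h5
    · exact ha0 h5
    · omega
  by_cases hc : ∃ z ∈ Subgroup.center N, z ≠ 1
  · obtain ⟨z0, hz0, hz01⟩ := hc
    obtain ⟨a, ha⟩ := hA z0 hz0 hz01
    have hbc : hb ∈ Subgroup.center N := by rw [← ha]; exact zpow_mem hz0 a
    have ho : orderOf hb ≠ 1 := by
      rw [Ne, orderOf_eq_one_iff]
      exact hb1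
    obtain ⟨p, hp, hpd⟩ := Nat.exists_prime_and_dvd ho
    refine ⟨p, hp, ?_⟩
    intro z hz
    by_cases hz1 : z = 1
    · exact ⟨0, by rw [hz1, one_pow]⟩
    have hfin := (hB z hz).orderOf_pos
    obtain ⟨k, m', hm', hkm⟩ := Nat.exists_eq_pow_mul_and_not_dvd hfin.ne' p hp.ne_one
    refine ⟨k, ?_⟩
    by_contra hne
    obtain ⟨c, hc⟩ := hA _ (pow_mem hz (p ^ k)) hne
    have h1 : (z ^ p ^ k) ^ m' = 1 := by rw [← pow_mul, ← hkm, pow_orderOf_eq_one]
    have h2 : hb ^ m' = 1 := by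
      rw [← hc, ← zpow_natCast, ← zpow_mul, mul_comm, zpow_mul, zpow_natCast, h1, one_zpow]
    exact hm' (hpd.trans (orderOf_dvd_of_pow_eq_one h2))
  · refine ⟨2, Nat.prime_two, ?_⟩
    intro z hz
    refine ⟨0, ?_⟩
    by_contra h
    apply hc
    exact ⟨z, hz, by simpa using h⟩

lemma exists_maximal {N : Type u} [Group N] (h : N) (h1 : h ≠ 1) :
    ∃ S : Subgroup N, S.Normal ∧ h ∉ S ∧ ∀ T : Subgroup N, T.Normal → S ≤ T → h ∉ T → T ≤ S := by
  obtain ⟨S, hS⟩ := zorn_le₀ {S : Subgroup N | S.Normal ∧ h ∉ S} (by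
    intro c hc hchain
    by_cases hne : c.Nonempty
    · refine ⟨sSup c, ⟨?_, ?_⟩, fun z hz => le_sSup hz⟩
      · constructor
        intro x hx y
        rw [Subgroup.mem_sSup_of_directedOn hne hchain.directedOn] at hx ⊢
        obtain ⟨S, hS, hxS⟩ := hx
        exact ⟨S, hS, (hc hS).1.conj_mem x hxS y⟩
      · rw [Subgroup.mem_sSup_of_directedOn hne hchain.directedOn]
        rintro ⟨S, hS, hxS⟩
        exact (hc hS).2 hxS
    · refine ⟨⊥, ⟨inferInstance, by rwa [Subgroup.mem_bot]⟩, ?_⟩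
      intro z hz
      exact absurd ⟨z, hz⟩ hne)
  exact ⟨S, hS.1.1, hS.1.2, fun T hT hST hT' => hS.2 ⟨hT, hT'⟩ hST⟩

end Red

open Red in
theorem reduction (n m : ℕ)
    (h : ∀ (r : ℕ) (S : Subgroup (FreeGroup (Fin r))) [S.Normal],
      (⊤ : Subgroup (FreeGroup (Fin r))).lowerCentralSeries n ≤ S →
      ∀ p E : ℕ, p.Prime → (∀ x : FreeGroup (Fin r), x ^ p ^ E ∈ S) → ∀ w : FreeGroup (Fin r),
      (w : FreeGroup (Fin r) ⧸ S) ∈ dimSet (FreeGroup (Fin r) ⧸ S) m → w ∈ S)
    {G : Type u} [Group G] (hG : (⊤ : Subgroup G).lowerCentralSeries n = ⊥)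
    {g : G} (hg : g ∈ dimSet G m) : g = 1 := by
  by_contra hg1
  obtain ⟨H, hH, h0, hh0, hdim⟩ := exists_fg hg
  have hHn : (⊤ : Subgroup H).lowerCentralSeries n = ⊥ := by
    have h1 : ((⊤ : Subgroup H).lowerCentralSeries n).map H.subtype = ⊥ := by
      rw [Subgroup.top_subtype_lowerCentralSeries, eq_bot_iff, ← hG]
      exact Subgroup.lowerCentralSeries_mono n le_top
    exact (Subgroup.map_eq_bot_iff_of_injective _ (Subgroup.subtype_injective H)).mp h1
  have h01 : h0 ≠ 1 := by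
    rintro rfl
    exact hg1 (by rw [← hh0]; rfl)
  obtain ⟨S, hSn, hS0, hSmax⟩ := exists_maximal h0 h01
  set N := H ⧸ S with hN
  have hfgH : Group.FG H := (Group.fg_iff_subgroup_fg H).mpr hH
  have hfgN : Group.FG N := Group.fg_of_surjective (QuotientGroup.mk'_surjective S)
  have hNn : (⊤ : Subgroup N).lowerCentralSeries n = ⊥ := by
    have h1 := Subgroup.map_lowerCentralSeries (⊤ : Subgroup H) (QuotientGroup.mk' S) n
    rw [hHn, Subgroup.map_bot, ← MonoidHom.range_eq_map,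
      MonoidHom.range_eq_top.mpr (QuotientGroup.mk'_surjective S)] at h1
    exact h1.symm
  have : Group.IsNilpotent N := Subgroup.nilpotent_iff_lowerCentralSeries.mpr ⟨n, hNn⟩
  have hb1 : (h0 : N) ≠ 1 := by
    rw [Ne, QuotientGroup.eq_one_iff]
    exact hS0
  have hmono : ∀ T : Subgroup N, T.Normal → T ≠ ⊥ → (h0 : N) ∈ T := by
    intro T hT hTne
    by_contra hnot
    apply hTne
    have h2 := hSmax (T.comap (QuotientGroup.mk' S)) (hT.comap _) (by
      intro x hx
      rw [Subgroup.mem_comap]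
      have : QuotientGroup.mk' S x = 1 := (QuotientGroup.eq_one_iff x).mpr hx
      rw [this]
      exact one_mem T) hnot
    rw [eq_bot_iff]
    intro x hx
    obtain ⟨y, rfl⟩ := QuotientGroup.mk_surjective x
    have h3 : y ∈ S := h2 hx
    exact (QuotientGroup.eq_one_iff y).mpr h3
  obtain ⟨p, hp, hpc⟩ := center_tors (h0 : N) hb1 hmono
  have htor := torsion p hfgN hpc
  obtain ⟨E, hE⟩ := exists_exp p n hfgN hNn htor
  obtain ⟨α, hα, φ, hφ⟩ := Group.fg_iff_exists_freeGroup_hom_surjective_finite.mp hfgN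
  obtain ⟨r, ⟨e⟩⟩ := Finite.exists_equiv_fin α
  let ψ : FreeGroup (Fin r) →* N := φ.comp (FreeGroup.freeGroupCongr e.symm).toMonoidHom
  have hψ : Function.Surjective ψ := hφ.comp (FreeGroup.freeGroupCongr e.symm).surjective
  obtain ⟨w, hw⟩ := hψ (h0 : N)
  have hker := h r ψ.ker ?_ p E hp ?_ w ?_
  · rw [MonoidHom.mem_ker, hw] at hker
    exact hb1 hker
  · intro x hx
    have h1 := Subgroup.map_lowerCentralSeries (⊤ : Subgroup (FreeGroup (Fin r))) ψ n
    rw [← MonoidHom.range_eq_map, MonoidHom.range_eq_top.mpr hψ, hNn] at h1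
    have h2 : ψ x ∈ ((⊤ : Subgroup (FreeGroup (Fin r))).lowerCentralSeries n).map ψ :=
      Subgroup.mem_map_of_mem _ hx
    rw [h1] at h2
    exact h2
  · intro x
    rw [MonoidHom.mem_ker, map_pow]
    exact hE _
  · have h1 : (h0 : N) ∈ dimSet N m := dimSet_map (QuotientGroup.mk' S) hdim
    have h2 := dimSet_map (QuotientGroup.quotientKerEquivOfSurjective ψ hψ).symm.toMonoidHom h1
    have h3 : (QuotientGroup.quotientKerEquivOfSurjective ψ hψ) (w : FreeGroup (Fin r) ⧸ ψ.ker)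
        = (h0 : N) := by rw [← hw]; rfl
    have h4 : (QuotientGroup.quotientKerEquivOfSurjective ψ hψ).symm.toMonoidHom (h0 : N)
        = (w : FreeGroup (Fin r) ⧸ ψ.ker) := by
      rw [← h3]
      exact MulEquiv.symm_apply_apply _ _
    rw [h4] at h2
    exact h2

end Pool.Agent.W_MP_7610c5_al
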