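import Pool.Agent.W_MP_7610c5_al.ChainCore
import Pool.Agent.W_MP_7610c5_al.Deep
import Pool.Agent.W_MP_7610c5_al.Section
import Pool.Agent.W_MP_7610c5_al.ExistsSetup
import Pool.Agent.W_MP_7610c5_al.LogMain
import Pool.Agent.W_MP_7610c5_al.Reduction

universe u

namespace Pool.Agent.W_MP_7610c5_al

lemma mem_of_coprime_pow {G : Type*} [Group G] {R : Subgroup G} {h : G} {q r : ℕ}
    (hqr : Nat.Coprime q r) (h1 : h ^ q ∈ R) (h2 : h ^ r ∈ R) : h ∈ R := by
  have e : (q : ℤ) * Nat.gcdA q r + (r : ℤ) * Nat.gcdB q r = 1 := by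
    rw [← Nat.gcd_eq_gcd_ab]; exact_mod_cast hqr
  have e2 : h = (h ^ q) ^ (Nat.gcdA q r) * (h ^ r) ^ (Nat.gcdB q r) := by
    rw [← zpow_natCast, ← zpow_natCast, ← zpow_mul, ← zpow_mul, ← zpow_add, e, zpow_one]
  rw [e2]
  exact R.mul_mem (R.zpow_mem h1 _) (R.zpow_mem h2 _)

/-- the chain of sections, ending with the deep case -/
theorem chain' (n p a : ℕ) (hp : p.Prime) : ∃ m₁ : ℕ, ∀ (Γ T : Type) (_ : Group Γ) (_ : Ring T)
    (_ : Module.Finite ℤ T) (_ : Module.Free ℤ T) (s : Setup n Γ T) (S : Subgroup Γ)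
    (_ : S.Normal) (E : ℕ),
    (∀ x : Γ, x ^ p ^ E ∈ S) → (∀ x : Γ, s.κ x = 1 → x ∈ S) →
    (∀ (R : Subgroup Γ) [R.Normal] (E : ℕ), (∀ x : Γ, x ^ p ^ E ∈ R) →
      (∀ x : Γ, s.κ x = 1 → x ∈ R) →
      ∀ h : Γ, (∃ z ∈ s.J R, s.κ h - 1 = p ^ a • z) → h ∈ R) →
    ∀ w : Γ, (w : Γ ⧸ S) ∈ dimSet (Γ ⧸ S) m₁ → w ∈ S := by
  obtain ⟨m₁, h⟩ := chain_of n p a (deep n p a hp) (fun s S S' _ _ => section_step n p a hp s S S')
  exact ⟨m₁, fun Γ T _ _ _ _ s S _ E h1 h2 h3 => h s S E h1 h2 h3⟩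

/-- there is a bound `m` only depending on `n` such that `D_m(G) = 1` for all groups `G` with
`γ_{n+1}(G) = 1` -/
theorem exists_bound (n : ℕ) : ∃ m : ℕ, ∀ {G : Type u} [Group G],
    (⊤ : Subgroup G).lowerCentralSeries n = ⊥ → ∀ g ∈ dimSet G m, g = 1 := by
  classical
  obtain ⟨N, hN, hstar⟩ := log_star n
  -- the bound for the primes dividing `N`
  let m₁ : ℕ → ℕ := fun p => if hp : p.Prime then (chain' n p (N.factorization p) hp).choose else 0
  refine ⟨max (n + 1) (N.primeFactors.sup m₁), ?_⟩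
  intro G _ hG g hg
  refine reduction n _ ?_ hG hg
  intro r S hS hle p E hp hE w hw
  obtain ⟨T, _, _, _, s, hker, A, _, _, I, _, j, Λ, hj, hI, hjI, hΛ⟩ := exists_setup n r
  have hκS : ∀ (R : Subgroup (FreeGroup (Fin r))),
      (⊤ : Subgroup (FreeGroup (Fin r))).lowerCentralSeries n ≤ R →
      ∀ x, s.κ x = 1 → x ∈ R := fun R hR x hx => hR (hker x hx)
  -- the consequence of the logarithm argument
  have hst : ∀ (R : Subgroup (FreeGroup (Fin r))) [R.Normal] (a q : ℕ), N ∣ a * q →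
      (∀ x, s.κ x = 1 → x ∈ R) → ∀ h, (∃ z ∈ s.J R, s.κ h - 1 = a • z) → h ^ q ∈ R := by
    rintro R _ a q hq hR h ⟨z, hz, hh⟩
    refine hstar (Γ := FreeGroup (Fin r)) (A := A) I hI ((j : T →* A).comp s.κ) hjI Λ hΛ R ?_ h a q
      hq (j z) ?_ ?_
    · intro x hx
      refine hR x (hj ?_)
      rw [map_one]; exact hx
    · unfold Setup.J at hz
      clear hh
      induction hz using AddSubgroup.closure_induction with
      | zero => rw [map_zero]; exact zero_mem _
      | add a b _ _ ha hb => rw [map_add]; exact add_mem ha hb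
      | neg a _ ha => rw [map_neg]; exact neg_mem ha
      | mem a ha =>
        obtain ⟨x, y, hy, rfl⟩ := ha
        refine AddSubgroup.subset_closure ⟨x, y, hy, ?_⟩
        rw [map_mul, map_sub, map_one]
        rfl
    · have := congrArg j hh
      rw [map_sub, map_one, map_nsmul] at this
      exact this
  by_cases hpN : p ∣ N
  · -- primes dividing `N`
    have hmem : p ∈ N.primeFactors := Nat.mem_primeFactors.2 ⟨hp, hpN, hN.ne'⟩
    have hm : m₁ p = (chain' n p (N.factorization p) hp).choose := by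
      simp only [m₁]; rw [dif_pos hp]
    have hch := (chain' n p (N.factorization p) hp).choose_spec
    rw [← hm] at hch
    refine hch _ _ _ _ inferInstance inferInstance s S hS E hE (hκS S hle) ?_ w
      (dimSet_anti ?_ hw)
    · intro R _ E' hE' hR h hh
      have h1 := hst R (p ^ N.factorization p) (N / p ^ N.factorization p)
        (by rw [Nat.ordProj_mul_ordCompl_eq_self]) hR h hh
      refine mem_of_coprime_pow ?_ h1 (hE' h)
      exact (Nat.coprime_ordCompl hp hN.ne').symm.pow_right E'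
    · exact (Finset.le_sup (f := m₁) hmem).trans (le_max_right _ _)
  · -- primes not dividing `N`
    have h1 : s.κ w - 1 ∈ s.J S := by
      let f : FreeGroup (Fin r) ⧸ S → T ⧸ s.J S := fun x =>
        Quotient.liftOn' x (fun x => (QuotientAddGroup.mk (s.κ x) : T ⧸ s.J S)) (by
          intro x y hxy
          rw [QuotientGroup.leftRel_apply] at hxy
          rw [QuotientAddGroup.eq]
          have := s.mul_mem_J (s.κ x) (s.sub_one_mem_J hxy)
          rw [mul_sub, ← map_mul, mul_inv_cancel_left, mul_one] at this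
          rwa [neg_add_eq_sub])
      have hf : Deg n f := by
        refine Deg.of_pull (π := QuotientGroup.mk' S) (QuotientGroup.mk'_surjective S) ?_
        exact s.deg_κ.comp (QuotientAddGroup.mk' (s.J S))
      have h2 : (w : FreeGroup (Fin r) ⧸ S) ∈ dimSet (FreeGroup (Fin r) ⧸ S) (n + 1) :=
        dimSet_anti (le_max_left _ _) hw
      have h3 := eq_of_mem_dimSet (f := f) (fun l hl => hf l (by omega)) h2
      have h4 : (QuotientAddGroup.mk (s.κ w) : T ⧸ s.J S) = QuotientAddGroup.mk (s.κ 1) := h3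
      rw [eq_comm, QuotientAddGroup.eq, map_one, neg_add_eq_sub] at h4
      exact h4
    have h2 := hst S 1 N (by simp) (hκS S hle) w ⟨_, h1, by rw [one_smul]⟩
    refine mem_of_coprime_pow ?_ h2 (hE w)
    exact ((Nat.Prime.coprime_iff_not_dvd hp).2 hpN).symm.pow_right E

end Pool.Agent.W_MP_7610c5_al
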