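import Pool.Agent.W_MP_7610c5_al.Fil

open MonoidAlgebra

namespace Pool.Agent.W_MP_7610c5_al

/-- a group `Γ` mapped to the units `≡ 1` modulo a nilpotent two-sided ideal `P` of a ring `T` -/
structure Setup (n : ℕ) (Γ T : Type*) [Group Γ] [Ring T] where
  κ : Γ →* T
  P : Ideal T
  two : P.IsTwoSided
  nil : P ^ (n + 1) = ⊥
  memP : ∀ x, κ x - 1 ∈ P
  span : ∀ t : T, t ∈ AddSubgroup.closure (Set.range κ)
  spanP : ∀ t ∈ P, t ∈ AddSubgroup.closure (Set.range fun x => κ x - 1)

attribute [instance] Setup.two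

variable {n : ℕ} {Γ T : Type*} [Group Γ] [Ring T]

/-- the additive group generated by the elements `κ x (κ y - 1)`, `y ∈ S` -/
def Setup.J (s : Setup n Γ T) (S : Subgroup Γ) : AddSubgroup T :=
  AddSubgroup.closure {z | ∃ x, ∃ y ∈ S, z = s.κ x * (s.κ y - 1)}

lemma Setup.κ_inv_mul (s : Setup n Γ T) (x : Γ) : s.κ x⁻¹ * s.κ x = 1 := by
  rw [← map_mul, inv_mul_cancel, map_one]

lemma Setup.κ_mul_inv (s : Setup n Γ T) (x : Γ) : s.κ x * s.κ x⁻¹ = 1 := by
  rw [← map_mul, mul_inv_cancel, map_one]

lemma Setup.sub_one_mem_J (s : Setup n Γ T) {S : Subgroup Γ} {y : Γ} (hy : y ∈ S) :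
    s.κ y - 1 ∈ s.J S :=
  AddSubgroup.subset_closure ⟨1, y, hy, by rw [map_one, one_mul]⟩

lemma Setup.mul_mem_J (s : Setup n Γ T) {S : Subgroup Γ} (t : T) {z : T} (hz : z ∈ s.J S) :
    t * z ∈ s.J S := by
  have ht := s.span t
  induction ht using AddSubgroup.closure_induction with
  | zero => rw [zero_mul]; exact zero_mem _
  | add a b _ _ ha hb => rw [add_mul]; exact add_mem ha hb
  | neg a _ ha => rw [neg_mul]; exact neg_mem ha
  | mem a ha =>
    obtain ⟨x, rfl⟩ := ha
    unfold Setup.J at hz ⊢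
    induction hz using AddSubgroup.closure_induction with
    | zero => rw [mul_zero]; exact zero_mem _
    | add a b _ _ ha hb => rw [mul_add]; exact add_mem ha hb
    | neg a _ ha => rw [mul_neg]; exact neg_mem ha
    | mem b hb =>
      obtain ⟨x', y, hy, rfl⟩ := hb
      exact AddSubgroup.subset_closure ⟨x * x', y, hy, by rw [map_mul, mul_assoc]⟩

lemma Setup.J_mul_mem (s : Setup n Γ T) {S : Subgroup Γ} [S.Normal] (t : T) {z : T}
    (hz : z ∈ s.J S) : z * t ∈ s.J S := by
  have ht := s.span t
  induction ht using AddSubgroup.closure_induction with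
  | zero => rw [mul_zero]; exact zero_mem _
  | add a b _ _ ha hb => rw [mul_add]; exact add_mem ha hb
  | neg a _ ha => rw [mul_neg]; exact neg_mem ha
  | mem a ha =>
    obtain ⟨x, rfl⟩ := ha
    unfold Setup.J at hz ⊢
    induction hz using AddSubgroup.closure_induction with
    | zero => rw [zero_mul]; exact zero_mem _
    | add a b _ _ ha hb => rw [add_mul]; exact add_mem ha hb
    | neg a _ ha => rw [neg_mul]; exact neg_mem ha
    | mem b hb =>
      obtain ⟨x', y, hy, rfl⟩ := hb
      refine AddSubgroup.subset_closure ⟨x' * x, x⁻¹ * y * x, ?_, ?_⟩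
      · have := ‹S.Normal›.conj_mem y hy x⁻¹
        rwa [inv_inv] at this
      · rw [mul_assoc, map_mul s.κ x' x, mul_assoc, mul_sub, mul_one, ← map_mul, sub_mul,
          one_mul, ← map_mul]
        congr 3
        group

lemma Setup.J_le (s : Setup n Γ T) (S : Subgroup Γ) {z : T} (hz : z ∈ s.J S) : z ∈ s.P := by
  unfold Setup.J at hz
  induction hz using AddSubgroup.closure_induction with
  | zero => exact zero_mem _
  | add a b _ _ ha hb => exact add_mem ha hb
  | neg a _ ha => exact neg_mem ha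
  | mem b hb =>
    obtain ⟨x', y, hy, rfl⟩ := hb
    exact Ideal.mul_mem_left _ _ (s.memP y)

/-- the map `κ` is a polynomial map of degree at most `n` -/
lemma Setup.deg_κ (s : Setup n Γ T) : Deg n (fun x => s.κ x) := by
  have key : ∀ l : List Γ, ∀ x, diffs l (fun x => s.κ x) x ∈ s.P ^ l.length ∧
      ∃ t ∈ s.P ^ l.length, ∀ x, diffs l (fun x => s.κ x) x = s.κ x * t := by
    intro l
    induction l with
    | nil =>
      intro x
      refine ⟨?_, 1, ?_, fun x => by rw [mul_one]; rfl⟩
      · rw [List.length_nil, Submodule.pow_zero, Ideal.one_eq_top]; trivial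
      · rw [List.length_nil, Submodule.pow_zero, Ideal.one_eq_top]; trivial
    | cons u l ih =>
      intro x
      obtain ⟨_, t, ht, h⟩ := ih x
      have e : ∀ x, diffs (u :: l) (fun x => s.κ x) x = s.κ x * ((s.κ u - 1) * t) := by
        intro x
        rw [diffs_cons, diff_apply, h, h, map_mul]
        noncomm_ring
      have hm : (s.κ u - 1) * t ∈ s.P ^ (u :: l).length := by
        rw [List.length_cons, Ideal.IsTwoSided.pow_succ]
        exact Ideal.mul_mem_mul (s.memP u) ht
      refine ⟨?_, _, hm, e⟩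
      rw [e]
      exact Ideal.mul_mem_left _ _ hm
  intro l hl
  funext x
  have h := (key l x).1
  have h' := ideal_pow_anti s.P (show n + 1 ≤ l.length by omega) h
  rw [s.nil] at h'
  exact h'

end Pool.Agent.W_MP_7610c5_al
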